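import Mathlib

/-!
Covers of compact sets of the line by the intervals of a grid (helper62).
-/

set_option autoImplicit false

open MeasureTheory Set Metric Filter Topology
open scoped ENNReal

namespace Pool.Agent.Q62.SD

/-- The indices of the grid of mesh `l` near `Z`. -/
def Ix (Z : Set ℝ) (l : ℝ) : Set ℤ := {j | ∃ t ∈ Z, |t - j * l| ≤ l / 2}

lemma Ix_cov {Z : Set ℝ} {l : ℝ} (hl : 0 < l) {t : ℝ} (ht : t ∈ Z) :
    ∃ j ∈ Ix Z l, |t - j * l| ≤ l / 2 := by
  have h1 := abs_sub_round (t / l)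
  have h2 : |t - (round (t / l) : ℤ) * l| ≤ l / 2 := by
    have e : t - (round (t / l) : ℤ) * l = (t / l - round (t / l)) * l := by
      field_simp
    rw [e, abs_mul, abs_of_pos hl]
    nlinarith
  exact ⟨round (t / l), ⟨t, ht, h2⟩, h2⟩

lemma grid_sum (μ : Measure ℝ) {Z : Set ℝ} {l : ℝ} (hl : 0 < l) :
    ∑' j : Ix Z l, μ (Ioo ((j : ℤ) * l - l) ((j : ℤ) * l + l)) ≤ 2 * μ (cthickening (2 * l) Z) := by
  set W := cthickening (2 * l) Z with hW
  have hWm : MeasurableSet W := isClosed_cthickening.measurableSet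
  set c : ℤ → Set ℝ := fun j => Ico (j • l) ((j + 1) • l) ∩ W with hc
  have hcm : ∀ j, MeasurableSet (c j) := fun j => measurableSet_Ico.inter hWm
  have hcd : Pairwise (fun i j => Disjoint (c i) (c j)) := fun i j hij =>
    ((pairwise_disjoint_Ico_zsmul l) hij).mono inter_subset_left inter_subset_left
  have hcs : ∑' j, μ (c j) = μ W := by
    rw [← measure_iUnion hcd hcm, hc, ← iUnion_inter, iUnion_Ico_zsmul hl, univ_inter]
  have h1 : ∀ j : Ix Z l, μ (Ioo ((j : ℤ) * l - l) ((j : ℤ) * l + l))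
      ≤ μ (c ((j : ℤ) - 1)) + μ (c (j : ℤ)) := by
    intro j
    refine (measure_mono fun t ht => ?_).trans (measure_union_le _ _)
    obtain ⟨s, hs, hsj⟩ := j.2
    have htW : t ∈ W := by
      refine mem_cthickening_of_dist_le t s (2 * l) Z hs ?_
      rw [Real.dist_eq, abs_le]
      rw [abs_le] at hsj
      constructor
      · linarith [ht.1, hsj.2]
      · linarith [ht.2, hsj.1]
    by_cases htj : t < (j : ℤ) * l
    · left
      refine ⟨⟨?_, ?_⟩, htW⟩
      · rw [zsmul_eq_mul]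
        push_cast
        linarith [ht.1]
      · rw [zsmul_eq_mul]
        push_cast
        linarith
    · right
      push Not at htj
      refine ⟨⟨?_, ?_⟩, htW⟩
      · rw [zsmul_eq_mul]
        exact htj
      · rw [zsmul_eq_mul]
        push_cast
        linarith [ht.2]
  calc ∑' j : Ix Z l, μ (Ioo ((j : ℤ) * l - l) ((j : ℤ) * l + l))
      ≤ ∑' j : Ix Z l, (μ (c ((j : ℤ) - 1)) + μ (c (j : ℤ))) := ENNReal.tsum_le_tsum h1
    _ ≤ ∑' j : ℤ, (μ (c (j - 1)) + μ (c j)) :=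
        ENNReal.tsum_comp_le_tsum_of_injective (f := fun j : Ix Z l => (j : ℤ))
          Subtype.val_injective (fun j : ℤ => μ (c (j - 1)) + μ (c j))
    _ = (∑' j : ℤ, μ (c (j - 1))) + ∑' j : ℤ, μ (c j) := ENNReal.tsum_add
    _ = (∑' j : ℤ, μ (c j)) + ∑' j : ℤ, μ (c j) := by
        congr 1
        exact (Equiv.subRight (1 : ℤ)).tsum_eq (fun j => μ (c j))
    _ = 2 * μ W := by rw [hcs, two_mul]

/-- The grid. -/
theorem grid {k : ℝ → ℝ} (hk : Integrable k) (hk0 : ∀ t, 0 ≤ k t) {Z : Set ℝ} (hZ : IsCompact Z)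
    (hZ0 : ∀ t ∈ Z, k t = 0) {ε d : ℝ} (hε : 0 < ε) (hd : 0 < d) :
    ∃ l : ℝ, 0 < l ∧ l < d ∧
      ∑' j : Ix Z l, ENNReal.ofReal (∫ t in Ioo ((j : ℤ) * l - l) ((j : ℤ) * l + l), k t)
        ≤ ENNReal.ofReal ε := by
  set μ : Measure ℝ := volume.withDensity fun t => ENNReal.ofReal (k t) with hμ
  have hfin : IsFiniteMeasure μ := isFiniteMeasure_withDensity_ofReal hk.2
  have hμI : ∀ a b : ℝ, ENNReal.ofReal (∫ t in Ioo a b, k t) = μ (Ioo a b) := fun a b => by
    rw [hμ, withDensity_apply _ measurableSet_Ioo,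
      ofReal_integral_eq_lintegral_ofReal hk.integrableOn (ae_of_all _ fun t => hk0 t)]
  have hμZ : μ Z = 0 := by
    rw [hμ, withDensity_apply _ hZ.isClosed.measurableSet,
      setLIntegral_congr_fun (g := fun _ => 0) hZ.isClosed.measurableSet fun t ht => by
        beta_reduce
        rw [hZ0 t ht, ENNReal.ofReal_zero]]
    simp
  have h1 := tendsto_measure_cthickening_of_isCompact (μ := μ) hZ
  rw [hμZ] at h1
  have h2 : Tendsto (fun l : ℝ => 2 * μ (cthickening (2 * l) Z)) (𝓝 0) (𝓝 0) := by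
    have h3 : Tendsto (fun l : ℝ => 2 * l) (𝓝 0) (𝓝 0) := by
      have h0 : Continuous fun l : ℝ => 2 * l := by fun_prop
      simpa using h0.tendsto 0
    have h4 := ENNReal.Tendsto.const_mul (a := 2) (h1.comp h3) (Or.inr (by simp))
    simpa using h4
  have h5 : ∀ᶠ l in 𝓝 (0 : ℝ), 2 * μ (cthickening (2 * l) Z) < ENNReal.ofReal ε :=
    h2.eventually_lt_const (ENNReal.ofReal_pos.2 hε)
  have h6 : ∀ᶠ l in 𝓝[>] (0 : ℝ), 0 < l ∧ l < d ∧
      2 * μ (cthickening (2 * l) Z) < ENNReal.ofReal ε := by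
    filter_upwards [self_mem_nhdsWithin, mem_nhdsWithin_of_mem_nhds h5,
      mem_nhdsWithin_of_mem_nhds (Iio_mem_nhds hd)] with l a b c
    exact ⟨a, c, b⟩
  obtain ⟨l, hl, hld, hlμ⟩ := h6.exists
  refine ⟨l, hl, hld, ?_⟩
  simp only [hμI]
  exact (grid_sum μ hl).trans hlμ.le

end Pool.Agent.Q62.SD
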