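import Pool.Agent.Q62.SD.Inc
import Pool.Agent.Q62.SD.Grid

/-!
No energy is lost at regular times and near regular points (helper62).
-/

set_option autoImplicit false

open MeasureTheory Set Metric Filter Topology
open scoped ContDiff ENNReal

namespace Pool.Agent.Q62.SD

open H459R3.NS W221.NS Pool.Agent.Y8 Pool.Agent.W583.MD

lemma lap_0 (x : V) : lap (fun _ : V => (0 : ℝ)) x = 0 := by
  have hz : ∀ j, pd j (fun _ : V => (0 : ℝ)) = fun _ => 0 := fun j => by
    funext y
    exact Pool.Agent.W135.MD.pd_const' 0 j y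
  unfold lap
  simp only [hz]
  exact Finset.sum_const_zero

lemma adv_0 (w : V → V) (x : V) : adv w (fun _ : V => (0 : ℝ)) x = 0 := by
  unfold adv
  simp only [Pool.Agent.W135.MD.pd_const', mul_zero, Finset.sum_const_zero]

lemma open_box (c : ℝ) (y : V) (a b : ℝ) :
    IsOpen {w : ℝ × V | |w.1 - c| < a ∧ ‖w.2 - y‖ < b} :=
  (isOpen_lt (continuous_fst.sub continuous_const).abs continuous_const).and
    (isOpen_lt (continuous_snd.sub continuous_const).norm continuous_const)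

section

variable {T E D : ℝ} {G : Set ℝ} {u : ℝ → V → V} {p : ℝ → V → ℝ} {φ : ℝ → V → ℝ}

lemma DD_off {t : ℝ} (h1 : φ t = fun _ => 0) (hd : ∀ x, deriv (fun s => φ s x) t = 0) :
    DD 1 u p φ t = 0 := by
  unfold DD
  simp only [h1, hd, lap_0, adv_0, mul_zero, add_zero, integral_zero]

/-- The defect vanishes for test functions supported at regular times. -/
lemma Df_reg (h : Turb 1 T E D G u p) (hφ : Test T φ) {a b : ℝ} (hab : a ≤ b) (hG : Icc a b ⊆ G)
    (h0 : ∀ t ∉ Ioo a b, ∀ x, φ t x = 0) : Df G u p φ = 0 := by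
  obtain ⟨R, hR, hz⟩ := test_box hφ
  have hd : ∀ t ∈ G, HasDerivAt (fun s => ∫ z, nsq (u s) z * φ s z) (DD 1 u p φ t) t :=
    fun t ht => en_id h.openG h.smooth_u h.smooth_p h.divfree
      (fun t ht x i => by
        have := h.momentum t ht x i
        rwa [one_mul] at this) (test_on hφ G) hR (fun t _ => hz t) ht
  have h1 : ∀ t ∈ G \ Icc a b, DD 1 u p φ t = 0 := by
    intro t ht
    have hn : ∀ᶠ s in 𝓝 t, φ s = fun _ => 0 := by
      filter_upwards [isClosed_Icc.isOpen_compl.mem_nhds ht.2] with s hs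
      funext x
      exact h0 s (fun hc => hs (Ioo_subset_Icc_self hc)) x
    refine DD_off hn.self_of_nhds fun x => ?_
    have h2 : (fun s => φ s x) =ᶠ[𝓝 t] fun _ => 0 := hn.mono fun s hs => by
      beta_reduce
      rw [hs]
    rw [h2.deriv_eq, deriv_const]
  unfold Df
  rw [setIntegral_eq_of_subset_of_forall_diff_eq_zero h.openG.measurableSet hG h1,
    integral_Icc_eq_integral_Ioc, ← intervalIntegral.integral_of_le hab,
    intervalIntegral.integral_eq_sub_of_hasDerivAt (f := fun s => ∫ z, nsq (u s) z * φ s z)]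
  · simp [h0 a (by simp), h0 b (by simp)]
  · intro t ht
    rw [uIcc_of_le hab] at ht
    exact hd t (hG ht)
  · rw [intervalIntegrable_iff_integrableOn_Icc_of_le hab]
    exact (DD_int h hφ).mono_set hG

/-- No energy is lost at the regular times. -/
theorem nul_reg (h : Turb 1 T E D G u p) : Nul T G u p {z | z.1 ∈ G} := by
  refine Nul.of_local fun z hz => ?_
  obtain ⟨e, he, hball⟩ := Metric.isOpen_iff.1 h.openG z.1 hz
  set R : ℝ := √(e / 2) with hR
  have hR0 : 0 < R := Real.sqrt_pos.2 (by linarith)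
  have hR2 : R ^ 2 = e / 2 := Real.sq_sqrt (by linarith)
  have hI : Icc (z.1 - R ^ 2) (z.1 + R ^ 2) ⊆ G := by
    intro t ht
    apply hball
    rw [mem_ball, Real.dist_eq, abs_lt]
    rw [hR2] at ht
    constructor
    · linarith [ht.1]
    · linarith [ht.2]
  have hR2' : 0 < R ^ 2 := by positivity
  have hT : Test T (bq z R) := bq_test hR0
    (h.subG (hI ⟨le_rfl, by linarith⟩)).1 (h.subG (hI ⟨by linarith, le_rfl⟩)).2
  have hopen := open_box z.1 z.2 (3 / 4 * R ^ 2) (3 / 4 * R)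
  refine ⟨_, hopen.mem_nhds ?_, fun ε hε => ⟨Unit, inferInstance, fun _ => bq z R, fun _ => hT,
    fun _ => bq_nn z R, ?_, ?_⟩⟩
  · simp only [mem_setOf_eq, sub_self, abs_zero, norm_zero]
    constructor <;> positivity
  · rintro w ⟨-, hw⟩
    refine ⟨(), ?_⟩
    filter_upwards [hopen.mem_nhds hw] with v hv
    rw [bq_one hR0 hv.1.le hv.2.le]
  · have h0 : Df G u p (bq z R) = 0 := by
      refine Df_reg h hT (a := z.1 - R ^ 2) (b := z.1 + R ^ 2) (by linarith) hI fun t ht x => ?_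
      refine bq_t hR0 ?_ x
      by_contra hc
      push Not at hc
      have := abs_lt.1 hc
      exact ht ⟨by linarith [this.1], by linarith [this.2]⟩
    simp [h0]

/-- The test functions of the slabs. -/
noncomputable def sb (χ : V → ℝ) (c l t : ℝ) (x : V) : ℝ := kT (l⁻¹ * (t - c)) * χ x

lemma sb_t {χ : V → ℝ} {c l : ℝ} (hl : 0 < l) {t : ℝ} (ht : t ∉ Ioo (c - l) (c + l)) (x : V) :
    sb χ c l t x = 0 := by
  unfold sb
  rw [kT.zero_of_le_dist, zero_mul]
  rw [dist_zero_right, Real.norm_eq_abs, abs_mul, abs_of_pos (by positivity)]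
  change (1 : ℝ) ≤ _
  rw [inv_mul_eq_div, le_div_iff₀ (by positivity), one_mul]
  by_contra hc
  push Not at hc
  have := abs_lt.1 hc
  exact ht ⟨by linarith [this.1], by linarith [this.2]⟩

lemma sb_one {χ : V → ℝ} {c l : ℝ} (hl : 0 < l) {t : ℝ} (ht : |t - c| ≤ 3 / 4 * l) (x : V) :
    sb χ c l t x = χ x := by
  unfold sb
  rw [kT.one_of_mem_closedBall, one_mul]
  rw [mem_closedBall, dist_zero_right, Real.norm_eq_abs, abs_mul, abs_of_pos (by positivity)]
  change _ ≤ (3 / 4 : ℝ)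
  rw [inv_mul_eq_div, div_le_iff₀ (by positivity)]
  exact ht

lemma sb_nn {χ : V → ℝ} (h : ∀ x, 0 ≤ χ x) (c l t : ℝ) (x : V) : 0 ≤ sb χ c l t x :=
  mul_nonneg kT.nonneg (h x)

lemma th_sm (c l : ℝ) : ContDiff ℝ ∞ (fun t : ℝ => kT (l⁻¹ * (t - c))) :=
  kT.contDiff.comp (contDiff_const.mul (contDiff_id.sub contDiff_const))

lemma sb_test {χ : V → ℝ} (hχ : ContDiff ℝ ∞ χ) (hc : HasCompactSupport χ) {c l : ℝ} (hl : 0 < l)
    (h1 : 0 < c - l) (h2 : c + l < T) : Test T (sb χ c l) := by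
  have hsub : tsupport (fun w : ℝ × V => sb χ c l w.1 w.2) ⊆
      Icc (c - l) (c + l) ×ˢ tsupport χ := by
    refine closure_minimal (fun w hw => ?_) (isClosed_Icc.prod (isClosed_tsupport _))
    have hw' : sb χ c l w.1 w.2 ≠ 0 := hw
    refine ⟨?_, ?_⟩
    · by_contra hcon
      exact hw' (sb_t hl (fun h => hcon (Ioo_subset_Icc_self h)) _)
    · refine subset_tsupport _ fun h0 => hw' ?_
      unfold sb
      rw [h0, mul_zero]
  refine ⟨?_, ?_, ?_⟩
  · exact ((th_sm c l).comp contDiff_fst).mul (hχ.comp contDiff_snd)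
  · exact HasCompactSupport.of_support_subset_isCompact
      (isCompact_Icc.prod hc.isCompact) ((subset_tsupport _).trans hsub)
  · refine hsub.trans (prod_mono (fun t ht => ?_) (subset_univ _))
    exact ⟨h1.trans_le ht.1, ht.2.trans_lt h2⟩

/-- The defect of a slab where the velocity is bounded. -/
theorem slab (h : Turb 1 T E D G u p) {x₀ : V} {δ B M : ℝ} (hδ : 0 < δ) (hB : 0 ≤ B)
    (hM : 0 ≤ M) {χ : V → ℝ} (hχ : ContDiff ℝ ∞ χ) (hχ0 : ∀ x ∉ ball x₀ δ, χ x = 0)
    (hχn : ∀ x, 0 ≤ χ x) (hχ1 : ∀ x, |χ x| ≤ 1) (hχM : ∀ x j, |pd j χ x| ≤ M) {α β : ℝ}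
    (hα : 0 ≤ α) (hβ : β ≤ T)
    (hbd : ∀ τ ∈ G, τ ∈ Ioo α β → ∀ x ∈ ball x₀ δ, ‖u τ x‖ ≤ B) :
    ∃ C : ℝ, 0 < C ∧ ∀ c l : ℝ, 0 < l → α < c - l → c + l < β →
      Df G u p (sb χ c l) ≤ C * ∫ τ in Ioo (c - l) (c + l), K1 G u p τ := by
  obtain ⟨C, hC, hinc⟩ := inc h hδ hB hM hχ hχ0 hχ1 hχM
  obtain ⟨C', hC', hmaj⟩ := maj E δ
  have hcs : HasCompactSupport χ := hcsR hχ0
  have hTk : ContDiff ℝ ∞ (fun y : ℝ => kT y) := kT.contDiff
  have hTc : HasCompactSupport (fun y : ℝ => kT y) := kT.hasCompactSupport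
  obtain ⟨C0, hC0, H0⟩ := bdd_of_cs (hTk.continuous_deriv (by norm_cast)) hTc.deriv
  have hΦ : ContDiffOn ℝ ∞ (fun z : ℝ × V => (fun (_ : ℝ) x => χ x) z.1 z.2)
      (Ioo (-1) (T + 1) ×ˢ univ) := (hχ.comp contDiff_snd).contDiffOn
  obtain ⟨M1, hM1, hb⟩ := tbd hΦ hδ (fun _ _ x hx => hχ0 x hx) (s := 0) (t := T)
    (by norm_num) (by linarith)
  set r : ℝ → ℝ := fun t => ∫ x, ed 1 u p (fun (_ : ℝ) x => χ x) t x with hr
  set e : ℝ → ℝ := fun t => ∫ x, nsq (u t) x * χ x with he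
  -- the bound of the rest
  have hrb : ∀ t ∈ G, |r t| ≤ 8 * M1 * (C' * kk u p t) := by
    intro t ht
    have hut := h.spv ht
    have hpt := h.sp ht
    have hΦG : ContDiffOn ℝ ∞ (fun z : ℝ × V => (fun (_ : ℝ) x => χ x) z.1 z.2) (G ×ˢ univ) :=
      (hχ.comp contDiff_snd).contDiffOn
    have hz : ∀ z ∉ ball x₀ δ, ed 1 u p (fun (_ : ℝ) x => χ x) t z = 0 := fun z hz =>
      ed_zero 1 h.openG hΦG hδ (fun _ _ x hx => hχ0 x hx) ht hz
    have hMc := MM_cont hut.1 hpt.smooth.continuous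
    have h1 : |r t| ≤ ∫ x in ball x₀ δ, 8 * M1 * MM (u t) (p t) x := by
      rw [hr]
      beta_reduce
      rw [← ball_int_eq hz]
      refine abs_int_le (ballint (continuous_const.mul hMc) _ _) (ae_of_all _ fun x => ?_)
      have htI : t ∈ Icc 0 T := Ioo_subset_Icc_self (h.subG ht)
      obtain ⟨b0, b1, b2, b3⟩ := hb t htI x
      exact ed_abs hM1 b0 b1 b2 b3
    refine h1.trans ?_
    rw [integral_const_mul]
    exact mul_le_mul_of_nonneg_left (hmaj _ _ hut hpt (h.energy_le t ht) x₀) (by positivity)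
  refine ⟨6 * (C0 * C) + 8 * M1 * C' + 1, by positivity, fun c l hl h1 h2 => ?_⟩
  set φ := sb χ c l with hφ
  set J := Ioo (c - l) (c + l) with hJ
  have hT : Test T φ := sb_test hχ hcs hl (hα.trans_lt h1) (h2.trans_le hβ)
  set θ : ℝ → ℝ := fun t => kT (l⁻¹ * (t - c)) with hθ
  have hθs : ContDiff ℝ ∞ θ := th_sm c l
  have hθd : ∀ t, |deriv θ t| ≤ C0 * l⁻¹ := by
    intro t
    have g1 : HasDerivAt (fun s : ℝ => l⁻¹ * (s - c)) l⁻¹ t := by
      have := ((hasDerivAt_id t).sub_const c).const_mul l⁻¹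
      simpa using this
    have g2 : HasDerivAt (fun y : ℝ => kT y) (deriv (fun y : ℝ => kT y) (l⁻¹ * (t - c)))
        (l⁻¹ * (t - c)) := ((hTk.differentiable (by simp)) _).hasDerivAt
    have g3' := HasDerivAt.comp (h₂ := fun y : ℝ => kT y) (h := fun s : ℝ => l⁻¹ * (s - c)) t g2 g1
    have g3 : HasDerivAt θ (deriv (fun y : ℝ => kT y) (l⁻¹ * (t - c)) * l⁻¹) t := g3'
    rw [g3.deriv, abs_mul, abs_of_pos (show 0 < l⁻¹ by positivity)]
    gcongr
    exact H0 _
  -- the density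
  have hDD : ∀ t ∈ G, DD 1 u p φ t = deriv θ t * e t + θ t * r t := by
    intro t ht
    have hut := h.spv ht
    have htI : t ∈ Ioo (-1) (T + 1) := by
      have := h.subG ht
      exact ⟨by linarith [this.1], by linarith [this.2]⟩
    have hΦG : ContDiffOn ℝ ∞ (fun z : ℝ × V => (fun (_ : ℝ) x => χ x) z.1 z.2) (G ×ˢ univ) :=
      (hχ.comp contDiff_snd).contDiffOn
    have i1 : Integrable fun x => nsq (u t) x * χ x :=
      int_csR ((nsq_sm hut.1).continuous.mul hχ.continuous) (a := x₀) (R := δ)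
        fun z hz => by rw [hχ0 z hz, mul_zero]
    have i2 : Integrable fun x => ed 1 u p (fun (_ : ℝ) x => χ x) t x :=
      int_csR (sl_ct (ed_joint 1 h.openG h.smooth_u h.smooth_p hΦG).continuousOn ht)
        (a := x₀) (R := δ)
        fun z hz => ed_zero 1 h.openG hΦG hδ (fun _ _ x hx => hχ0 x hx) ht hz
    rw [DD_ed h hT ht, hr, he]
    beta_reduce
    rw [← integral_const_mul, ← integral_const_mul,
      ← integral_add (i1.const_mul _) (i2.const_mul _)]
    exact integral_congr_ae (ae_of_all _ fun x => ed_mul (u := u) (p := p) hΦ hθs htI x)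
  have hDD0 : ∀ t ∈ G \ (G ∩ J), DD 1 u p φ t = 0 := by
    intro t ht
    have htJ : t ∉ J := fun hc => ht.2 ⟨ht.1, hc⟩
    have hz : ∀ x, φ t x = 0 := fun x => sb_t hl htJ x
    exact DD_off (funext hz) fun x => dt_min (fun t x => sb_nn hχn c l t x) (hz x)
  have hGJm : MeasurableSet (G ∩ J) := h.openG.measurableSet.inter measurableSet_Ioo
  have hDf : Df G u p φ = ∫ t in G ∩ J, DD 1 u p φ t :=
    setIntegral_eq_of_subset_of_forall_diff_eq_zero h.openG.measurableSet inter_subset_left hDD0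
  -- measure and integrals over `J`
  have hJT : J ⊆ Ioo 0 T := fun t ht => ⟨by linarith [ht.1], by linarith [ht.2]⟩
  have hJab : J ⊆ Ioo α β := fun t ht => ⟨by linarith [ht.1], by linarith [ht.2]⟩
  have haeJ : (G ∩ J : Set ℝ) =ᵐ[volume] J := by
    refine (ae_eq_set).2 ⟨?_, ?_⟩
    · have : (G ∩ J) \ J = ∅ := by
        ext τ
        simp only [Set.mem_sdiff, mem_inter_iff, mem_empty_iff_false, iff_false]
        tauto
      rw [this]
      exact measure_empty
    · refine measure_mono_null (fun τ hτ => ?_) h.fullG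
      exact ⟨hJT hτ.1, fun hc => hτ.2 ⟨hc, hτ.1⟩⟩
  have hvol : volume (G ∩ J) = ENNReal.ofReal (2 * l) := by
    rw [measure_congr haeJ, hJ, Real.volume_Ioo]
    congr 1
    ring
  set κ : ℝ := ∫ τ in J, K1 G u p τ with hκ
  have hκ' : ∫ τ in G ∩ J, kk u p τ = κ := by
    rw [hκ, ← setIntegral_congr_set haeJ]
    exact setIntegral_congr_fun hGJm fun t ht => (K1_in ht.1).symm
  have hkI : IntegrableOn (kk u p) (G ∩ J) := (kk_int h).mono_set inter_subset_left
  have hκ0 : 0 ≤ κ := integral_nonneg fun t => K1_nn G u p t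
  -- a good time
  obtain ⟨s, hs, hsle⟩ := exists_le_setAverage (μ := volume) (s := G ∩ J) (f := kk u p)
    (by rw [hvol]; exact (ENNReal.ofReal_pos.2 (by linarith)).ne')
    (by rw [hvol]; exact ENNReal.ofReal_ne_top) hkI
  have hsl : 2 * l * kk u p s ≤ κ := by
    rw [setAverage_eq, hκ', Measure.real, hvol, ENNReal.toReal_ofReal (by linarith),
      smul_eq_mul] at hsle
    calc 2 * l * kk u p s ≤ 2 * l * ((2 * l)⁻¹ * κ) := by gcongr
      _ = κ := by field_simp
  -- the derivative of the cut-off has mean zero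
  have hθ0 : ∫ t in G ∩ J, deriv θ t = 0 := by
    rw [setIntegral_congr_set haeJ, hJ, ← integral_Ioc_eq_integral_Ioo,
      ← intervalIntegral.integral_of_le (by linarith),
      intervalIntegral.integral_deriv_eq_sub (fun t _ => (hθs.differentiable (by simp)) t)
        ((hθs.continuous_deriv (by norm_cast)).intervalIntegrable _ _)]
    have a1 : θ (c + l) = 0 := by
      rw [hθ]
      beta_reduce
      refine kT.zero_of_le_dist ?_
      rw [dist_zero_right, Real.norm_eq_abs]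
      change (1 : ℝ) ≤ _
      rw [show l⁻¹ * (c + l - c) = 1 by field_simp; ring, abs_one]
    have a2 : θ (c - l) = 0 := by
      rw [hθ]
      beta_reduce
      refine kT.zero_of_le_dist ?_
      rw [dist_zero_right, Real.norm_eq_abs]
      change (1 : ℝ) ≤ _
      rw [show l⁻¹ * (c - l - c) = -1 by field_simp; ring, abs_neg, abs_one]
    rw [a1, a2, sub_zero]
  have hθI : IntegrableOn (deriv θ) (G ∩ J) := by
    refine IntegrableOn.mono_set ?_ (inter_subset_right.trans Ioo_subset_Icc_self)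
    exact (hθs.continuous_deriv (by norm_cast)).continuousOn.integrableOn_compact isCompact_Icc
  have hDDI : IntegrableOn (DD 1 u p φ) (G ∩ J) := (DD_int h hT).mono_set inter_subset_left
  have hDf2 : Df G u p φ = ∫ t in G ∩ J, (DD 1 u p φ t - e s * deriv θ t) := by
    rw [integral_sub hDDI (hθI.const_mul (e s)), integral_const_mul, hθ0, mul_zero, sub_zero, hDf]
  have hpt : ∀ t ∈ G ∩ J, DD 1 u p φ t - e s * deriv θ t
      ≤ C0 * l⁻¹ * (C * (2 * κ + 2 * l * kk u p t)) + 8 * M1 * (C' * kk u p t) := by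
    intro t ht
    have hkt : 0 ≤ kk u p t := zero_le_one.trans (kk_pos u p t)
    have hks : 0 ≤ kk u p s := zero_le_one.trans (kk_pos u p s)
    have hK1i : ∀ a b : ℝ, a ∈ J → b ∈ J → ∫ τ in Ioo a b, K1 G u p τ ≤ κ := by
      intro a b ha hb
      refine setIntegral_mono_set (K1_int h).integrableOn (ae_of_all _ fun t => K1_nn G u p t)
        (HasSubset.Subset.eventuallyLE ?_)
      exact fun τ hτ => ⟨ha.1.trans hτ.1, hτ.2.trans hb.2⟩
    have hinc' : |e t - e s| ≤ C * (2 * κ + 2 * l * kk u p t) := by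
      rcases le_total s t with hst | hst
      · have g := hinc s hs.1 t ht.1 hst fun τ hτ hτI =>
          hbd τ hτ (hJab ⟨hs.2.1.trans_le hτI.1, hτI.2.trans_lt ht.2.2⟩)
        refine g.trans (mul_le_mul_of_nonneg_left ?_ hC.le)
        have g1 := hK1i s t hs.2 ht.2
        have g2 : t - s ≤ 2 * l := by linarith [hs.2.1, ht.2.2]
        have g3 : (t - s) * (kk u p s + kk u p t) ≤ 2 * l * (kk u p s + kk u p t) :=
          mul_le_mul_of_nonneg_right g2 (by linarith)
        linarith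
      · have g := hinc t ht.1 s hs.1 hst fun τ hτ hτI =>
          hbd τ hτ (hJab ⟨ht.2.1.trans_le hτI.1, hτI.2.trans_lt hs.2.2⟩)
        rw [abs_sub_comm]
        refine g.trans (mul_le_mul_of_nonneg_left ?_ hC.le)
        have g1 := hK1i t s ht.2 hs.2
        have g2 : s - t ≤ 2 * l := by linarith [ht.2.1, hs.2.2]
        have g3 : (s - t) * (kk u p t + kk u p s) ≤ 2 * l * (kk u p t + kk u p s) :=
          mul_le_mul_of_nonneg_right g2 (by linarith)
        linarith
    rw [hDD t ht.1]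
    have e1 : deriv θ t * e t + θ t * r t - e s * deriv θ t
        = deriv θ t * (e t - e s) + θ t * r t := by ring
    rw [e1]
    have e2 : deriv θ t * (e t - e s) ≤ C0 * l⁻¹ * (C * (2 * κ + 2 * l * kk u p t)) := by
      calc deriv θ t * (e t - e s) ≤ |deriv θ t| * |e t - e s| := by
            rw [← abs_mul]
            exact le_abs_self _
        _ ≤ _ := mul_le_mul (hθd t) hinc' (abs_nonneg _) (by positivity)
    have e3 : θ t * r t ≤ 8 * M1 * (C' * kk u p t) := by
      have g1 : 0 ≤ θ t := kT.nonneg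
      have g2 : θ t ≤ 1 := kT.le_one
      calc θ t * r t ≤ θ t * |r t| := mul_le_mul_of_nonneg_left (le_abs_self _) g1
        _ ≤ 1 * |r t| := mul_le_mul_of_nonneg_right g2 (abs_nonneg _)
        _ ≤ _ := by
            rw [one_mul]
            exact hrb t ht.1
    linarith
  have hcI : IntegrableOn (fun _ : ℝ => C0 * l⁻¹ * (C * (2 * κ))) (G ∩ J) :=
    integrableOn_const (by rw [hvol]; exact ENNReal.ofReal_ne_top)
  have hbI : IntegrableOn (fun t => C0 * l⁻¹ * (C * (2 * κ + 2 * l * kk u p t))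
      + 8 * M1 * (C' * kk u p t)) (G ∩ J) := by
    have : (fun t => C0 * l⁻¹ * (C * (2 * κ + 2 * l * kk u p t)) + 8 * M1 * (C' * kk u p t))
        = fun t => C0 * l⁻¹ * (C * (2 * κ)) + (C0 * l⁻¹ * C * (2 * l) + 8 * M1 * C') * kk u p t := by
      funext t
      ring
    rw [this]
    exact hcI.add (hkI.const_mul _)
  rw [hDf2]
  refine (setIntegral_mono_on (hDDI.sub (hθI.const_mul (e s))) hbI hGJm hpt).trans ?_
  have e4 : ∫ t in G ∩ J, (C0 * l⁻¹ * (C * (2 * κ + 2 * l * kk u p t))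
      + 8 * M1 * (C' * kk u p t))
      = C0 * l⁻¹ * (C * (2 * κ)) * (2 * l) + (C0 * l⁻¹ * C * (2 * l) + 8 * M1 * C') * κ := by
    have : (fun t => C0 * l⁻¹ * (C * (2 * κ + 2 * l * kk u p t)) + 8 * M1 * (C' * kk u p t))
        = fun t => C0 * l⁻¹ * (C * (2 * κ)) + (C0 * l⁻¹ * C * (2 * l) + 8 * M1 * C') * kk u p t := by
      funext t
      ring
    rw [this, integral_add hcI (hkI.const_mul _), setIntegral_const,
      integral_const_mul (C0 * l⁻¹ * C * (2 * l) + 8 * M1 * C') (kk u p), hκ',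
      Measure.real, hvol, ENNReal.toReal_ofReal (by linarith), smul_eq_mul]
    ring
  rw [e4]
  have e5 : C0 * l⁻¹ * (C * (2 * κ)) * (2 * l) + (C0 * l⁻¹ * C * (2 * l) + 8 * M1 * C') * κ
      = (6 * (C0 * C) + 8 * M1 * C') * κ := by
    field_simp
    ring
  rw [e5]
  nlinarith

/-- No energy is lost near regular points. -/
theorem nul_nsing (h : Turb 1 T E D G u p) :
    Nul T G u p {z | z.1 ∈ Ioo 0 T ∧ ¬ SingPt G u z.1 z.2} := by
  refine Nul.of_local fun z hz => ?_
  obtain ⟨⟨hz0, hzT⟩, hns⟩ := hz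
  unfold SingPt at hns
  push Not at hns
  obtain ⟨δ₀, hδ₀, B, hB⟩ := hns
  set δ : ℝ := min δ₀ (min z.1 (T - z.1)) with hδ
  have hδp : 0 < δ := lt_min hδ₀ (lt_min hz0 (by linarith))
  have hδ1 : δ ≤ δ₀ := min_le_left _ _
  have hδ2 : δ ≤ z.1 := (min_le_right _ _).trans (min_le_left _ _)
  have hδ3 : δ ≤ T - z.1 := (min_le_right _ _).trans (min_le_right _ _)
  set χ : V → ℝ := fun x => kap (δ⁻¹ • (x - z.2)) with hχd
  have hχ : ContDiff ℝ ∞ χ := kap.contDiff.comp ((contDiff_id.sub contDiff_const).const_smul _)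
  have hχ0 : ∀ x ∉ ball z.2 δ, χ x = 0 := fun x hx => by
    rw [hχd]
    beta_reduce
    rw [kap.zero_of_le_dist]
    rw [dist_zero_right, norm_smul, Real.norm_eq_abs, abs_of_pos (by positivity)]
    change (1 : ℝ) ≤ _
    rw [inv_mul_eq_div, le_div_iff₀ hδp, one_mul]
    rw [mem_ball, dist_eq_norm, not_lt] at hx
    exact hx
  have hχn : ∀ x, 0 ≤ χ x := fun x => kap.nonneg
  have hχ1 : ∀ x, |χ x| ≤ 1 := fun x => by
    rw [abs_of_nonneg (hχn x)]
    exact kap.le_one
  have hcs : HasCompactSupport χ := hcsR hχ0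
  have H1 := fun j => bdd_of_cs (sm_pd hχ j).continuous (cs_pd hcs j)
  choose C1 hC1 H1 using H1
  have hS1 : ∀ j, C1 j ≤ ∑ j, C1 j := fun j =>
    Finset.single_le_sum (f := C1) (fun i _ => hC1 i) (Finset.mem_univ j)
  have hχM : ∀ x j, |pd j χ x| ≤ ∑ j, C1 j := fun x j => (H1 j x).trans (hS1 j)
  obtain ⟨C, hC, hsl⟩ := slab h hδp (le_max_right B 0) (Finset.sum_nonneg fun i _ => hC1 i)
    hχ hχ0 hχn hχ1 hχM (α := z.1 - δ) (β := z.1 + δ) (by linarith) (by linarith)
    fun τ hτ hτI x hx => by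
      refine (hB τ hτ ?_ x (ball_subset_ball hδ1 hx)).trans (le_max_left _ _)
      rw [abs_lt]
      constructor
      · linarith [hτI.1]
      · linarith [hτI.2]
  have hopen := open_box z.1 z.2 (1 / 2 * δ) (3 / 4 * δ)
  refine ⟨_, hopen.mem_nhds ?_, ?_⟩
  · simp only [mem_setOf_eq, sub_self, abs_zero, norm_zero]
    constructor <;> positivity
  -- the times which are not regular
  set Z : Set ℝ := Icc (z.1 - 1 / 2 * δ) (z.1 + 1 / 2 * δ) \ G with hZ
  have hZc : IsCompact Z := isCompact_Icc.diff h.openG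
  have hmain : Nul T G u p {w | w.1 ∈ Z ∧ ‖w.2 - z.2‖ < 3 / 4 * δ} := by
    intro ε hε
    obtain ⟨l, hl, hld, hsum⟩ := grid (K1_int h) (K1_nn G u p) hZc
      (fun t ht => indicator_of_notMem ht.2 _) (ε := ε / C) (d := δ / 4) (by positivity)
      (by positivity)
    have hin : ∀ j : Ix Z l, z.1 - δ < (j : ℤ) * l - l ∧ (j : ℤ) * l + l < z.1 + δ := by
      intro j
      obtain ⟨s, hs, hsj⟩ := j.2
      rw [abs_le] at hsj
      have := hs.1
      constructor
      · linarith [this.1, hsj.2]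
      · linarith [this.2, hsj.1]
    refine ⟨Ix Z l, inferInstance, fun j => sb χ ((j : ℤ) * l) l, fun j => ?_, fun j => ?_,
      ?_, ?_⟩
    · exact sb_test hχ hcs hl (by linarith [(hin j).1]) (by linarith [(hin j).2])
    · exact sb_nn hχn _ _
    · rintro w ⟨hw1, hw2⟩
      obtain ⟨j, hj, hwj⟩ := Ix_cov hl hw1
      refine ⟨⟨j, hj⟩, ?_⟩
      have hop2 := open_box ((j : ℤ) * l) z.2 (3 / 4 * l) (3 / 4 * δ)
      filter_upwards [hop2.mem_nhds ⟨hwj.trans_lt (by linarith), hw2⟩] with v hv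
      rw [sb_one hl hv.1.le]
      refine le_of_eq ?_
      rw [hχd]
      beta_reduce
      rw [kap.one_of_mem_closedBall]
      rw [mem_closedBall, dist_zero_right, norm_smul, Real.norm_eq_abs,
        abs_of_pos (by positivity)]
      change _ ≤ (3 / 4 : ℝ)
      rw [inv_mul_eq_div, div_le_iff₀ hδp]
      exact hv.2.le
    · have h1 : ∀ j : Ix Z l, ENNReal.ofReal (Df G u p (sb χ ((j : ℤ) * l) l))
          ≤ ENNReal.ofReal C * ENNReal.ofReal
            (∫ t in Ioo ((j : ℤ) * l - l) ((j : ℤ) * l + l), K1 G u p t) := fun j => by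
        rw [← ENNReal.ofReal_mul hC.le]
        exact ENNReal.ofReal_le_ofReal (hsl _ _ hl (hin j).1 (hin j).2)
      refine (ENNReal.tsum_le_tsum h1).trans ?_
      rw [ENNReal.tsum_mul_left]
      refine (mul_le_mul_right hsum _).trans ?_
      rw [← ENNReal.ofReal_mul hC.le]
      exact ENNReal.ofReal_le_ofReal (le_of_eq (by field_simp))
  refine ((nul_reg h).union hmain).mono ?_
  rintro w ⟨-, hw1, hw2⟩
  by_cases hwG : w.1 ∈ G
  · exact Or.inl hwG
  · right
    refine ⟨⟨?_, hwG⟩, hw2⟩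
    have := abs_lt.1 hw1
    exact ⟨by linarith [this.1], by linarith [this.2]⟩

end

end Pool.Agent.Q62.SD
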