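import Pool.Agent.Q62.EL.Ker2
import Pool.Agent.Q62.SD.Reg

/-!
From the local balance of energy to the global balance (helper62).
-/

set_option autoImplicit false

open MeasureTheory Set Metric Filter Topology
open scoped ContDiff ENNReal

namespace Pool.Agent.Q62.SD

open H459R3.NS W221.NS Pool.Agent.Y8 Pool.Agent.W583.MD

section

variable {T E D : ℝ} {G : Set ℝ} {u : ℝ → V → V} {p : ℝ → V → ℝ}

/-- Equality in the local energy inequality. -/
theorem leq (h : Turb 1 T E D G u p) {w : V → ℝ} (hw : ContDiff ℝ ∞ w) {a : V} {R : ℝ}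
    (hR : 0 < R) (hw0 : ∀ x ∉ ball a R, w x = 0) (hwn : ∀ x, 0 ≤ w x) {s t : ℝ} (hs : s ∈ G)
    (ht : t ∈ G) (hst : s ≤ t)
    (h0 : ∀ φ : ℝ → V → ℝ, Test T φ → (∀ t x, 0 ≤ φ t x) → Sp φ ⊆ Ioo s t ×ˢ univ →
      Df G u p φ = 0) :
    (∫ z, nsq (u t) z * w z) - (∫ z, nsq (u s) z * w z)
      = ∫ τ in Ioo s t, DD 1 u p (fun _ => w) τ := by
  have hΦ : ContDiffOn ℝ ∞ (fun z : ℝ × V => (fun (_ : ℝ) x => w x) z.1 z.2)
      (Ioo (-1) (T + 1) ×ˢ univ) := (hw.comp contDiff_snd).contDiffOn
  have hΦG : ContDiffOn ℝ ∞ (fun z : ℝ × V => (fun (_ : ℝ) x => w x) z.1 z.2) (G ×ˢ univ) :=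
    (hw.comp contDiff_snd).contDiffOn
  have hsT := h.subG hs
  have htT := h.subG ht
  have hlei := lei Pool.Agent.Y494.NS.t_TCUT h hΦ hR (fun _ _ x hx => hw0 x hx) hs ht
    (by linarith [hsT.1]) hst (by linarith [htT.2]) (fun _ _ z => hwn z)
  refine le_antisymm hlei.2 ?_
  have hae := aeG h hs ht
  have hen : ∀ τ ∈ G, HasDerivAt (fun s => ∫ z, nsq (u s) z * w z) (DD 1 u p (fun _ => w) τ) τ :=
    fun τ hτ => en_id h.openG h.smooth_u h.smooth_p h.divfree
      (fun t ht x i => by
        have := h.momentum t ht x i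
        rwa [one_mul] at this) (Φ := fun _ => w) hΦG hR (fun _ _ x hx => hw0 x hx) hτ
  have hec : ContinuousOn (fun s => ∫ z, nsq (u s) z * w z) G := fun τ hτ =>
    (hen τ hτ).continuousAt.continuousWithinAt
  obtain ⟨M, hM, hMb⟩ := bdd_of_cs hw.continuous (hcsR hw0)
  have hei : IntegrableOn (fun s => ∫ z, nsq (u s) z * w z) G := by
    refine tint h (F := fun t x => nsq (u t) x * w x) h.openG subset_rfl ?_ (a := a) (R := R)
      (C := M) (fun t ht z hz => by rw [hw0 z hz, mul_zero]) h.openG.measurableSet subset_rfl hM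
      (fun t ht x => ?_)
    · exact (nsq_joint h.smooth_u).continuousOn.mul
        (hw.continuous.comp continuous_snd).continuousOn
    · rw [abs_mul, abs_of_nonneg (nsq_nn _ _), mul_comm]
      refine mul_le_mul (hMb x) ?_ (nsq_nn _ _) hM
      unfold MM
      have h1 := gsq_nn (u t) x
      have h2 : 0 ≤ √(nsq (u t) x) := Real.sqrt_nonneg _
      have h3 : 0 ≤ √(nsq (u t) x) ^ 3 := by positivity
      have h4 : 0 ≤ |p t x| * √(nsq (u t) x) := by positivity
      have h5 := abs_nonneg (p t x)
      linarith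
  have hri : IntegrableOn (DD 1 u p (fun _ => w)) (Ioo s t ∩ G) :=
    hlei.1.mono_set inter_subset_left
  have key := Pool.Agent.Y494.NS.t_TCUT G s t (fun τ => -∫ z, nsq (u τ) z * w z)
    (fun τ => -DD 1 u p (fun _ => w) τ) h.openG hs ht hst hec.neg
    (hei.mono_set inter_subset_right).neg hri.neg ?_
  · rw [integral_neg, setIntegral_congr_set hae] at key
    linarith
  · intro θ hθ hθc hθt hθ0
    have htest : Test T (fun τ x => θ τ * w x) :=
      test_mul (Φ := fun _ => w) hΦ (fun _ _ x hx => hw0 x hx) (by linarith [hsT.1])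
        (by linarith [htT.2]) hsT.1 htT.2 hθ hθc hθt
    have hpos : ∀ τ x, 0 ≤ θ τ * w x := fun τ x => mul_nonneg (hθ0 τ) (hwn x)
    have hSp : Sp (fun τ x => θ τ * w x) ⊆ Ioo s t ×ˢ univ := by
      have h1 : Sp (fun τ x => θ τ * w x) ⊆ tsupport θ ×ˢ univ := by
        refine closure_minimal (fun z hz => ?_) ((isClosed_tsupport θ).prod isClosed_univ)
        refine ⟨subset_tsupport θ fun hc => hz ?_, mem_univ _⟩
        beta_reduce
        rw [hc, zero_mul]
      exact h1.trans (prod_mono hθt subset_rfl)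
    have hDf := h0 _ htest hpos hSp
    have hDD0 : ∀ τ ∈ G \ (Ioo s t ∩ G), DD 1 u p (fun τ x => θ τ * w x) τ = 0 := by
      intro τ hτ
      have hτI : τ ∉ Ioo s t := fun h' => hτ.2 ⟨h', hτ.1⟩
      have e0 : θ τ = 0 := (th_near hθt hτI).self_of_nhds
      have hz : ∀ x, θ τ * w x = 0 := fun x => by rw [e0, zero_mul]
      exact DD_off (φ := fun τ x => θ τ * w x) (funext hz) fun x => dt_min hpos (hz x)
    have hDD : ∀ τ ∈ G, DD 1 u p (fun τ x => θ τ * w x) τ
        = deriv θ τ * (∫ z, nsq (u τ) z * w z) + θ τ * DD 1 u p (fun _ => w) τ := by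
      intro τ hτ
      have hut := h.spv hτ
      have htI : τ ∈ Ioo (-1) (T + 1) := by
        have := h.subG hτ
        exact ⟨by linarith [this.1], by linarith [this.2]⟩
      have i1 : Integrable fun x => nsq (u τ) x * w x :=
        int_csR ((nsq_sm hut.1).continuous.mul hw.continuous) (a := a) (R := R)
          fun z hz => by rw [hw0 z hz, mul_zero]
      have i2 : Integrable fun x => ed 1 u p (fun (_ : ℝ) x => w x) τ x :=
        int_csR (sl_ct (ed_joint 1 h.openG h.smooth_u h.smooth_p hΦG).continuousOn hτ)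
          (a := a) (R := R)
          fun z hz => ed_zero 1 h.openG hΦG hR (fun _ _ x hx => hw0 x hx) hτ hz
      have e1 : DD 1 u p (fun _ => w) τ = ∫ x, ed 1 u p (fun (_ : ℝ) x => w x) τ x :=
        DD_eq 1 h.openG h.smooth_u h.smooth_p (φ := fun _ => w) hΦG hR
          (fun _ _ x hx => hw0 x hx) hτ
      rw [DD_ed h htest hτ, e1, ← integral_const_mul, ← integral_const_mul,
        ← integral_add (i1.const_mul _) (i2.const_mul _)]
      exact integral_congr_ae (ae_of_all _ fun x =>
        ed_mul (u := u) (p := p) (Φ := fun (_ : ℝ) x => w x) hΦ hθ htI x)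
    unfold Df at hDf
    rw [setIntegral_eq_of_subset_of_forall_diff_eq_zero h.openG.measurableSet
      (inter_subset_right : Ioo s t ∩ G ⊆ G) hDD0] at hDf
    have e2 : ∫ τ in Ioo s t ∩ G, (deriv θ τ * -(∫ z, nsq (u τ) z * w z)
        + θ τ * -DD 1 u p (fun _ => w) τ)
        = -∫ τ in Ioo s t ∩ G, DD 1 u p (fun τ x => θ τ * w x) τ := by
      rw [← integral_neg]
      refine setIntegral_congr_fun (measurableSet_Ioo.inter h.openG.measurableSet) fun τ hτ => ?_
      beta_reduce
      rw [hDD τ hτ.2]
      ring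
    rw [e2, hDf, neg_zero]

end

/-! ### A partition of unity -/

/-- The mollified indicator function of the period cell. -/
noncomputable def wp (x : V) : ℝ := ∫ z, th z * cube.indicator (fun _ => (1 : ℝ)) (x - z)

lemma wp_sm : ContDiff ℝ ∞ wp := by
  have hloc : LocallyIntegrable (cube.indicator fun _ : V => (1 : ℝ)) := by
    refine Integrable.locallyIntegrable ?_
    have hm : MeasurableSet (cube : Set V) := isCompact_Icc.isClosed.measurableSet
    rw [integrable_indicator_iff hm]
    exact continuous_const.continuousOn.integrableOn_compact isCompact_Icc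
  exact th_hcs.contDiff_convolution_left (ContinuousLinearMap.mul ℝ ℝ) Pool.Agent.Y8.th_sm hloc

lemma wp_nn (x : V) : 0 ≤ wp x :=
  integral_nonneg fun z => mul_nonneg (th_nn z) (indicator_nonneg (fun _ _ => zero_le_one) _)

lemma wp_zero {x : V} (hx : x ∉ ball (0 : V) 3) : wp x = 0 := by
  unfold wp
  rw [integral_eq_zero_of_ae]
  refine ae_of_all _ fun z => ?_
  by_cases hz : z ∈ ball (0 : V) 1
  · have hxz : x - z ∉ cube := by
      intro hc
      apply hx
      have h1 : ‖x - z‖ ≤ 1 := by
        rw [pi_norm_le_iff_of_nonneg zero_le_one]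
        intro i
        have a1 := hc.1 i
        have a2 := hc.2 i
        simp only [Pi.sub_apply] at a1 a2
        rw [Pi.sub_apply, Real.norm_eq_abs, abs_le]
        constructor
        · have : (0 : ℝ) ≤ x i - z i := a1
          linarith
        · exact a2
      rw [mem_ball, dist_zero_right] at hz ⊢
      have h2 : ‖x‖ ≤ ‖x - z‖ + ‖z‖ := by
        have := norm_add_le (x - z) z
        rwa [sub_add_cancel] at this
      linarith
    simp only [Pi.zero_apply]
    rw [indicator_of_notMem hxz, mul_zero]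
  · simp only [Pi.zero_apply]
    rw [th_z hz, zero_mul]

/-- The integral of a periodic function against `wp`. -/
lemma wp_int {f : V → ℝ} (hf : Continuous f) (hp : Per f) :
    ∫ x, f x * wp x = ∫ x in cube, f x := by
  have hcl : IsClosed (cube : Set V) := isCompact_Icc.isClosed
  set K : Set (V × V) := {q | q.1 - q.2 ∈ cube} ∩ (univ ×ˢ closedBall (0 : V) 1) with hK
  have hKc : IsCompact K := by
    have hsub : K ⊆ closedBall (0 : V) 2 ×ˢ closedBall (0 : V) 1 := by
      rintro ⟨x, z⟩ ⟨hq, -, hz⟩
      refine ⟨?_, hz⟩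
      have h1 : ‖x - z‖ ≤ 1 := by
        rw [pi_norm_le_iff_of_nonneg zero_le_one]
        intro i
        have a1 := hq.1 i
        have a2 := hq.2 i
        simp only [Pi.sub_apply] at a1 a2
        rw [Pi.sub_apply, Real.norm_eq_abs, abs_le]
        constructor
        · have : (0 : ℝ) ≤ x i - z i := a1
          linarith
        · exact a2
      rw [mem_closedBall, dist_zero_right] at hz ⊢
      have h2 : ‖x‖ ≤ ‖x - z‖ + ‖z‖ := by
        have := norm_add_le (x - z) z
        rwa [sub_add_cancel] at this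
      have h3 : ‖z‖ ≤ 1 := hz
      change ‖x‖ ≤ 2
      linarith
    refine ((isCompact_closedBall _ _).prod (isCompact_closedBall _ _)).of_isClosed_subset ?_ hsub
    exact (hcl.preimage (continuous_fst.sub continuous_snd)).inter
      (isClosed_univ.prod isClosed_closedBall)
  have e1 : (Function.uncurry fun x z : V => f x * (th z *
      cube.indicator (fun _ => (1 : ℝ)) (x - z)))
      = K.indicator (fun q : V × V => f q.1 * th q.2) := by
    funext q
    obtain ⟨x, z⟩ := q
    by_cases hq : ((x, z) : V × V) ∈ K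
    · rw [indicator_of_mem hq]
      have : x - z ∈ (cube : Set V) := hq.1
      simp only [Function.uncurry_apply_pair]
      rw [indicator_of_mem this, mul_one]
    · rw [indicator_of_notMem hq]
      simp only [Function.uncurry_apply_pair]
      by_cases hxz : x - z ∈ (cube : Set V)
      · have hz : z ∉ ball (0 : V) 1 := fun hc => hq ⟨hxz, mem_univ _, ball_subset_closedBall hc⟩
        rw [th_z hz, zero_mul, mul_zero]
      · rw [indicator_of_notMem hxz, mul_zero, mul_zero]
  have hI : Integrable (Function.uncurry fun x z : V => f x * (th z *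
      cube.indicator (fun _ => (1 : ℝ)) (x - z))) (volume.prod volume) := by
    rw [e1, integrable_indicator_iff hKc.isClosed.measurableSet]
    refine ContinuousOn.integrableOn_compact hKc (Continuous.continuousOn ?_)
    exact (hf.comp continuous_fst).mul (Pool.Agent.Y8.th_sm.continuous.comp continuous_snd)
  have e2 : ∀ x, f x * wp x = ∫ z, f x * (th z * cube.indicator (fun _ => (1 : ℝ)) (x - z)) :=
    fun x => by
      unfold wp
      rw [integral_const_mul]
  simp only [e2]
  rw [integral_integral_swap hI]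
  have e3 : ∀ z : V, ∫ x, f x * (th z * cube.indicator (fun _ => (1 : ℝ)) (x - z))
      = th z * ∫ x in cube, f x := by
    intro z
    have e4 : ∀ x, f x * (th z * cube.indicator (fun _ => (1 : ℝ)) (x - z))
        = th z * (fun y => cube.indicator (fun y => f (z + y)) y) (x - z) := by
      intro x
      beta_reduce
      by_cases hxz : x - z ∈ (cube : Set V)
      · rw [indicator_of_mem hxz, indicator_of_mem hxz, mul_one, add_sub_cancel]
        ring
      · rw [indicator_of_notMem hxz, indicator_of_notMem hxz]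
        ring
    simp only [e4]
    rw [integral_const_mul, integral_sub_right_eq_self
      (fun y => cube.indicator (fun y => f (z + y)) y) z, integral_indicator hcl.measurableSet,
      Pool.Agent.Q62.EL.int_shift hp z]
  simp only [e3]
  rw [integral_mul_const, th_i1, one_mul]

/-- Integration by parts against `wp`. -/
lemma wp_pd {f : V → ℝ} (hf : ContDiff ℝ ∞ f) (hp : Per f) (j : Fin 3) :
    ∫ x, f x * pd j wp x = 0 := by
  have hcs : HasCompactSupport wp := hcsR fun x hx => wp_zero hx
  have h1 := Z_pd (hf.mul wp_sm) (hcs.mul_left) j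
  have e : (pd j fun x => f x * wp x) = fun x => f x * pd j wp x + pd j f x * wp x := by
    funext x
    exact pd_mul' hf wp_sm j x
  have i1 : Integrable fun x => f x * pd j wp x :=
    int_cs (hf.continuous.mul (sm_pd wp_sm j).continuous) ((cs_pd hcs j).mul_left)
  have i2 : Integrable fun x => pd j f x * wp x :=
    int_cs ((sm_pd hf j).continuous.mul wp_sm.continuous) hcs.mul_left
  have h2 := h1.2
  change ∫ x, (pd j fun x => f x * wp x) x = 0 at h2
  rw [e] at h2
  beta_reduce at h2
  rw [integral_add i1 i2, wp_int (sm_pd hf j).continuous (pd_per hp j),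
    integral_pd (hf.of_le (by norm_cast)) hp j, add_zero] at h2
  exact h2

lemma wp_pd2 {f : V → ℝ} (hf : ContDiff ℝ ∞ f) (hp : Per f) (j : Fin 3) :
    ∫ x, f x * pd j (pd j wp) x = 0 := by
  have hcs : HasCompactSupport wp := hcsR fun x hx => wp_zero hx
  have hcs1 := cs_pd hcs j
  have hs1 := sm_pd wp_sm j
  have h1 := Z_pd (hf.mul hs1) (hcs1.mul_left) j
  have e : (pd j fun x => f x * pd j wp x)
      = fun x => f x * pd j (pd j wp) x + pd j f x * pd j wp x := by
    funext x
    exact pd_mul' hf hs1 j x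
  have i1 : Integrable fun x => f x * pd j (pd j wp) x :=
    int_cs (hf.continuous.mul (sm_pd hs1 j).continuous) ((cs_pd hcs1 j).mul_left)
  have i2 : Integrable fun x => pd j f x * pd j wp x :=
    int_cs ((sm_pd hf j).continuous.mul hs1.continuous) hcs1.mul_left
  have h2 := h1.2
  change ∫ x, (pd j fun x => f x * pd j wp x) x = 0 at h2
  rw [e] at h2
  beta_reduce at h2
  rw [integral_add i1 i2, wp_pd (sm_pd hf j) (pd_per hp j) j, add_zero] at h2
  exact h2

section

variable {T E D : ℝ} {G : Set ℝ} {u : ℝ → V → V} {p : ℝ → V → ℝ}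

/-- The balance of energy between two regular times. -/
theorem bal (h : Turb 1 T E D G u p) {s t : ℝ} (hs : s ∈ G)
    (ht : t ∈ G) (hst : s ≤ t)
    (h0 : ∀ φ : ℝ → V → ℝ, Test T φ → (∀ t x, 0 ≤ φ t x) → Sp φ ⊆ Ioo s t ×ˢ univ →
      Df G u p φ = 0) :
    energy (u t) + 2 * ∫ τ in Ioo s t, enstrophy (u τ) = energy (u s) := by
  have hcs : HasCompactSupport wp := hcsR fun x hx => wp_zero hx
  have h1 := leq h wp_sm (a := 0) (R := 3) (by norm_num) (fun x hx => wp_zero hx) wp_nn hs ht hst h0
  have hut := h.spv ht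
  have hus := h.spv hs
  rw [wp_int (nsq_sm hut.1).continuous (nsq_per hut.2),
    wp_int (nsq_sm hus.1).continuous (nsq_per hus.2), ← energy_eq hut.1, ← energy_eq hus.1] at h1
  have hDD : ∀ τ ∈ G, DD 1 u p (fun _ => wp) τ = -2 * enstrophy (u τ) := by
    intro τ hτ
    have hu := h.spv hτ
    have hp := h.sp hτ
    have hn := nsq_sm hu.1
    have hnp := nsq_per hu.2
    have e1 : ∫ x, gsq (u τ) x * wp x = enstrophy (u τ) := by
      rw [wp_int (gsq_sm hu.1).continuous (gsq_per hu.2), enst_eq hu.1]
    have e2 : ∫ x, nsq (u τ) x * (deriv (fun _ : ℝ => wp x) τ + 1 * lap wp x) = 0 := by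
      have g1 : ∀ x, nsq (u τ) x * (deriv (fun _ : ℝ => wp x) τ + 1 * lap wp x)
          = ∑ j, nsq (u τ) x * pd j (pd j wp) x := by
        intro x
        rw [deriv_const, zero_add, one_mul]
        unfold lap
        rw [Finset.mul_sum]
      have g2 : ∀ j, Integrable fun x => nsq (u τ) x * pd j (pd j wp) x := fun j =>
        int_cs (hn.continuous.mul (sm_pd (sm_pd wp_sm j) j).continuous)
          ((cs_pd (cs_pd hcs j) j).mul_left)
      simp only [g1]
      rw [integral_finsetSum _ fun j _ => g2 j]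
      exact Finset.sum_eq_zero fun j _ => wp_pd2 hn hnp j
    have e3 : ∫ x, (nsq (u τ) x + 2 * p τ x) * adv (u τ) wp x = 0 := by
      have hui : ∀ j, ContDiff ℝ ∞ fun x => u τ x j := fun j => contDiff_pi.1 hu.1 j
      have hf : ∀ j, ContDiff ℝ ∞ fun x => (nsq (u τ) x + 2 * p τ x) * u τ x j := fun j =>
        (hn.add (contDiff_const.mul hp.smooth)).mul (hui j)
      have hfp : ∀ j, Per fun x => (nsq (u τ) x + 2 * p τ x) * u τ x j := fun j i x => by
        beta_reduce
        rw [hnp i x, h.per_p τ hτ i x, hu.2 i x]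
      have g1 : ∀ x, (nsq (u τ) x + 2 * p τ x) * adv (u τ) wp x
          = ∑ j, ((nsq (u τ) x + 2 * p τ x) * u τ x j) * pd j wp x := by
        intro x
        unfold adv
        rw [Finset.mul_sum]
        exact Finset.sum_congr rfl fun j _ => by ring
      have g2 : ∀ j, Integrable fun x => ((nsq (u τ) x + 2 * p τ x) * u τ x j) * pd j wp x :=
        fun j => int_cs ((hf j).continuous.mul (sm_pd wp_sm j).continuous) ((cs_pd hcs j).mul_left)
      simp only [g1]
      rw [integral_finsetSum _ fun j _ => g2 j]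
      exact Finset.sum_eq_zero fun j _ => wp_pd (hf j) (hfp j) j
    unfold DD
    rw [e1, e2, e3]
    ring
  have hDDi : ∫ τ in Ioo s t, DD 1 u p (fun _ => wp) τ
      = ∫ τ in Ioo s t, -2 * enstrophy (u τ) := by
    refine integral_congr_ae ?_
    filter_upwards [aeT h (h.subG hs).1.le (h.subG ht).2.le] with τ hτ
    exact hDD τ hτ
  rw [hDDi, integral_const_mul] at h1
  linarith

end

end Pool.Agent.Q62.SD
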