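import Pool.Agent.Y8.Stm

/-!
Definitions for the energy defect of suitable weak solutions of the Navier-Stokes equations
(helper62).
-/

set_option autoImplicit false

open MeasureTheory Set Metric Filter Topology
open scoped ContDiff ENNReal

namespace Pool.Agent.Q62.SD

open H459R3.NS W221.NS Pool.Agent.Y8

/-- The energy defect tested with `φ`:
`∫∫ |u|² (∂ₜφ + Δφ) + (|u|² + 2 p) u · ∇φ - 2 |∇u|² φ` (viscosity one). -/
noncomputable def Df (G : Set ℝ) (u : ℝ → V → V) (p : ℝ → V → ℝ) (φ : ℝ → V → ℝ) : ℝ :=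
  ∫ t in G, DD 1 u p φ t

/-- The support of a test function. -/
def Sp (φ : ℝ → V → ℝ) : Set (ℝ × V) := tsupport (fun z : ℝ × V => φ z.1 z.2)

/-- No energy is lost in `A`: for each `ε > 0` there is an open set `O ⊇ A` such that the energy
defect is at most `ε` for all test functions `0 ≤ φ ≤ 1` with support in `O`. (The energy defect is
a measure `μ`, and this means `μ A = 0`.) -/
def NoLoss (T : ℝ) (G : Set ℝ) (u : ℝ → V → V) (p : ℝ → V → ℝ) (A : Set (ℝ × V)) : Prop :=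
  ∀ ε : ℝ, 0 < ε → ∃ O : Set (ℝ × V), IsOpen O ∧ A ⊆ O ∧ ∀ φ : ℝ → V → ℝ, Test T φ →
    (∀ t x, 0 ≤ φ t x ∧ φ t x ≤ 1) → Sp φ ⊆ O → Df G u p φ ≤ ε

/-- The mean over the ball (a cube of volume `(2r)³`). -/
noncomputable def mn (r : ℝ) (f : V → ℝ) (x : V) : ℝ := ((2 * r) ^ 3)⁻¹ * ∫ y in ball x r, f y

/-- The scale invariant quantity
`r⁻² ∫∫ |u|³ + |p - [p]|^(3/2)` over the parabolic cylinder `|t - t₀| < r²`, `|x - x₀| < r`. -/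
noncomputable def qq (G : Set ℝ) (u : ℝ → V → V) (p : ℝ → V → ℝ) (z : ℝ × V) (r : ℝ) : ℝ≥0∞ :=
  (∫⁻ t in G ∩ Ioo (z.1 - r ^ 2) (z.1 + r ^ 2), ∫⁻ y in ball z.2 r,
    ENNReal.ofReal (‖u t y‖ ^ 3 + |p t y - mn r (p t) z.2| ^ (3 / 2 : ℝ))) / ENNReal.ofReal (r ^ 2)

/-- The supercritical singular points. -/
def Bad (T : ℝ) (G : Set ℝ) (u : ℝ → V → V) (p : ℝ → V → ℝ) : Set (ℝ × V) :=
  {z | z.1 ∈ Ioo 0 T ∧ SingPt G u z.1 z.2 ∧ Tendsto (fun r => qq G u p z r) (𝓝[>] 0) (𝓝 ⊤) ∧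
    ∀ s : ℝ, s < 1 → ∀ M : ℝ, ∃ᶠ r in 𝓝[>] (0 : ℝ),
      ENNReal.ofReal (M * Real.log r⁻¹ ^ s) < qq G u p z r}

/-- `A` is covered by the sets where countably many nonnegative test functions, with defects of sum
at most `ε`, are at least one. -/
def DCov (T : ℝ) (G : Set ℝ) (u : ℝ → V → V) (p : ℝ → V → ℝ) (A : Set (ℝ × V)) (ε : ℝ≥0∞) : Prop :=
  ∃ (ι : Type) (_ : Countable ι) (ψ : ι → ℝ → V → ℝ), (∀ i, Test T (ψ i)) ∧
    (∀ i t x, 0 ≤ ψ i t x) ∧ (∀ z ∈ A, ∃ i, ∀ᶠ w in 𝓝 z, 1 ≤ ψ i w.1 w.2) ∧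
    ∑' i, ENNReal.ofReal (Df G u p (ψ i)) ≤ ε

/-- Sets without defect. -/
def Nul (T : ℝ) (G : Set ℝ) (u : ℝ → V → V) (p : ℝ → V → ℝ) (A : Set (ℝ × V)) : Prop :=
  ∀ ε : ℝ, 0 < ε → DCov T G u p A (ENNReal.ofReal ε)

end Pool.Agent.Q62.SD
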