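import Pool.Agent.Y8.Lei2
import Pool.Agent.Y8.En
import Pool.Agent.Q62.SD.Defs

/-!
The energy defect: linearity, monotonicity, covers (helper62).
-/

set_option autoImplicit false

open MeasureTheory Set Metric Filter Topology
open scoped ContDiff ENNReal

namespace Pool.Agent.Q62.SD

open H459R3.NS W221.NS Pool.Agent.Y8

/-! ### Test functions -/

section

variable {T : ℝ} {φ ψ : ℝ → V → ℝ}

lemma test_box (h : Test T φ) : ∃ R : ℝ, 0 < R ∧ ∀ t, ∀ z ∉ ball (0 : V) R, φ t z = 0 := by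
  obtain ⟨R, hR⟩ := h.cpt.isCompact.isBounded.subset_ball (0 : ℝ × V)
  refine ⟨max R 1, by positivity, fun t z hz => ?_⟩
  by_contra hcon
  have h1 : ((t, z) : ℝ × V) ∈ tsupport (fun z : ℝ × V => φ z.1 z.2) := subset_tsupport _ hcon
  have h2 := hR h1
  rw [mem_ball, dist_zero_right] at h2
  apply hz
  rw [mem_ball, dist_zero_right]
  exact lt_of_le_of_lt (norm_snd_le ((t, z) : ℝ × V)) (h2.trans_le (le_max_left _ _))

lemma test_zero (h : Test T φ) {t : ℝ} (ht : t ∉ Ioo 0 T) (x : V) : φ t x = 0 := by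
  by_contra hcon
  exact ht (h.supp (subset_tsupport _ (show (fun z : ℝ × V => φ z.1 z.2) (t, x) ≠ 0 from hcon))).1

lemma test_on (h : Test T φ) (H : Set ℝ) :
    ContDiffOn ℝ ∞ (fun z : ℝ × V => φ z.1 z.2) (H ×ˢ univ) := h.smooth.contDiffOn

lemma test_bd (h : Test T φ) : ∃ M : ℝ, 0 ≤ M ∧ ∀ t ∈ Ioo 0 T, ∀ x, |φ t x| ≤ M ∧
    |deriv (fun s => φ s x) t| ≤ M ∧ |lap (φ t) x| ≤ M ∧ ∀ j, |pd j (φ t) x| ≤ M := by
  obtain ⟨R, hR, h0⟩ := test_box h
  obtain ⟨M, hM, hb⟩ := tbd (α := -1) (β := T + 1) (test_on h _) hR (fun t _ => h0 t)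
    (s := 0) (t := T) (by norm_num) (by linarith)
  exact ⟨M, hM, fun t ht x => hb t ⟨ht.1.le, ht.2.le⟩ x⟩

lemma test_lin (h : Test T φ) (h' : Test T ψ) (a b : ℝ) :
    Test T (fun t x => a * φ t x + b * ψ t x) := by
  refine ⟨(contDiff_const.mul h.smooth).add (contDiff_const.mul h'.smooth), ?_, ?_⟩
  · exact (h.cpt.mul_left (f := fun _ => a)).add (h'.cpt.mul_left (f := fun _ => b))
  · refine (tsupport_add _ _).trans (union_subset ?_ ?_)
    · exact (closure_mono (Function.support_mul_subset_right _ _)).trans h.supp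
    · exact (closure_mono (Function.support_mul_subset_right _ _)).trans h'.supp

lemma test_nil : Test T (fun _ _ => 0) := by
  refine ⟨contDiff_const, HasCompactSupport.zero, ?_⟩
  have : tsupport (fun _ : ℝ × V => (0 : ℝ)) = ∅ := by
    simp [tsupport, Function.support_zero]
  rw [this]
  exact empty_subset _

end

section

variable {T E D : ℝ} {G : Set ℝ} {u : ℝ → V → V} {p : ℝ → V → ℝ} {φ ψ : ℝ → V → ℝ}

lemma DD_ed (h : Turb 1 T E D G u p) (hφ : Test T φ) {t : ℝ} (ht : t ∈ G) :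
    DD 1 u p φ t = ∫ x, ed 1 u p φ t x := by
  obtain ⟨R, hR, h0⟩ := test_box hφ
  exact DD_eq 1 h.openG h.smooth_u h.smooth_p (test_on hφ G) hR (fun t _ => h0 t) ht

lemma ed_intg (h : Turb 1 T E D G u p) (hφ : Test T φ) {t : ℝ} (ht : t ∈ G) :
    Integrable fun x => ed 1 u p φ t x := by
  obtain ⟨R, hR, h0⟩ := test_box hφ
  exact int_csR (sl_ct (ed_joint 1 h.openG h.smooth_u h.smooth_p (test_on hφ G)).continuousOn ht)
    (a := 0) (R := R)
    fun z hz => ed_zero 1 h.openG (test_on hφ G) hR (fun t _ => h0 t) ht hz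

lemma DD_int (h : Turb 1 T E D G u p) (hφ : Test T φ) : IntegrableOn (DD 1 u p φ) G := by
  obtain ⟨R, hR, h0⟩ := test_box hφ
  obtain ⟨M, hM, hb⟩ := test_bd hφ
  have h1 := tint h (F := ed 1 u p φ) h.openG subset_rfl
    (ed_joint 1 h.openG h.smooth_u h.smooth_p (test_on hφ G)).continuousOn (a := 0) (R := R)
    (C := 8 * M)
    (fun t ht z hz => ed_zero 1 h.openG (test_on hφ G) hR (fun t _ => h0 t) ht hz)
    h.openG.measurableSet subset_rfl (by positivity)
    (fun t ht x => by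
      obtain ⟨b0, b1, b2, b3⟩ := hb t (h.subG ht) x
      exact ed_abs hM b0 b1 b2 b3)
  refine h1.congr_fun (fun t ht => ?_) h.openG.measurableSet
  exact (DD_ed h hφ ht).symm

lemma ed_lin (hφ : Test T φ) (hψ : Test T ψ) (a b t : ℝ) (x : V) :
    ed 1 u p (fun t x => a * φ t x + b * ψ t x) t x
      = a * ed 1 u p φ t x + b * ed 1 u p ψ t x := by
  have c1 : ContDiff ℝ ∞ (φ t) := sl_sm (test_on hφ univ) (mem_univ t)
  have c2 : ContDiff ℝ ∞ (ψ t) := sl_sm (test_on hψ univ) (mem_univ t)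
  have d1 := dt_hd' isOpen_univ (test_on hφ univ) (mem_univ t) x
  have d2 := dt_hd' isOpen_univ (test_on hψ univ) (mem_univ t) x
  have e1 : deriv (fun s => a * φ s x + b * ψ s x) t
      = a * deriv (fun s => φ s x) t + b * deriv (fun s => ψ s x) t :=
    ((d1.const_mul a).add (d2.const_mul b)).deriv
  have e2 : ∀ j, pd j (fun y => a * φ t y + b * ψ t y)
      = fun y => a * pd j (φ t) y + b * pd j (ψ t) y := by
    intro j
    funext y
    rw [Pool.Agent.W135.MD.pd_add' ((contDiff_const.mul c1).differentiable (by simp))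
      ((contDiff_const.mul c2).differentiable (by simp)),
      Pool.Agent.W135.MD.pd_cmul (c1.differentiable (by simp)),
      Pool.Agent.W135.MD.pd_cmul (c2.differentiable (by simp))]
  have e3 : ∀ j, pd j (pd j (fun y => a * φ t y + b * ψ t y)) x
      = a * pd j (pd j (φ t)) x + b * pd j (pd j (ψ t)) x := by
    intro j
    have s1 := Pool.Agent.W583.MD.sm_pd c1 j
    have s2 := Pool.Agent.W583.MD.sm_pd c2 j
    rw [e2 j, Pool.Agent.W135.MD.pd_add' ((contDiff_const.mul s1).differentiable (by simp))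
      ((contDiff_const.mul s2).differentiable (by simp)),
      Pool.Agent.W135.MD.pd_cmul (s1.differentiable (by simp)),
      Pool.Agent.W135.MD.pd_cmul (s2.differentiable (by simp))]
  have e4 : lap (fun y => a * φ t y + b * ψ t y) x = a * lap (φ t) x + b * lap (ψ t) x := by
    unfold lap
    simp only [e3, Finset.sum_add_distrib, Finset.mul_sum]
  have e5 : adv (u t) (fun y => a * φ t y + b * ψ t y) x
      = a * adv (u t) (φ t) x + b * adv (u t) (ψ t) x := by
    unfold adv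
    rw [Finset.mul_sum, Finset.mul_sum, ← Finset.sum_add_distrib]
    refine Finset.sum_congr rfl fun j _ => ?_
    rw [e2 j]
    ring
  unfold ed
  beta_reduce
  rw [e1, e4, e5]
  ring

lemma Df_lin (h : Turb 1 T E D G u p) (hφ : Test T φ) (hψ : Test T ψ) (a b : ℝ) :
    Df G u p (fun t x => a * φ t x + b * ψ t x) = a * Df G u p φ + b * Df G u p ψ := by
  unfold Df
  rw [← integral_const_mul, ← integral_const_mul,
    ← integral_add ((DD_int h hφ).const_mul a) ((DD_int h hψ).const_mul b)]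
  refine setIntegral_congr_fun h.openG.measurableSet fun t ht => ?_
  beta_reduce
  rw [DD_ed h (test_lin hφ hψ a b) ht, DD_ed h hφ ht, DD_ed h hψ ht, ← integral_const_mul,
    ← integral_const_mul, ← integral_add ((ed_intg h hφ ht).const_mul a)
      ((ed_intg h hψ ht).const_mul b)]
  exact integral_congr_ae (ae_of_all _ fun x => ed_lin hφ hψ a b t x)

lemma Df_nn (h : Turb 1 T E D G u p) (hφ : Test T φ) (h0 : ∀ t x, 0 ≤ φ t x) :
    0 ≤ Df G u p φ := h.local_energy φ hφ h0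

lemma Df_mono (h : Turb 1 T E D G u p) (hφ : Test T φ) (hψ : Test T ψ)
    (hle : ∀ t x, φ t x ≤ ψ t x) : Df G u p φ ≤ Df G u p ψ := by
  have h1 := Df_lin h hψ hφ 1 (-1)
  have h2 := Df_nn h (test_lin hψ hφ 1 (-1)) fun t x => by
    have := hle t x
    linarith
  linarith

lemma Df_smul (h : Turb 1 T E D G u p) (hφ : Test T φ) (a : ℝ) :
    Df G u p (fun t x => a * φ t x) = a * Df G u p φ := by
  have h1 := Df_lin h hφ hφ a 0
  simp only [zero_mul, add_zero] at h1
  exact h1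

lemma test_smul (hφ : Test T φ) (a : ℝ) : Test T (fun t x => a * φ t x) := by
  have h1 := test_lin hφ hφ a 0
  simp only [zero_mul, add_zero] at h1
  exact h1

lemma Df_zero : Df G u p (fun _ _ => 0) = 0 := by
  have e : ∀ t, DD 1 u p (fun _ _ => 0) t = 0 := by
    intro t
    have h1 : ∀ x : V, lap (fun _ : V => (0 : ℝ)) x = 0 := by
      intro x
      have hz : ∀ j, pd j (fun _ : V => (0 : ℝ)) = fun _ => 0 := fun j => by
        funext y
        exact Pool.Agent.W135.MD.pd_const' 0 j y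
      unfold lap
      simp only [hz]
      exact Finset.sum_const_zero
    have h2 : ∀ x : V, adv (u t) (fun _ : V => (0 : ℝ)) x = 0 := by
      intro x
      unfold adv
      simp only [Pool.Agent.W135.MD.pd_const', mul_zero, Finset.sum_const_zero]
    unfold DD
    simp only [h1, h2, deriv_const', mul_zero, add_zero, integral_zero]
  unfold Df
  simp only [e, integral_zero]

/-- Finite sums. -/
lemma Df_sum (h : Turb 1 T E D G u p) {ι : Type} (S : Finset ι) {ψ : ι → ℝ → V → ℝ}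
    (hψ : ∀ i, Test T (ψ i)) :
    Test T (fun t x => ∑ i ∈ S, ψ i t x) ∧
      Df G u p (fun t x => ∑ i ∈ S, ψ i t x) = ∑ i ∈ S, Df G u p (ψ i) := by
  classical
  induction S using Finset.induction_on with
  | empty =>
    simp only [Finset.sum_empty]
    exact ⟨test_nil, Df_zero⟩
  | insert i S hi ih =>
    simp only [Finset.sum_insert hi]
    have h1 := test_lin (hψ i) ih.1 1 1
    have h2 := Df_lin h (hψ i) ih.1 1 1
    simp only [one_mul] at h1 h2
    exact ⟨h1, by rw [h2, ih.2]⟩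

end

/-! ### Covers -/

section

variable {T E D : ℝ} {G : Set ℝ} {u : ℝ → V → V} {p : ℝ → V → ℝ} {A B : Set (ℝ × V)}

lemma DCov.mono {ε ε' : ℝ≥0∞} (h : DCov T G u p A ε) (hB : B ⊆ A) (hε : ε ≤ ε') :
    DCov T G u p B ε' := by
  obtain ⟨ι, hι, ψ, h1, h2, h3, h4⟩ := h
  exact ⟨ι, hι, ψ, h1, h2, fun z hz => h3 z (hB hz), h4.trans hε⟩

lemma Nul.mono (h : Nul T G u p A) (hB : B ⊆ A) : Nul T G u p B :=
  fun ε hε => (h ε hε).mono hB le_rfl

lemma Nul.iUnion {κ : Type} [Countable κ] {A : κ → Set (ℝ × V)} (h : ∀ k, Nul T G u p (A k)) :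
    Nul T G u p (⋃ k, A k) := by
  intro ε hε
  obtain ⟨δ, hδ, hs⟩ := ENNReal.exists_pos_sum_of_countable
    (show (ENNReal.ofReal ε) ≠ 0 from (ENNReal.ofReal_pos.2 hε).ne') κ
  have h1 : ∀ k, DCov T G u p (A k) (δ k) := fun k => by
    have h2 := h k (δ k) (by exact_mod_cast hδ k)
    rwa [ENNReal.ofReal_coe_nnreal] at h2
  choose ι hι ψ h1 h2 h3 h4 using h1
  refine ⟨Σ k, ι k, ?_, fun i => ψ i.1 i.2, fun i => h1 _ _, fun i => h2 _ _, ?_, ?_⟩
  · have := hι
    infer_instance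
  · intro z hz
    obtain ⟨k, hk⟩ := mem_iUnion.1 hz
    obtain ⟨i, hi⟩ := h3 k z hk
    exact ⟨⟨k, i⟩, hi⟩
  · have e : ∑' i : (Σ k, ι k), ENNReal.ofReal (Df G u p (ψ i.1 i.2))
        = ∑' k, ∑' i, ENNReal.ofReal (Df G u p (ψ k i)) :=
      ENNReal.tsum_sigma' (fun i : (Σ k, ι k) => ENNReal.ofReal (Df G u p (ψ i.1 i.2)))
    exact e.le.trans ((ENNReal.tsum_le_tsum fun k => h4 k).trans hs.le)

lemma Nul.union (hA : Nul T G u p A) (hB : Nul T G u p B) : Nul T G u p (A ∪ B) := by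
  have : A ∪ B = ⋃ b : Bool, cond b A B := by
    rw [union_eq_iUnion]
  rw [this]
  exact Nul.iUnion fun b => by cases b <;> assumption

/-- Local sets without defect. -/
lemma Nul.of_local (h : ∀ z ∈ A, ∃ N ∈ 𝓝 z, Nul T G u p (A ∩ N)) : Nul T G u p A := by
  choose! N hN hN2 using h
  obtain ⟨s, hsA, hsc, hs⟩ := TopologicalSpace.countable_cover_nhdsWithin
    (s := A) (f := fun z => N z) (fun z hz => mem_nhdsWithin_of_mem_nhds (hN z hz))
  have := hsc.to_subtype
  refine (Nul.iUnion (A := fun z : s => A ∩ N z) fun z => hN2 z (hsA z.2)).mono ?_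
  intro z hz
  have h1 := hs hz
  simp only [mem_iUnion, exists_prop] at h1
  obtain ⟨w, hw, hz2⟩ := h1
  exact mem_iUnion.2 ⟨⟨w, hw⟩, hz, hz2⟩

/-- A test function which is bounded by a cover. -/
lemma Df_le_cov (h : Turb 1 T E D G u p) {ε : ℝ} (hε : 0 ≤ ε) {ι : Type} {ψ : ι → ℝ → V → ℝ}
    (h1 : ∀ i, Test T (ψ i)) (h2 : ∀ i t x, 0 ≤ ψ i t x)
    (h4 : ∑' i, ENNReal.ofReal (Df G u p (ψ i)) ≤ ENNReal.ofReal ε) {φ : ℝ → V → ℝ}
    (hφ : Test T φ) (hφ1 : ∀ t x, φ t x ≤ 1)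
    (hs : ∀ z ∈ Sp φ, ∃ i, ∀ᶠ w in 𝓝 z, 1 ≤ ψ i w.1 w.2) : Df G u p φ ≤ ε := by
  classical
  have hK : IsCompact (Sp φ) := hφ.cpt.isCompact
  rcases (Sp φ).eq_empty_or_nonempty with hemp | ⟨z0, hz0⟩
  · have h5 : φ = fun _ _ => 0 := by
      funext t x
      by_contra hcon
      have h6 : ((t, x) : ℝ × V) ∈ Sp φ :=
        subset_tsupport _ (show (fun z : ℝ × V => φ z.1 z.2) (t, x) ≠ 0 from hcon)
      rw [hemp] at h6
      exact h6
    rw [h5, Df_zero]
    exact hε
  have : Nonempty ι := ⟨(hs z0 hz0).choose⟩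
  choose! i hi using hs
  obtain ⟨t, ht, hc⟩ := hK.elim_nhds_subcover (fun z => {w | 1 ≤ ψ (i z) w.1 w.2})
    (fun z hz => hi z hz)
  obtain ⟨hT, hS⟩ := Df_sum h (t.image i) (ψ := ψ) h1
  have hle : ∀ s x, φ s x ≤ ∑ j ∈ t.image i, ψ j s x := by
    intro s x
    by_cases hx : ((s, x) : ℝ × V) ∈ Sp φ
    · have h5 := hc hx
      simp only [mem_iUnion, exists_prop] at h5
      obtain ⟨z, hz, hz2⟩ := h5
      have h6 : ψ (i z) s x ≤ ∑ j ∈ t.image i, ψ j s x :=
        Finset.single_le_sum (f := fun j => ψ j s x) (fun j _ => h2 j s x)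
          (Finset.mem_image_of_mem i hz)
      have h7 : (1 : ℝ) ≤ ψ (i z) s x := hz2
      linarith [hφ1 s x]
    · have h5 : φ s x = 0 := by
        by_contra hcon
        exact hx (subset_tsupport _ (show (fun z : ℝ × V => φ z.1 z.2) (s, x) ≠ 0 from hcon))
      rw [h5]
      exact Finset.sum_nonneg fun j _ => h2 j s x
  have h8 := Df_mono h hφ hT hle
  rw [hS] at h8
  refine h8.trans ?_
  have h9 : ENNReal.ofReal (∑ j ∈ t.image i, Df G u p (ψ j)) ≤ ENNReal.ofReal ε := by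
    rw [ENNReal.ofReal_sum_of_nonneg fun j _ => Df_nn h (h1 j) (h2 j)]
    exact (ENNReal.sum_le_tsum _).trans h4
  exact (ENNReal.ofReal_le_ofReal_iff hε).1 h9

lemma Nul.noLoss (h : Turb 1 T E D G u p) (hA : Nul T G u p A) : NoLoss T G u p A := by
  intro ε hε
  obtain ⟨ι, hι, ψ, h1, h2, h3, h4⟩ := hA ε hε
  refine ⟨⋃ i, interior {w : ℝ × V | 1 ≤ ψ i w.1 w.2}, isOpen_iUnion fun i => isOpen_interior,
    fun z hz => ?_, fun φ hφ h01 hsub => ?_⟩
  · obtain ⟨i, hi⟩ := h3 z hz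
    exact mem_iUnion.2 ⟨i, mem_interior_iff_mem_nhds.2 hi⟩
  · refine Df_le_cov h hε.le h1 h2 h4 hφ (fun t x => (h01 t x).2) fun z hz => ?_
    obtain ⟨i, hi⟩ := mem_iUnion.1 (hsub hz)
    exact ⟨i, mem_interior_iff_mem_nhds.1 hi⟩

/-- The defect vanishes on test functions whose support is a null set. -/
lemma Nul.df_zero (h : Turb 1 T E D G u p) {φ : ℝ → V → ℝ} (hφ : Test T φ)
    (h0 : ∀ t x, 0 ≤ φ t x) (hA : Nul T G u p (Sp φ)) : Df G u p φ = 0 := by
  obtain ⟨M, hM, hb⟩ := test_bd hφ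
  set c : ℝ := (M + 1)⁻¹ with hc
  have hc0 : 0 < c := by positivity
  have hle : ∀ t x, c * φ t x ≤ 1 := by
    intro t x
    by_cases ht : t ∈ Ioo 0 T
    · have h1 := (hb t ht x).1
      rw [hc, inv_mul_le_iff₀ (by positivity)]
      linarith [le_abs_self (φ t x)]
    · rw [test_zero hφ ht x, mul_zero]
      exact zero_le_one
  have hsp : Sp (fun t x => c * φ t x) ⊆ Sp φ :=
    closure_mono (Function.support_mul_subset_right _ _)
  have h1 : ∀ ε : ℝ, 0 < ε → c * Df G u p φ ≤ ε := by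
    intro ε hε
    obtain ⟨ι, hι, ψ, h1, h2, h3, h4⟩ := hA ε hε
    rw [← Df_smul h hφ]
    exact Df_le_cov h hε.le h1 h2 h4 (test_smul hφ c) hle fun z hz => h3 z (hsp hz)
  have h2 : c * Df G u p φ ≤ 0 := le_of_forall_pos_le_add fun ε hε => by
    rw [zero_add]
    exact h1 ε hε
  have h3 := Df_nn h hφ h0
  nlinarith

end

end Pool.Agent.Q62.SD
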