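import Pool.Agent.Q62.SD.Basic

/-!
The energy defect of a cut-off function at the scale `R` (helper62).
-/

set_option autoImplicit false

open MeasureTheory Set Metric Filter Topology
open scoped ContDiff ENNReal

namespace Pool.Agent.Q62.SD

open H459R3.NS W221.NS Pool.Agent.Y8

/-- A smooth bump on the line: `1` on `[-3/4, 3/4]`, support `(-1, 1)`. -/
noncomputable def kT : ContDiffBump (0 : ℝ) := ⟨3 / 4, 1, by norm_num, by norm_num⟩

/-- The cut-off function at the scale `R`. -/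
noncomputable def bq (z : ℝ × V) (R : ℝ) (t : ℝ) (x : V) : ℝ :=
  kT ((R ^ 2)⁻¹ * (t - z.1)) * kap (R⁻¹ • (x - z.2))

lemma bq_nn (z : ℝ × V) (R t : ℝ) (x : V) : 0 ≤ bq z R t x := mul_nonneg kT.nonneg kap.nonneg

lemma bq_le1 (z : ℝ × V) (R t : ℝ) (x : V) : bq z R t x ≤ 1 :=
  mul_le_one₀ kT.le_one kap.nonneg kap.le_one

lemma bq_t {z : ℝ × V} {R : ℝ} (hR : 0 < R) {t : ℝ} (ht : R ^ 2 ≤ |t - z.1|) (x : V) :
    bq z R t x = 0 := by
  unfold bq
  rw [kT.zero_of_le_dist, zero_mul]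
  rw [dist_zero_right, Real.norm_eq_abs, abs_mul, abs_of_pos (by positivity)]
  change (1 : ℝ) ≤ _
  rw [inv_mul_eq_div, le_div_iff₀ (by positivity), one_mul]
  exact ht

lemma bq_x {z : ℝ × V} {R : ℝ} (hR : 0 < R) (t : ℝ) {x : V} (hx : x ∉ ball z.2 R) :
    bq z R t x = 0 := by
  unfold bq
  rw [kap.zero_of_le_dist, mul_zero]
  rw [dist_zero_right, norm_smul, Real.norm_eq_abs, abs_of_pos (by positivity)]
  change (1 : ℝ) ≤ _
  rw [inv_mul_eq_div, le_div_iff₀ hR, one_mul]
  rw [mem_ball, dist_eq_norm, not_lt] at hx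
  exact hx

lemma bq_one {z : ℝ × V} {R : ℝ} (hR : 0 < R) {t : ℝ} (ht : |t - z.1| ≤ 3 / 4 * R ^ 2) {x : V}
    (hx : ‖x - z.2‖ ≤ 3 / 4 * R) : bq z R t x = 1 := by
  unfold bq
  rw [kT.one_of_mem_closedBall, kap.one_of_mem_closedBall, mul_one]
  · rw [mem_closedBall, dist_zero_right, norm_smul, Real.norm_eq_abs, abs_of_pos (by positivity)]
    change _ ≤ (3 / 4 : ℝ)
    rw [inv_mul_eq_div, div_le_iff₀ hR]
    exact hx
  · rw [mem_closedBall, dist_zero_right, Real.norm_eq_abs, abs_mul, abs_of_pos (by positivity)]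
    change _ ≤ (3 / 4 : ℝ)
    rw [inv_mul_eq_div, div_le_iff₀ (by positivity)]
    exact ht

lemma bq_sm (z : ℝ × V) (R : ℝ) : ContDiff ℝ ∞ (fun w : ℝ × V => bq z R w.1 w.2) := by
  unfold bq
  refine (kT.contDiff.comp ?_).mul (kap.contDiff.comp ?_)
  · exact contDiff_const.mul (contDiff_fst.sub contDiff_const)
  · exact (contDiff_snd.sub contDiff_const).const_smul _

lemma bq_test {T : ℝ} {z : ℝ × V} {R : ℝ} (hR : 0 < R) (h1 : 0 < z.1 - R ^ 2)
    (h2 : z.1 + R ^ 2 < T) : Test T (bq z R) := by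
  have hsub : tsupport (fun w : ℝ × V => bq z R w.1 w.2) ⊆
      Icc (z.1 - R ^ 2) (z.1 + R ^ 2) ×ˢ closedBall z.2 R := by
    refine closure_minimal (fun w hw => ?_) (isClosed_Icc.prod isClosed_closedBall)
    have hw' : bq z R w.1 w.2 ≠ 0 := hw
    refine ⟨?_, ?_⟩
    · by_contra hcon
      refine hw' (bq_t hR ?_ _)
      by_contra hc
      push Not at hc
      have := abs_lt.1 hc
      exact hcon ⟨by linarith [this.1], by linarith [this.2]⟩
    · by_contra hcon
      exact hw' (bq_x hR _ fun h => hcon (ball_subset_closedBall h))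
  refine ⟨bq_sm z R, ?_, ?_⟩
  · exact HasCompactSupport.of_support_subset_isCompact
      (isCompact_Icc.prod (isCompact_closedBall z.2 R)) ((subset_tsupport _).trans hsub)
  · refine hsub.trans (prod_mono (fun t ht => ?_) (subset_univ _))
    exact ⟨h1.trans_le ht.1, ht.2.trans_lt h2⟩

/-- The derivative in time vanishes where the function vanishes. -/
lemma dt_min {φ : ℝ → V → ℝ} (h0 : ∀ t x, 0 ≤ φ t x) {t : ℝ} {x : V} (h : φ t x = 0) :
    deriv (fun s => φ s x) t = 0 := by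
  have hm : IsLocalMin (fun s => φ s x) t := Eventually.of_forall fun s => by
    change φ t x ≤ φ s x
    rw [h]
    exact h0 s x
  exact hm.deriv_eq_zero

lemma bdd_of_cs {X : Type*} [TopologicalSpace X] {f : X → ℝ} (hf : Continuous f)
    (hc : HasCompactSupport f) :
    ∃ C : ℝ, 0 ≤ C ∧ ∀ x, |f x| ≤ C := by
  obtain ⟨C, hC⟩ := hc.exists_bound_of_continuous hf
  refine ⟨max C 0, le_max_right _ _, fun x => ?_⟩
  have := hC x
  rw [Real.norm_eq_abs] at this
  exact this.trans (le_max_left _ _)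

lemma bq_bd : ∃ C : ℝ, 0 < C ∧ ∀ (z : ℝ × V) (R t : ℝ) (x : V), 0 < R →
    |deriv (fun s => bq z R s x) t| ≤ C / R ^ 2 ∧ (∀ j, |pd j (bq z R t) x| ≤ C / R) ∧
    |lap (bq z R t) x| ≤ C / R ^ 2 := by
  have hk : ContDiff ℝ ∞ (fun y : V => kap y) := kap.contDiff
  have hkc : HasCompactSupport (fun y : V => kap y) := kap.hasCompactSupport
  have hT : ContDiff ℝ ∞ (fun y : ℝ => kT y) := kT.contDiff
  have hTc : HasCompactSupport (fun y : ℝ => kT y) := kT.hasCompactSupport
  obtain ⟨C0, hC0, H0⟩ := bdd_of_cs (hT.continuous_deriv (by norm_cast)) hTc.deriv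
  have H1 := fun j => bdd_of_cs (Pool.Agent.W583.MD.sm_pd hk j).continuous
    (Pool.Agent.W583.MD.cs_pd hkc j)
  choose C1 hC1 H1 using H1
  have H2 := fun j => bdd_of_cs
    (Pool.Agent.W583.MD.sm_pd (Pool.Agent.W583.MD.sm_pd hk j) j).continuous
    (Pool.Agent.W583.MD.cs_pd (Pool.Agent.W583.MD.cs_pd hkc j) j)
  choose C2 hC2 H2 using H2
  have hS1 : ∀ j, C1 j ≤ ∑ j, C1 j := fun j =>
    Finset.single_le_sum (f := C1) (fun i _ => hC1 i) (Finset.mem_univ j)
  have hS1' : 0 ≤ ∑ j, C1 j := Finset.sum_nonneg fun _ _ => hC1 _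
  have hS2' : 0 ≤ ∑ j, C2 j := Finset.sum_nonneg fun _ _ => hC2 _
  refine ⟨C0 + ∑ j, C1 j + ∑ j, C2 j + 1, by positivity, fun z R t x hR => ?_⟩
  have hkT0 : 0 ≤ kT ((R ^ 2)⁻¹ * (t - z.1)) := kT.nonneg
  have hkT1 : kT ((R ^ 2)⁻¹ * (t - z.1)) ≤ 1 := kT.le_one
  have hk0 : 0 ≤ kap (R⁻¹ • (x - z.2)) := kap.nonneg
  have hk1 : kap (R⁻¹ • (x - z.2)) ≤ 1 := kap.le_one
  have e0 : ∀ y : V, R⁻¹ • (y - z.2) = -(R⁻¹ • z.2) + R⁻¹ • y := fun y => by
    rw [smul_sub]
    abel
  have e1 : ∀ j, pd j (bq z R t)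
      = fun y => (kT ((R ^ 2)⁻¹ * (t - z.1)) * R⁻¹) * pd j (fun y : V => kap y)
        (-(R⁻¹ • z.2) + R⁻¹ • y) := by
    intro j
    funext y
    have h1 : bq z R t = fun y => kT ((R ^ 2)⁻¹ * (t - z.1)) *
        (fun y : V => kap (-(R⁻¹ • z.2) + R⁻¹ • y)) y := by
      funext y
      unfold bq
      rw [e0]
    have hd : Differentiable ℝ (fun y : V => kap (-(R⁻¹ • z.2) + R⁻¹ • y)) :=
      (hk.comp (contDiff_const.add (contDiff_id.const_smul R⁻¹))).differentiable (by simp)
    rw [h1, Pool.Agent.W135.MD.pd_cmul hd]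
    have h2 := Pool.Agent.W135.MD.pd_aff (f := fun y : V => kap y) (hk.differentiable (by simp))
      (-(R⁻¹ • z.2)) R⁻¹ j y
    rw [h2]
    ring
  have e2 : ∀ j, pd j (pd j (bq z R t)) x
      = (kT ((R ^ 2)⁻¹ * (t - z.1)) * R⁻¹) * (R⁻¹ * pd j (pd j (fun y : V => kap y))
        (-(R⁻¹ • z.2) + R⁻¹ • x)) := by
    intro j
    have hp := Pool.Agent.W583.MD.sm_pd hk j
    have hd : Differentiable ℝ (fun y : V => pd j (fun y : V => kap y)
        (-(R⁻¹ • z.2) + R⁻¹ • y)) :=
      (hp.comp (contDiff_const.add (contDiff_id.const_smul R⁻¹))).differentiable (by simp)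
    rw [e1 j, Pool.Agent.W135.MD.pd_cmul hd]
    have h2 := Pool.Agent.W135.MD.pd_aff (f := pd j (fun y : V => kap y))
      (hp.differentiable (by simp)) (-(R⁻¹ • z.2)) R⁻¹ j x
    rw [h2]
  refine ⟨?_, fun j => ?_, ?_⟩
  · have h1 : HasDerivAt (fun s : ℝ => (R ^ 2)⁻¹ * (s - z.1)) ((R ^ 2)⁻¹) t := by
      have := ((hasDerivAt_id t).sub_const z.1).const_mul ((R ^ 2)⁻¹)
      simpa using this
    have h2 : HasDerivAt (fun y : ℝ => kT y) (deriv (fun y : ℝ => kT y) ((R ^ 2)⁻¹ * (t - z.1)))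
        ((R ^ 2)⁻¹ * (t - z.1)) := ((hT.differentiable (by simp)) _).hasDerivAt
    have h3 : HasDerivAt (fun s => bq z R s x)
        (deriv (fun y : ℝ => kT y) ((R ^ 2)⁻¹ * (t - z.1)) * (R ^ 2)⁻¹ *
          kap (R⁻¹ • (x - z.2))) t := (h2.comp t h1).mul_const _
    rw [h3.deriv, abs_mul, abs_mul, abs_of_pos (show 0 < (R ^ 2)⁻¹ by positivity),
      abs_of_nonneg hk0, div_eq_mul_inv]
    have h4 := H0 ((R ^ 2)⁻¹ * (t - z.1))
    have h5 : 0 < (R ^ 2)⁻¹ := by positivity
    calc |deriv (fun y : ℝ => kT y) ((R ^ 2)⁻¹ * (t - z.1))| * (R ^ 2)⁻¹ * kap (R⁻¹ • (x - z.2))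
        ≤ C0 * (R ^ 2)⁻¹ * 1 := by gcongr
      _ ≤ _ := by
          rw [mul_one]
          gcongr
          linarith
  · rw [e1 j]
    beta_reduce
    rw [abs_mul, abs_mul, abs_of_nonneg hkT0, abs_of_pos (show 0 < R⁻¹ by positivity),
      div_eq_mul_inv]
    have h4 := H1 j (-(R⁻¹ • z.2) + R⁻¹ • x)
    calc kT ((R ^ 2)⁻¹ * (t - z.1)) * R⁻¹ *
          |pd j (fun y : V => kap y) (-(R⁻¹ • z.2) + R⁻¹ • x)|
        ≤ 1 * R⁻¹ * C1 j := by gcongr
      _ ≤ _ := by
          rw [one_mul, mul_comm]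
          gcongr
          linarith [hS1 j]
  · unfold lap
    simp only [e2]
    refine (Finset.abs_sum_le_sum_abs _ _).trans ?_
    have h5 : ∀ j ∈ Finset.univ, |kT ((R ^ 2)⁻¹ * (t - z.1)) * R⁻¹ * (R⁻¹ *
        pd j (pd j (fun y : V => kap y)) (-(R⁻¹ • z.2) + R⁻¹ • x))| ≤ (R ^ 2)⁻¹ * C2 j := by
      intro j _
      have h4 := H2 j (-(R⁻¹ • z.2) + R⁻¹ • x)
      rw [abs_mul, abs_mul, abs_mul, abs_of_nonneg hkT0, abs_of_pos (show 0 < R⁻¹ by positivity)]
      calc kT ((R ^ 2)⁻¹ * (t - z.1)) * R⁻¹ * (R⁻¹ *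
            |pd j (pd j (fun y : V => kap y)) (-(R⁻¹ • z.2) + R⁻¹ • x)|)
          ≤ 1 * R⁻¹ * (R⁻¹ * C2 j) := by gcongr
        _ = _ := by
            rw [sq, mul_inv]
            ring
    refine (Finset.sum_le_sum h5).trans ?_
    rw [← Finset.mul_sum, div_eq_mul_inv, mul_comm]
    gcongr
    linarith

/-! ### Integrals -/

lemma ofReal_int_le {X : Type*} [MeasurableSpace X] {μ : Measure X} {f : X → ℝ} :
    ENNReal.ofReal (∫ x, f x ∂μ) ≤ ∫⁻ x, ENNReal.ofReal (f x) ∂μ := by
  by_cases hf : Integrable f μ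
  · have h1 : ∫ x, f x ∂μ ≤ ∫ x, max (f x) 0 ∂μ :=
      integral_mono hf hf.pos_part fun x => le_max_left _ _
    refine (ENNReal.ofReal_le_ofReal h1).trans ?_
    rw [ofReal_integral_eq_lintegral_ofReal hf.pos_part (ae_of_all _ fun x => le_max_right _ _)]
    refine lintegral_mono fun x => ?_
    rcases le_total (f x) 0 with h | h
    · rw [max_eq_right h, ENNReal.ofReal_zero]
      exact zero_le
    · rw [max_eq_left h]
  · rw [integral_undef hf, ENNReal.ofReal_zero]
    exact zero_le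

lemma nsq_le3 (w : V → V) (x : V) : nsq w x ≤ 3 * ‖w x‖ ^ 2 := by
  unfold nsq
  have h : ∀ i ∈ Finset.univ, w x i ^ 2 ≤ ‖w x‖ ^ 2 := fun i _ => by
    rw [← sq_abs (w x i)]
    exact pow_le_pow_left₀ (abs_nonneg _) (norm_le_pi_norm (w x) i) 2
  refine (Finset.sum_le_sum h).trans ?_
  simp

lemma adv_le3 {M : ℝ} (w : V → V) {f : V → ℝ} {x : V} (hM : ∀ j, |pd j f x| ≤ M) :
    |adv w f x| ≤ 3 * M * ‖w x‖ := by
  unfold adv
  refine (Finset.abs_sum_le_sum_abs _ _).trans ?_
  have h : ∀ j ∈ Finset.univ, |w x j * pd j f x| ≤ ‖w x‖ * M := fun j _ => by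
    rw [abs_mul]
    exact mul_le_mul (norm_le_pi_norm (w x) j) (hM j) (abs_nonneg _) (norm_nonneg _)
  refine (Finset.sum_le_sum h).trans ?_
  simp only [Finset.sum_const, Finset.card_univ, Fintype.card_fin, nsmul_eq_mul]
  apply le_of_eq
  push_cast
  ring

/-- The flux of a divergence free field. -/
lemma int_adv {w : V → V} (hw : ContDiff ℝ ∞ w) (hd : ∀ x, ∑ i, pd i (fun y => w y i) x = 0)
    {f : V → ℝ} (hf : ContDiff ℝ ∞ f) (hc : HasCompactSupport f) : ∫ x, adv w f x = 0 := by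
  have hwi : ∀ i, ContDiff ℝ ∞ (fun y => w y i) := fun i => contDiff_pi.1 hw i
  have h1 : Pool.Agent.W583.MD.Z (fun x => ∑ i, pd i (fun y => w y i * f y) x) :=
    Pool.Agent.W583.MD.Z.sum fun i => Pool.Agent.W583.MD.Z_pd ((hwi i).mul hf)
      (hc.mul_left (f := fun y => w y i)) i
  have e : (fun x => ∑ i, pd i (fun y => w y i * f y) x) = fun x => adv w f x := by
    funext x
    have h2 : ∀ i, pd i (fun y => w y i * f y) x = w x i * pd i f x
        + pd i (fun y => w y i) x * f x := fun i => Pool.Agent.W583.MD.pd_mul' (hwi i) hf i x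
    simp only [h2, Finset.sum_add_distrib, ← Finset.sum_mul, hd x, zero_mul, add_zero]
    rfl
  rw [e] at h1
  exact h1.2

lemma young_a {a R : ℝ} (ha : 0 ≤ a) (hR : 0 < R) : a ^ 2 ≤ R * a ^ 3 + (R ^ 2)⁻¹ := by
  rcases le_total (R * a) 1 with h | h
  · have h1 : a ≤ R⁻¹ := by
      rw [← one_div, le_div_iff₀ hR]
      linarith
    have h2 : a ^ 2 ≤ (R ^ 2)⁻¹ := by
      rw [← inv_pow]
      exact pow_le_pow_left₀ ha h1 2
    have : 0 ≤ R * a ^ 3 := by positivity
    linarith
  · have h1 : a ^ 2 ≤ R * a ^ 3 := by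
      have : a ^ 2 * 1 ≤ a ^ 2 * (R * a) := mul_le_mul_of_nonneg_left h (by positivity)
      nlinarith
    have : 0 ≤ (R ^ 2)⁻¹ := by positivity
    linarith

lemma young_b {a b : ℝ} (ha : 0 ≤ a) (hb : 0 ≤ b) : b * a ≤ a ^ 3 + b ^ (3 / 2 : ℝ) := by
  rw [rp32 b hb]
  set c := √b with hc
  have hc0 : 0 ≤ c := Real.sqrt_nonneg _
  have hb' : b = c ^ 2 := (Real.sq_sqrt hb).symm
  rw [hb']
  rcases le_total a c with h | h
  · have : c ^ 2 * a ≤ c ^ 2 * c := mul_le_mul_of_nonneg_left h (by positivity)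
    have h3 : 0 ≤ a ^ 3 := by positivity
    nlinarith
  · have h2 : c ^ 2 ≤ a ^ 2 := pow_le_pow_left₀ hc0 h 2
    have : c ^ 2 * a ≤ a ^ 2 * a := mul_le_mul_of_nonneg_right h2 ha
    have h3 : 0 ≤ c ^ 3 := by positivity
    nlinarith

/-- The defect of the cut-off function. -/
theorem df_bump : ∃ K : ℝ, 0 < K ∧ ∀ (T E D : ℝ) (G : Set ℝ) (u : ℝ → V → V) (p : ℝ → V → ℝ),
    Turb 1 T E D G u p → ∀ (z : ℝ × V) (R : ℝ), 0 < R → 0 < z.1 - R ^ 2 → z.1 + R ^ 2 < T →
      ENNReal.ofReal (Df G u p (bq z R)) ≤ ENNReal.ofReal (K * R) * (1 + qq G u p z R) := by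
  obtain ⟨C, hC, hb⟩ := bq_bd
  refine ⟨16 * (27 * C), by positivity, fun T E D G u p h z R hR h1 h2 => ?_⟩
  set K : ℝ := 27 * C with hK
  set ψ := bq z R with hψ
  have hψT : Test T ψ := bq_test hR h1 h2
  set J := G ∩ Ioo (z.1 - R ^ 2) (z.1 + R ^ 2) with hJ
  have hJm : MeasurableSet J := h.openG.measurableSet.inter measurableSet_Ioo
  set w : ℝ → V → ℝ := fun t y => ‖u t y‖ ^ 3 + |p t y - mn R (p t) z.2| ^ (3 / 2 : ℝ) with hw
  have hw0 : ∀ t y, 0 ≤ w t y := fun t y => by
    rw [hw]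
    positivity
  -- the bound at one time
  have key : ∀ t ∈ G, ENNReal.ofReal (DD 1 u p ψ t) ≤
      J.indicator (fun t => ∫⁻ y in ball z.2 R, ENNReal.ofReal (K * (R⁻¹ * w t y + (R ^ 4)⁻¹))) t := by
    intro t ht
    have hut := h.spv ht
    have hpt := (h.sp ht).smooth
    have hsl : ContDiff ℝ ∞ (ψ t) := sl_sm (test_on hψT univ) (mem_univ t)
    by_cases htJ : t ∈ Ioo (z.1 - R ^ 2) (z.1 + R ^ 2)
    · rw [indicator_of_mem (show t ∈ J from ⟨ht, htJ⟩)]
      set c := mn R (p t) z.2 with hc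
      have hz0 : ∀ y ∉ ball z.2 R, ψ t y = 0 := fun y hy => bq_x hR t hy
      have hcs : HasCompactSupport (ψ t) := hcsR hz0
      have hadvz : ∀ y ∉ ball z.2 R, adv (u t) (ψ t) y = 0 := fun y hy => by
        unfold adv
        exact Finset.sum_eq_zero fun j _ => by rw [pd_zero' hsl hR hz0 hy j, mul_zero]
      have hgc : Continuous (gsq (u t)) := (gsq_sm hut.1).continuous
      have hnc : Continuous (nsq (u t)) := (nsq_sm hut.1).continuous
      have huc : ∀ i, Continuous fun y => u t y i := fun i =>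
        (continuous_apply i).comp hut.1.continuous
      have hpdc : ∀ j, Continuous (pd j (ψ t)) := fun j =>
        (Pool.Agent.W583.MD.sm_pd hsl j).continuous
      have hadvc : Continuous (adv (u t) (ψ t)) := by
        unfold adv
        exact continuous_finsetSum _ fun j _ => (huc j).mul (hpdc j)
      have hdtc : Continuous fun y => deriv (fun s => ψ s y) t :=
        sl_ct (F := fun t x => deriv (fun s => ψ s x) t)
          (dt_joint isOpen_univ (test_on hψT univ)).continuousOn (mem_univ t)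
      have hlapc : Continuous (lap (ψ t)) := by
        unfold lap
        exact continuous_finsetSum _ fun j _ => (Pool.Agent.W583.MD.sm_pd
          (Pool.Agent.W583.MD.sm_pd hsl j) j).continuous
      have hdtz : ∀ y ∉ ball z.2 R, deriv (fun s => ψ s y) t = 0 := fun y hy =>
        dt_min (fun t x => bq_nn z R t x) (hz0 y hy)
      have hlapz : ∀ y ∉ ball z.2 R, lap (ψ t) y = 0 := fun y hy => lap_zero' hsl hR hz0 hy
      -- integrability
      have i2 : Integrable fun x => nsq (u t) x * (deriv (fun s => ψ s x) t + 1 * lap (ψ t) x) :=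
        int_csR (hnc.mul (hdtc.add (continuous_const.mul hlapc))) (a := z.2) (R := R)
          fun y hy => by rw [hdtz y hy, hlapz y hy]; simp
      have i3 : Integrable fun x => (nsq (u t) x + 2 * (p t x - c)) * adv (u t) (ψ t) x :=
        int_csR ((hnc.add (continuous_const.mul (hpt.continuous.sub continuous_const))).mul hadvc)
          (a := z.2) (R := R) fun y hy => by rw [hadvz y hy, mul_zero]
      have i4 : Integrable fun x => 2 * c * adv (u t) (ψ t) x :=
        int_csR (continuous_const.mul hadvc) (a := z.2) (R := R)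
          fun y hy => by rw [hadvz y hy, mul_zero]
      have e3 : ∫ x, (nsq (u t) x + 2 * p t x) * adv (u t) (ψ t) x
          = ∫ x, (nsq (u t) x + 2 * (p t x - c)) * adv (u t) (ψ t) x := by
        have e4 : ∀ x, (nsq (u t) x + 2 * p t x) * adv (u t) (ψ t) x
            = (nsq (u t) x + 2 * (p t x - c)) * adv (u t) (ψ t) x
              + 2 * c * adv (u t) (ψ t) x := fun x => by ring
        simp only [e4]
        rw [integral_add i3 i4, integral_const_mul,
          int_adv hut.1 (h.divfree t ht) hsl hcs, mul_zero, add_zero]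
      have hg0 : 0 ≤ ∫ x, gsq (u t) x * ψ t x :=
        integral_nonneg fun x => mul_nonneg (gsq_nn _ _) (bq_nn z R t x)
      have hDD : DD 1 u p ψ t ≤ ∫ y in ball z.2 R, K * (R⁻¹ * w t y + (R ^ 4)⁻¹) := by
        have h5 : DD 1 u p ψ t ≤ ∫ x, (nsq (u t) x * (deriv (fun s => ψ s x) t + 1 * lap (ψ t) x)
            + (nsq (u t) x + 2 * (p t x - c)) * adv (u t) (ψ t) x) := by
          rw [integral_add i2 i3]
          unfold DD
          rw [e3]
          linarith
        refine h5.trans ?_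
        rw [← ball_int_eq (a := z.2) (R := R) (f := fun x =>
          nsq (u t) x * (deriv (fun s => ψ s x) t + 1 * lap (ψ t) x)
            + (nsq (u t) x + 2 * (p t x - c)) * adv (u t) (ψ t) x)
          (fun y hy => by rw [hdtz y hy, hlapz y hy, hadvz y hy]; simp)]
        have hwc : Continuous fun y => K * (R⁻¹ * w t y + (R ^ 4)⁻¹) := by
          rw [hw]
          have q1 : Continuous fun y => ‖u t y‖ ^ 3 := hut.1.continuous.norm.pow 3
          have q2 : Continuous fun y => |p t y - mn R (p t) z.2| ^ (3 / 2 : ℝ) :=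
            ((hpt.continuous.sub continuous_const).abs).rpow_const fun _ => Or.inr (by norm_num)
          exact continuous_const.mul ((continuous_const.mul (q1.add q2)).add continuous_const)
        refine setIntegral_mono (i2.add i3).integrableOn (ballint hwc _ _) fun x => ?_
        obtain ⟨b1, b2, b3⟩ := hb z R t x hR
        set a := ‖u t x‖ with ha
        have ha0 : 0 ≤ a := norm_nonneg _
        have n1 := nsq_le3 (u t) x
        have n0 := nsq_nn (u t) x
        have n2 := adv_le3 (u t) b2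
        set b := |p t x - c| with hbb
        have hb0 : 0 ≤ b := abs_nonneg _
        have y1 := young_a ha0 hR
        have y2 := young_b ha0 hb0
        have m1 : nsq (u t) x * (deriv (fun s => ψ s x) t + 1 * lap (ψ t) x)
            ≤ (3 * a ^ 2) * (2 * (C / R ^ 2)) := by
          have : |deriv (fun s => ψ s x) t + 1 * lap (ψ t) x| ≤ 2 * (C / R ^ 2) := by
            refine (abs_add_le _ _).trans ?_
            rw [one_mul]
            linarith
          calc nsq (u t) x * (deriv (fun s => ψ s x) t + 1 * lap (ψ t) x)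
              ≤ nsq (u t) x * |deriv (fun s => ψ s x) t + 1 * lap (ψ t) x| :=
                mul_le_mul_of_nonneg_left (le_abs_self _) n0
            _ ≤ _ := mul_le_mul n1 this (abs_nonneg _) (by positivity)
        have m2 : (nsq (u t) x + 2 * (p t x - c)) * adv (u t) (ψ t) x
            ≤ (3 * a ^ 2 + 2 * b) * (3 * (C / R) * a) := by
          have : |nsq (u t) x + 2 * (p t x - c)| ≤ 3 * a ^ 2 + 2 * b := by
            refine (abs_add_le _ _).trans ?_
            rw [abs_of_nonneg n0, abs_mul, abs_two]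
            linarith
          calc (nsq (u t) x + 2 * (p t x - c)) * adv (u t) (ψ t) x
              ≤ |nsq (u t) x + 2 * (p t x - c)| * |adv (u t) (ψ t) x| := by
                rw [← abs_mul]
                exact le_abs_self _
            _ ≤ _ := mul_le_mul this n2 (abs_nonneg _) (by positivity)
        have m3 : (3 * a ^ 2) * (2 * (C / R ^ 2)) ≤ 6 * C * (R⁻¹ * a ^ 3 + (R ^ 4)⁻¹) := by
          calc (3 * a ^ 2) * (2 * (C / R ^ 2)) = 6 * C * (R ^ 2)⁻¹ * a ^ 2 := by ring
            _ ≤ 6 * C * (R ^ 2)⁻¹ * (R * a ^ 3 + (R ^ 2)⁻¹) :=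
                mul_le_mul_of_nonneg_left y1 (by positivity)
            _ = _ := by
                field_simp
        have m4 : (3 * a ^ 2 + 2 * b) * (3 * (C / R) * a)
            ≤ 9 * C * R⁻¹ * a ^ 3 + 6 * C * R⁻¹ * (a ^ 3 + b ^ (3 / 2 : ℝ)) := by
          have : 6 * C * R⁻¹ * (b * a) ≤ 6 * C * R⁻¹ * (a ^ 3 + b ^ (3 / 2 : ℝ)) :=
            mul_le_mul_of_nonneg_left y2 (by positivity)
          calc (3 * a ^ 2 + 2 * b) * (3 * (C / R) * a)
              = 9 * C * R⁻¹ * a ^ 3 + 6 * C * R⁻¹ * (b * a) := by ring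
            _ ≤ _ := by linarith
        have hbp : 0 ≤ b ^ (3 / 2 : ℝ) := by positivity
        have hcr : 0 ≤ C * R⁻¹ := by positivity
        have hcr4 : 0 ≤ C * (R ^ 4)⁻¹ := by positivity
        have ha3 : 0 ≤ a ^ 3 := by positivity
        have hp1 : 0 ≤ C * R⁻¹ * a ^ 3 := by positivity
        have hp2 : 0 ≤ C * R⁻¹ * b ^ (3 / 2 : ℝ) := by positivity
        have hgoal : K * (R⁻¹ * w t x + (R ^ 4)⁻¹)
            = 27 * (C * R⁻¹ * a ^ 3) + 27 * (C * R⁻¹ * b ^ (3 / 2 : ℝ)) + 27 * (C * (R ^ 4)⁻¹) := by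
          rw [hw, hK]
          ring
        rw [hgoal]
        linarith
      refine (ENNReal.ofReal_le_ofReal hDD).trans ofReal_int_le
    · have hzz : ∀ y, ψ t y = 0 := fun y => bq_t hR (by
        by_contra hc
        push Not at hc
        have := abs_lt.1 hc
        exact htJ ⟨by linarith [this.1], by linarith [this.2]⟩) y
      have hfun : ψ t = fun _ => 0 := funext hzz
      have e1 : DD 1 u p ψ t = 0 := by
        have hd : ∀ x, deriv (fun s => ψ s x) t = 0 := fun x =>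
          dt_min (fun t x => bq_nn z R t x) (hzz x)
        have hp : ∀ j : Fin 3, pd j (fun _ : V => (0 : ℝ)) = fun _ => 0 := fun j => by
          funext y
          exact Pool.Agent.W135.MD.pd_const' 0 j y
        have hl : ∀ x : V, lap (ψ t) x = 0 := fun x => by
          rw [hfun]
          unfold lap
          simp only [hp]
          exact Finset.sum_const_zero
        have ha : ∀ x : V, adv (u t) (ψ t) x = 0 := fun x => by
          rw [hfun]
          unfold adv
          simp only [hp, mul_zero, Finset.sum_const_zero]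
        unfold DD
        simp only [hd, hl, ha, hzz, mul_zero, add_zero, integral_zero]
      rw [e1, ENNReal.ofReal_zero]
      exact zero_le
  -- the integral
  have hvolJ : volume J ≤ ENNReal.ofReal (2 * R ^ 2) := by
    refine (measure_mono inter_subset_right).trans ?_
    rw [Real.volume_Ioo]
    exact le_of_eq (by congr 1; ring)
  have hvolB : volume (ball z.2 R) = ENNReal.ofReal ((2 * R) ^ 3) := by
    rw [Real.volume_pi_ball _ hR]
    simp
  have hw2 : ∀ t y, ENNReal.ofReal (K * (R⁻¹ * w t y + (R ^ 4)⁻¹))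
      = ENNReal.ofReal (K * R⁻¹) * ENNReal.ofReal (w t y) + ENNReal.ofReal (K * (R ^ 4)⁻¹) := by
    intro t y
    rw [← ENNReal.ofReal_mul (by positivity), ← ENNReal.ofReal_add
      (mul_nonneg (by positivity) (hw0 t y)) (by positivity)]
    congr 1
    ring
  set X : ℝ≥0∞ := ∫⁻ t in J, ∫⁻ y in ball z.2 R, ENNReal.ofReal (w t y) with hX
  have hXq : X = ENNReal.ofReal (R ^ 2) * qq G u p z R := by
    rw [show qq G u p z R = X / ENNReal.ofReal (R ^ 2) from rfl]
    rw [ENNReal.mul_div_cancel (ENNReal.ofReal_pos.2 (by positivity)).ne' ENNReal.ofReal_ne_top]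
  calc ENNReal.ofReal (Df G u p ψ) ≤ ∫⁻ t in G, ENNReal.ofReal (DD 1 u p ψ t) := ofReal_int_le
    _ ≤ ∫⁻ t in G, J.indicator (fun t => ∫⁻ y in ball z.2 R,
          ENNReal.ofReal (K * (R⁻¹ * w t y + (R ^ 4)⁻¹))) t :=
        setLIntegral_mono' h.openG.measurableSet key
    _ ≤ ∫⁻ t, J.indicator (fun t => ∫⁻ y in ball z.2 R,
          ENNReal.ofReal (K * (R⁻¹ * w t y + (R ^ 4)⁻¹))) t := setLIntegral_le_lintegral _ _
    _ = ∫⁻ t in J, ∫⁻ y in ball z.2 R, ENNReal.ofReal (K * (R⁻¹ * w t y + (R ^ 4)⁻¹)) :=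
        lintegral_indicator hJm _
    _ = ∫⁻ t in J, (ENNReal.ofReal (K * R⁻¹) * (∫⁻ y in ball z.2 R, ENNReal.ofReal (w t y))
          + ENNReal.ofReal (K * (R ^ 4)⁻¹) * ENNReal.ofReal ((2 * R) ^ 3)) := by
        refine lintegral_congr fun t => ?_
        simp only [hw2]
        rw [lintegral_add_right _ measurable_const, lintegral_const_mul' _ _ ENNReal.ofReal_ne_top,
          lintegral_const, Measure.restrict_apply_univ, hvolB]
    _ = ENNReal.ofReal (K * R⁻¹) * X + ENNReal.ofReal (K * (R ^ 4)⁻¹)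
          * ENNReal.ofReal ((2 * R) ^ 3) * volume J := by
        rw [lintegral_add_right _ measurable_const, lintegral_const_mul' _ _ ENNReal.ofReal_ne_top,
          lintegral_const, Measure.restrict_apply_univ]
    _ ≤ ENNReal.ofReal (K * R⁻¹) * X + ENNReal.ofReal (K * (R ^ 4)⁻¹)
          * ENNReal.ofReal ((2 * R) ^ 3) * ENNReal.ofReal (2 * R ^ 2) := by gcongr
    _ = ENNReal.ofReal (K * R) * qq G u p z R + ENNReal.ofReal (16 * K * R) := by
        rw [hXq, ← mul_assoc, ← ENNReal.ofReal_mul (by positivity),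
          ← ENNReal.ofReal_mul (by positivity), ← ENNReal.ofReal_mul (by positivity)]
        congr 2
        · congr 1
          field_simp
        · field_simp
          ring
    _ ≤ ENNReal.ofReal (16 * K * R) * (1 + qq G u p z R) := by
        rw [mul_add, mul_one, add_comm]
        gcongr
        nlinarith [mul_pos (show 0 < K by positivity) hR]

end Pool.Agent.Q62.SD
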