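import Pool.Agent.Y8.Asm3
import Pool.Agent.Y8.WFrame
import Pool.Agent.Q193.NS.Final3
import Pool.Agent.Q62.SD.Reg

/-!
Dissipation near singular points where the scale invariant quantity is bounded (helper62).
-/

set_option autoImplicit false

open MeasureTheory Set Metric Filter Topology
open scoped ContDiff ENNReal

namespace Pool.Agent.Q62.SD

open H459R3.NS W221.NS Pool.Agent.Y8 Pool.Agent.Q193.NS

/-- The mean is bounded by the mean of the norm. -/
lemma mo_le1 : ∃ K : ℝ, 1 ≤ K ∧ ∀ (w : V → V), Continuous w → ∀ (r : ℝ) (x : V), 0 < r →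
    ‖mo r w x‖ ≤ K * (r ^ 3)⁻¹ * ∫ z in ball x r, ‖w z‖ := by
  obtain ⟨K, hK, hK1, -, -, -⟩ := th_bd
  refine ⟨K, hK, fun w hw r x hr => ?_⟩
  have hK0 : 0 ≤ K := zero_le_one.trans hK
  have hI0 : 0 ≤ ∫ z in ball x r, ‖w z‖ := integral_nonneg fun z => norm_nonneg _
  rw [pi_norm_le_iff_of_nonneg (by positivity)]
  intro i
  rw [mo_eq hr w x i, ← ball_int_eq (a := x) (R := r) (f := fun z => w z i * kx r x z)
    (fun z hz => by rw [kx_z hr hz, mul_zero]), ← integral_const_mul]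
  refine norm_integral_le_of_norm_le (ballint (continuous_const.mul hw.norm) _ _)
    (ae_of_all _ fun z => ?_)
  rw [norm_mul]
  have h1 : ‖w z i‖ ≤ ‖w z‖ := norm_le_pi_norm (w z) i
  have h2 : ‖kx r x z‖ ≤ K * (r ^ 3)⁻¹ := by
    rw [Real.norm_eq_abs, abs_of_nonneg (kx_nn hr x z), mul_comm]
    unfold kx
    exact mul_le_mul_of_nonneg_left (hK1 _) (by positivity)
  calc ‖w z i‖ * ‖kx r x z‖ ≤ ‖w z‖ * (K * (r ^ 3)⁻¹) :=
        mul_le_mul h1 h2 (norm_nonneg _) (norm_nonneg _)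
    _ = _ := mul_comm _ _

lemma young_c {a l : ℝ} (ha : 0 ≤ a) (hl : 0 < l) : a ≤ l ^ 2 * a ^ 3 + l⁻¹ := by
  rcases le_total (l * a) 1 with h | h
  · have h1 : a ≤ l⁻¹ := by
      rw [← one_div, le_div_iff₀ hl]
      linarith
    have : 0 ≤ l ^ 2 * a ^ 3 := by positivity
    linarith
  · have h1 : 1 ≤ (l * a) ^ 2 := one_le_pow₀ h
    have h2 : a * 1 ≤ a * (l * a) ^ 2 := mul_le_mul_of_nonneg_left h1 ha
    have h3 : 0 ≤ l⁻¹ := by positivity
    nlinarith

/-- The mean and the cube of the velocity. -/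
lemma mo_le3 : ∃ K : ℝ, 1 ≤ K ∧ ∀ (w : V → V), Continuous w → ∀ (r R l : ℝ) (x x₀ : V), 0 < r →
    0 < l → ball x r ⊆ ball x₀ R → ENNReal.ofReal ‖mo r w x‖
      ≤ ENNReal.ofReal (K * (r ^ 3)⁻¹ * l ^ 2) * (∫⁻ y in ball x₀ R, ENNReal.ofReal (‖w y‖ ^ 3))
        + ENNReal.ofReal (8 * K * l⁻¹) := by
  obtain ⟨K, hK, hmo⟩ := mo_le1
  refine ⟨K, hK, fun w hw r R l x x₀ hr hl hsub => ?_⟩
  have hK0 : 0 ≤ K := zero_le_one.trans hK
  have hvol : volume (ball x r) = ENNReal.ofReal ((2 * r) ^ 3) := by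
    rw [Real.volume_pi_ball _ hr]
    simp
  calc ENNReal.ofReal ‖mo r w x‖ ≤ ENNReal.ofReal (K * (r ^ 3)⁻¹ * ∫ z in ball x r, ‖w z‖) :=
        ENNReal.ofReal_le_ofReal (hmo w hw r x hr)
    _ = ENNReal.ofReal (K * (r ^ 3)⁻¹) * ENNReal.ofReal (∫ z in ball x r, ‖w z‖) :=
        ENNReal.ofReal_mul (by positivity)
    _ ≤ ENNReal.ofReal (K * (r ^ 3)⁻¹) * ∫⁻ z in ball x r, ENNReal.ofReal ‖w z‖ := by
        gcongr
        exact ofReal_int_le
    _ ≤ ENNReal.ofReal (K * (r ^ 3)⁻¹) * ∫⁻ z in ball x r,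
          (ENNReal.ofReal (l ^ 2) * ENNReal.ofReal (‖w z‖ ^ 3) + ENNReal.ofReal l⁻¹) := by
        gcongr with z
        rw [← ENNReal.ofReal_mul (by positivity), ← ENNReal.ofReal_add (by positivity)
          (by positivity)]
        exact ENNReal.ofReal_le_ofReal (young_c (norm_nonneg _) hl)
    _ = ENNReal.ofReal (K * (r ^ 3)⁻¹) * (ENNReal.ofReal (l ^ 2)
          * (∫⁻ z in ball x r, ENNReal.ofReal (‖w z‖ ^ 3))
          + ENNReal.ofReal l⁻¹ * ENNReal.ofReal ((2 * r) ^ 3)) := by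
        rw [lintegral_add_right _ measurable_const, lintegral_const_mul' _ _ ENNReal.ofReal_ne_top,
          lintegral_const, Measure.restrict_apply_univ, hvol]
    _ ≤ ENNReal.ofReal (K * (r ^ 3)⁻¹) * (ENNReal.ofReal (l ^ 2)
          * (∫⁻ z in ball x₀ R, ENNReal.ofReal (‖w z‖ ^ 3))
          + ENNReal.ofReal l⁻¹ * ENNReal.ofReal ((2 * r) ^ 3)) := by
        gcongr
    _ = _ := by
        rw [mul_add, ← mul_assoc, ← ENNReal.ofReal_mul (by positivity),
          ← ENNReal.ofReal_mul (by positivity), ← ENNReal.ofReal_mul (by positivity)]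
        congr 2
        field_simp
        ring

/-- Bootstrap. -/
lemma boot {f : ℝ → ℝ} {a b ρ : ℝ} (hf : ContinuousOn f (Icc a b)) (hρ : 0 < ρ)
    (h0 : f a ≤ ρ / 2) (h : ∀ t ∈ Icc a b, (∀ τ ∈ Icc a t, f τ ≤ ρ) → f t ≤ ρ / 2) :
    ∀ t ∈ Icc a b, f t ≤ ρ / 2 := by
  by_contra hcon
  push Not at hcon
  obtain ⟨t1, ht1, hft1⟩ := hcon
  have hex : ∃ τ ∈ Icc a t1, ρ < f τ := by
    by_contra hc
    push Not at hc
    exact absurd (h t1 ht1 hc) (not_le.2 hft1)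
  obtain ⟨τ1, hτ1, hfτ1⟩ := hex
  set S : Set ℝ := Icc a b ∩ f ⁻¹' Ici ρ with hS
  have hSc : IsClosed S := hf.preimage_isClosed_of_isClosed isClosed_Icc isClosed_Ici
  have hSne : S.Nonempty := ⟨τ1, ⟨hτ1.1, hτ1.2.trans ht1.2⟩, hfτ1.le⟩
  have hSK : IsCompact S := isCompact_Icc.of_isClosed_subset hSc inter_subset_left
  have hmem := hSK.sInf_mem hSne
  set s := sInf S with hs
  have hlow : ∀ τ ∈ Icc a b, τ < s → f τ < ρ := by
    intro τ hτ hτs
    by_contra hc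
    push Not at hc
    exact absurd (csInf_le hSK.bddBelow (show τ ∈ S from ⟨hτ, hc⟩)) (not_le.2 hτs)
  have hsI : s ∈ Icc a b := hmem.1
  have has : a < s := by
    rcases eq_or_lt_of_le hsI.1 with he | hl
    · exfalso
      have h1 : ρ ≤ f s := hmem.2
      rw [← he] at h1
      linarith
    · exact hl
  have hfs : f s ≤ ρ := by
    have h1 : Tendsto f (𝓝[Ioo a s] s) (𝓝 (f s)) :=
      (hf s hsI).mono_left (nhdsWithin_mono _ fun τ hτ => ⟨hτ.1.le, (hτ.2.le).trans hsI.2⟩)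
    have : (𝓝[Ioo a s] s).NeBot := right_nhdsWithin_Ioo_neBot has
    refine le_of_tendsto h1 ?_
    filter_upwards [self_mem_nhdsWithin] with τ hτ
    exact (hlow τ ⟨hτ.1.le, hτ.2.le.trans hsI.2⟩ hτ.2).le
  have h2 := h s hsI fun τ hτ => by
    rcases eq_or_lt_of_le hτ.2 with he | hl
    · rw [he]
      exact hfs
    · exact (hlow τ ⟨hτ.1, hτ.2.trans hsI.2⟩ hl).le
  have h3 : ρ ≤ f s := hmem.2
  linarith

section

variable {T E D r B C : ℝ} {G : Set ℝ} {u : ℝ → V → V} {p : ℝ → V → ℝ}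

/-- The length of a path. -/
lemma path_le : ∃ K : ℝ, 1 ≤ K ∧ ∀ (T E D r B C : ℝ) (G : Set ℝ) (u : ℝ → V → V) (p : ℝ → V → ℝ),
    Turb 1 T E D G u p → ∀ X Y : ℝ → V, FPath T r B C G u p X Y → 0 < r →
    ∀ (x₀ : V) (R ρ l a b : ℝ), ρ + r ≤ R → 0 < l → 0 < a → a ≤ b → b < T →
      (∀ τ ∈ Icc a b, ‖X τ - x₀‖ ≤ ρ) → ENNReal.ofReal ‖X b - X a‖
        ≤ ENNReal.ofReal (K * (r ^ 3)⁻¹ * l ^ 2) *
          (∫⁻ t in G ∩ Ioo a b, ∫⁻ y in ball x₀ R, ENNReal.ofReal (‖u t y‖ ^ 3))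
          + ENNReal.ofReal (8 * K * l⁻¹ * (b - a)) := by
  obtain ⟨K, hK, hmo⟩ := mo_le3
  refine ⟨K, hK, fun T E D r B C G u p h X Y hP hr x₀ R ρ l a b hρR hl ha hab hb hX => ?_⟩
  have hK0 : 0 ≤ K := zero_le_one.trans hK
  have hYc : ContinuousOn Y (Icc a b) := (FPath.yc h hP).mono fun t ht =>
    ⟨ha.trans_le ht.1, ht.2.trans_lt hb⟩
  have h1 : ∫ t in a..b, Y t = X b - X a := by
    refine intervalIntegral.integral_eq_sub_of_hasDerivAt (fun t ht => ?_) ?_
    · rw [uIcc_of_le hab] at ht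
      exact hP.hd t ⟨ha.trans_le ht.1, ht.2.trans_lt hb⟩
    · refine ContinuousOn.intervalIntegrable ?_
      rw [uIcc_of_le hab]
      exact hYc
  rw [← h1, ofReal_norm_eq_enorm, intervalIntegral.integral_of_le hab,
    integral_Ioc_eq_integral_Ioo]
  refine (enorm_integral_le_lintegral_enorm _).trans ?_
  have hae : (G ∩ Ioo a b : Set ℝ) =ᵐ[volume] (Ioo a b : Set ℝ) := by
    refine (ae_eq_set).2 ⟨?_, ?_⟩
    · have : (G ∩ Ioo a b) \ Ioo a b = ∅ := by
        ext τ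
        simp only [Set.mem_sdiff, mem_inter_iff, mem_empty_iff_false, iff_false]
        tauto
      rw [this]
      exact measure_empty
    · refine measure_mono_null (fun τ hτ => ?_) h.fullG
      exact ⟨⟨ha.trans hτ.1.1, hτ.1.2.trans hb⟩, fun hc => hτ.2 ⟨hc, hτ.1⟩⟩
  rw [← setLIntegral_congr hae]
  have hvol : volume (G ∩ Ioo a b) = ENNReal.ofReal (b - a) := by
    rw [measure_congr hae, Real.volume_Ioo]
  have hm : MeasurableSet (G ∩ Ioo a b) := h.openG.measurableSet.inter measurableSet_Ioo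
  calc ∫⁻ t in G ∩ Ioo a b, ‖Y t‖ₑ
      ≤ ∫⁻ t in G ∩ Ioo a b, (ENNReal.ofReal (K * (r ^ 3)⁻¹ * l ^ 2) *
          (∫⁻ y in ball x₀ R, ENNReal.ofReal (‖u t y‖ ^ 3)) + ENNReal.ofReal (8 * K * l⁻¹)) := by
        refine setLIntegral_mono' hm fun t ht => ?_
        rw [hP.ev t ht.1, ← ofReal_norm_eq_enorm]
        refine hmo (u t) (h.spv ht.1).1.continuous r R l (X t) x₀ hr hl (ball_subset_ball' ?_)
        have := hX t ⟨ht.2.1.le, ht.2.2.le⟩
        rw [dist_eq_norm]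
        linarith
    _ = _ := by
        rw [lintegral_add_right _ measurable_const, lintegral_const_mul' _ _ ENNReal.ofReal_ne_top,
          lintegral_const, Measure.restrict_apply_univ, hvol,
          ← ENNReal.ofReal_mul (by positivity)]

/-- Dissipation near singular points where the scale invariant quantity is bounded. -/
theorem diss (M : ℝ) (hM : 1 ≤ M) : ∃ c : ℝ, 0 < c ∧ ∀ (T E D : ℝ) (G : Set ℝ) (u : ℝ → V → V)
    (p : ℝ → V → ℝ), Turb 1 T E D G u p → ∀ (z : ℝ × V) (R : ℝ), 0 < R → R ≤ 1 →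
      0 < z.1 - R ^ 2 → z.1 + R ^ 2 < T → SingPt G u z.1 z.2 → qq G u p z R ≤ ENNReal.ofReal M →
      ENNReal.ofReal (c * R) ≤ ∫⁻ t in Ioo (z.1 - (R / 10) ^ 2) (z.1 + (R / 10) ^ 2),
        ∫⁻ y in ball z.2 (R / 10), gG G u (t, y) := by
  obtain ⟨ε, hε, hcrit⟩ := Pool.Agent.Y8.B.p_crit3
  obtain ⟨K', hK', hpath⟩ := Pool.Agent.Y8.B.p_wpath
  obtain ⟨K, hK, hlen⟩ := path_le
  have hK0 : 0 < K := zero_lt_one.trans_le hK
  have hM0 : 0 < M := zero_lt_one.trans_le hM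
  set κ : ℝ := (32768000 * K ^ 3 * M)⁻¹ with hκ
  have hκ0 : 0 < κ := by positivity
  have hKM : 1 ≤ K ^ 3 * M := by
    have : 1 ≤ K ^ 3 := one_le_pow₀ hK
    nlinarith
  have hκ1 : κ ≤ 1 / 160 := by
    rw [hκ, inv_le_comm₀ (by positivity) (by norm_num)]
    norm_num
    nlinarith
  refine ⟨ε * κ, by positivity, fun T E D G u p h z R hR hR1 h1 h2 hsing hq => ?_⟩
  set r : ℝ := κ * R with hr
  have hr0 : 0 < r := by positivity
  have hrR : r ≤ R / 160 := by
    rw [hr]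
    nlinarith
  have hr1 : r ≤ 1 := by linarith
  obtain ⟨C, hC, hex⟩ := hpath E r hr0 hr1
  have hz : z.1 ∈ Ioo 0 T := ⟨by nlinarith, by nlinarith⟩
  obtain ⟨X, Y, hX0, hP⟩ := hex T D G u p h z.1 hz z.2
  have hR2 : r ^ 2 ≤ (R / 160) ^ 2 := pow_le_pow_left₀ hr0.le hrR 2
  have hR2' : 0 < R ^ 2 := by positivity
  have hr2 : 0 < r ^ 2 := by positivity
  have hR3 : (R / 160) ^ 2 = R ^ 2 / 25600 := by ring
  -- the cube of the velocity
  have hA3 : ∀ a b : ℝ, z.1 - R ^ 2 ≤ a → b ≤ z.1 + R ^ 2 →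
      ∫⁻ t in G ∩ Ioo a b, ∫⁻ y in ball z.2 R, ENNReal.ofReal (‖u t y‖ ^ 3)
        ≤ ENNReal.ofReal (M * R ^ 2) := by
    intro a b ha hb
    have g1 : ∫⁻ t in G ∩ Ioo a b, ∫⁻ y in ball z.2 R, ENNReal.ofReal (‖u t y‖ ^ 3)
        ≤ ∫⁻ t in G ∩ Ioo (z.1 - R ^ 2) (z.1 + R ^ 2), ∫⁻ y in ball z.2 R,
          ENNReal.ofReal (‖u t y‖ ^ 3 + |p t y - mn R (p t) z.2| ^ (3 / 2 : ℝ)) := by
      refine (lintegral_mono_set (inter_subset_inter_right _ (Ioo_subset_Ioo ha hb))).trans ?_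
      refine lintegral_mono fun t => lintegral_mono fun y => ENNReal.ofReal_le_ofReal ?_
      have : 0 ≤ |p t y - mn R (p t) z.2| ^ (3 / 2 : ℝ) := by positivity
      linarith
    refine g1.trans ?_
    unfold qq at hq
    rw [ENNReal.div_le_iff (ENNReal.ofReal_pos.2 hR2').ne' ENNReal.ofReal_ne_top,
      ← ENNReal.ofReal_mul hM0.le] at hq
    exact hq
  -- the path stays near the point
  set l : ℝ := (640 * K * κ) * r with hl
  have hl0 : 0 < l := by positivity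
  have hnum : K * (r ^ 3)⁻¹ * l ^ 2 * (M * R ^ 2) + 8 * K * l⁻¹ * r ^ 2 ≤ R / 20 / 2 := by
    have e1 : K * (r ^ 3)⁻¹ * l ^ 2 * (M * R ^ 2) = 409600 * K ^ 3 * κ * M * R := by
      rw [hl, hr]
      field_simp
      ring
    have e2 : 8 * K * l⁻¹ * r ^ 2 = R / 80 := by
      rw [hl, hr]
      field_simp
      ring
    have e3 : 409600 * K ^ 3 * κ * M * R = R / 80 := by
      rw [hκ]
      field_simp
      ring
    rw [e1, e2, e3]
    linarith
  have hstep : ∀ a b : ℝ, z.1 - r ^ 2 ≤ a → a ≤ b → b ≤ z.1 + r ^ 2 → b - a ≤ r ^ 2 →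
      (∀ τ ∈ Icc a b, ‖X τ - z.2‖ ≤ R / 20) → ‖X b - X a‖ ≤ R / 20 / 2 := by
    intro a b ha hab hb hba hXab
    have g1 := hlen T E D r _ C G u p h X Y hP hr0 z.2 R (R / 20) l a b (by linarith) hl0
      (by nlinarith) hab (by nlinarith) hXab
    have g2 : ENNReal.ofReal ‖X b - X a‖ ≤ ENNReal.ofReal (R / 20 / 2) := by
      refine g1.trans ?_
      calc ENNReal.ofReal (K * (r ^ 3)⁻¹ * l ^ 2) *
            (∫⁻ t in G ∩ Ioo a b, ∫⁻ y in ball z.2 R, ENNReal.ofReal (‖u t y‖ ^ 3))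
            + ENNReal.ofReal (8 * K * l⁻¹ * (b - a))
          ≤ ENNReal.ofReal (K * (r ^ 3)⁻¹ * l ^ 2) * ENNReal.ofReal (M * R ^ 2)
            + ENNReal.ofReal (8 * K * l⁻¹ * r ^ 2) := by
              gcongr
              exact hA3 a b (by nlinarith) (by nlinarith)
        _ = ENNReal.ofReal (K * (r ^ 3)⁻¹ * l ^ 2 * (M * R ^ 2) + 8 * K * l⁻¹ * r ^ 2) := by
              rw [← ENNReal.ofReal_mul (by positivity), ← ENNReal.ofReal_add (by positivity)
                (by positivity)]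
        _ ≤ _ := ENNReal.ofReal_le_ofReal hnum
    exact (ENNReal.ofReal_le_ofReal_iff (by positivity)).1 g2
  have hXc : ContinuousOn X (Ioo 0 T) := fun t ht => (hP.hd t ht).continuousAt.continuousWithinAt
  have hfwd : ∀ t ∈ Icc z.1 (z.1 + r ^ 2), ‖X t - z.2‖ ≤ R / 20 / 2 := by
    refine boot (f := fun t => ‖X t - z.2‖) ?_ (by positivity) ?_ ?_
    · refine ((hXc.mono fun t ht => ?_).sub continuousOn_const).norm
      exact ⟨hz.1.trans_le ht.1, ht.2.trans_lt (by nlinarith)⟩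
    · beta_reduce
      rw [hX0, sub_self, norm_zero]
      positivity
    · intro t ht hτ
      have := hstep z.1 t (by linarith) ht.1 ht.2 (by linarith [ht.2]) hτ
      rwa [hX0] at this
  have hbwd : ∀ t ∈ Icc (z.1 - r ^ 2) z.1, ‖X t - z.2‖ ≤ R / 20 / 2 := by
    have g : ∀ t ∈ Icc z.1 (z.1 + r ^ 2), ‖X (2 * z.1 - t) - z.2‖ ≤ R / 20 / 2 := by
      refine boot (f := fun t => ‖X (2 * z.1 - t) - z.2‖) ?_ (by positivity) ?_ ?_
      · refine ContinuousOn.norm (ContinuousOn.sub ?_ continuousOn_const)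
        refine hXc.comp (continuousOn_const.sub continuousOn_id) fun t ht => ?_
        have g1 := ht.1
        have g2 := ht.2
        constructor
        · nlinarith
        · nlinarith
      · beta_reduce
        rw [show 2 * z.1 - z.1 = z.1 by ring, hX0, sub_self, norm_zero]
        positivity
      · intro t ht hτ
        have := hstep (2 * z.1 - t) z.1 (by linarith [ht.2]) (by linarith [ht.1]) (by linarith)
          (by linarith [ht.2]) fun τ hτ' => by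
            have g1 := hτ (2 * z.1 - τ) ⟨by linarith [hτ'.2], by linarith [hτ'.1]⟩
            beta_reduce at g1
            rwa [show 2 * z.1 - (2 * z.1 - τ) = τ by ring] at g1
        rwa [hX0, norm_sub_rev] at this
    intro t ht
    have := g (2 * z.1 - t) ⟨by linarith [ht.2], by linarith [ht.1]⟩
    rwa [show 2 * z.1 - (2 * z.1 - t) = t by ring] at this
  have hall : ∀ t ∈ Icc (z.1 - r ^ 2) (z.1 + r ^ 2), ‖X t - z.2‖ ≤ R / 40 := by
    intro t ht
    rcases le_total t z.1 with hle | hle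
    · have := hbwd t ⟨ht.1, hle⟩
      linarith
    · have := hfwd t ⟨hle, ht.2⟩
      linarith
  -- the criterion
  set s : ℝ := z.1 + r ^ 2 / 32 with hs
  have hc := hcrit T E D G u p h r s hr0 hr1 (by nlinarith) (by nlinarith) X Y _ C hP z.1
    ⟨by linarith, by linarith⟩ z.2 (by
      rw [hX0]
      exact mem_ball_self (by positivity)) hsing
  have hae : ∀ᵐ t ∂(volume.restrict (Ioo (s - r ^ 2) s)), t ∈ G :=
    aeT h (by nlinarith) (by nlinarith)
  calc ENNReal.ofReal (ε * κ * R) = ENNReal.ofReal (ε * r) := by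
        rw [hr]
        congr 1
        ring
    _ ≤ ENNReal.ofReal (∫ t in Ioo (s - r ^ 2) s, B2 (X t) (8 * r) (u t)) :=
        ENNReal.ofReal_le_ofReal hc
    _ ≤ ∫⁻ t in Ioo (s - r ^ 2) s, ENNReal.ofReal (B2 (X t) (8 * r) (u t)) := ofReal_int_le
    _ ≤ ∫⁻ t in Ioo (s - r ^ 2) s, ∫⁻ y in ball z.2 (R / 10), gG G u (t, y) := by
        refine lintegral_mono_ae ?_
        filter_upwards [hae, ae_restrict_mem measurableSet_Ioo] with t ht htI
        unfold B2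
        refine ofReal_int_le.trans ?_
        refine (lintegral_mono_set (ball_subset_ball' (y := z.2) (ε₂ := R / 10) ?_)).trans
          (le_of_eq (lintegral_congr fun y => (gG_eq ht y).symm))
        have := hall t ⟨by linarith [htI.1], by linarith [htI.2]⟩
        rw [dist_eq_norm]
        linarith
    _ ≤ _ := by
        refine lintegral_mono_set (Ioo_subset_Ioo ?_ ?_)
        · nlinarith
        · nlinarith

end

end Pool.Agent.Q62.SD
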