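import Pool.Agent.Y8.Mod
import Pool.Agent.Y494.NS.TCUT
import Pool.Agent.Q62.SD.Bump

/-!
The increments of the local energy where the velocity is bounded (helper62).
-/

set_option autoImplicit false

open MeasureTheory Set Metric Filter Topology
open scoped ContDiff ENNReal

namespace Pool.Agent.Q62.SD

open H459R3.NS W221.NS Pool.Agent.Y8 Pool.Agent.W583.MD

/-- Integration by parts. -/
lemma ibp_lap {f g : V → ℝ} (hf : ContDiff ℝ ∞ f) (hg : ContDiff ℝ ∞ g)
    (hc : HasCompactSupport g) :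
    Integrable (fun x => f x * lap g x) ∧ Integrable (fun x => ∑ j, pd j f x * pd j g x) ∧
    ∫ x, f x * lap g x = -∫ x, ∑ j, pd j f x * pd j g x := by
  have hp := fun j => sm_pd hg j
  have hpc := fun j => cs_pd hc j
  have hfp := fun j => sm_pd hf j
  have i1 : Integrable (fun x => f x * lap g x) := by
    refine int_cs (hf.continuous.mul ?_) ?_
    · unfold lap
      exact continuous_finsetSum _ fun j _ => (sm_pd (hp j) j).continuous
    · refine HasCompactSupport.mul_left ?_
      have : (fun x => lap g x) = fun x => ∑ j, pd j (pd j g) x := rfl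
      change HasCompactSupport (fun x => lap g x)
      rw [this]
      simp only [Fin.sum_univ_three]
      exact ((cs_pd (hpc 0) 0).add (cs_pd (hpc 1) 1)).add (cs_pd (hpc 2) 2)
  have i2 : Integrable (fun x => ∑ j, pd j f x * pd j g x) :=
    integrable_finsetSum _ fun j _ => int_cs ((hfp j).continuous.mul (hp j).continuous)
      ((hpc j).mul_left)
  refine ⟨i1, i2, ?_⟩
  have h1 : Z (fun x => ∑ j, pd j (fun y => f y * pd j g y) x) :=
    Z.sum fun j => Z_pd (hf.mul (hp j)) ((hpc j).mul_left) j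
  have e : (fun x => ∑ j, pd j (fun y => f y * pd j g y) x)
      = fun x => f x * lap g x + ∑ j, pd j f x * pd j g x := by
    funext x
    have h2 : ∀ j, pd j (fun y => f y * pd j g y) x = f x * pd j (pd j g) x
        + pd j f x * pd j g x := fun j => pd_mul' hf (hp j) j x
    simp only [h2, Finset.sum_add_distrib]
    unfold lap
    rw [Finset.mul_sum]
  rw [e] at h1
  have h3 := h1.2
  rw [integral_add i1 i2] at h3
  linarith

/-- The bound at one time. -/
lemma inc_at {x₀ : V} {δ B M : ℝ} (hδ : 0 < δ) (hB : 0 ≤ B) (hM : 0 ≤ M) {χ : V → ℝ}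
    (hχ : ContDiff ℝ ∞ χ) (hχ0 : ∀ x ∉ ball x₀ δ, χ x = 0) (hχ1 : ∀ x, |χ x| ≤ 1)
    (hχM : ∀ x j, |pd j χ x| ≤ M) {U a b : V → V} {P : V → ℝ} (hU : ContDiff ℝ ∞ U)
    (ha : ContDiff ℝ ∞ a) (hb : ContDiff ℝ ∞ b) (hP : ContDiff ℝ ∞ P)
    (hda : ∀ x, ∑ i, pd i (fun y => a y i) x = 0) (hdb : ∀ x, ∑ i, pd i (fun y => b y i) x = 0)
    (hUB : ∀ x ∈ ball x₀ δ, ‖U x‖ ≤ B) (haB : ∀ x ∈ ball x₀ δ, ‖a x‖ ≤ B)
    (hbB : ∀ x ∈ ball x₀ δ, ‖b x‖ ≤ B) :
    |∑ i, ∫ x, (U x i * lap (fun y => (a y i + b y i) * χ y) x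
        + U x i * adv U (fun y => (a y i + b y i) * χ y) x
        + P x * pd i (fun y => (a y i + b y i) * χ y) x)|
      ≤ (72 * (1 + B ^ 2) * (1 + B * M) ^ 2) *
        ∫ x in ball x₀ δ, (MM U P x + gsq a x + gsq b x) := by
  have hUi : ∀ i, ContDiff ℝ ∞ (fun y => U y i) := fun i => contDiff_pi.1 hU i
  have hai : ∀ i, ContDiff ℝ ∞ (fun y => a y i) := fun i => contDiff_pi.1 ha i
  have hbi : ∀ i, ContDiff ℝ ∞ (fun y => b y i) := fun i => contDiff_pi.1 hb i
  have hW : ∀ i, ContDiff ℝ ∞ (fun y => a y i + b y i) := fun i => (hai i).add (hbi i)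
  set f : Fin 3 → V → ℝ := fun i y => (a y i + b y i) * χ y with hf
  have hfs : ∀ i, ContDiff ℝ ∞ (f i) := fun i => (hW i).mul hχ
  have hf0 : ∀ i, ∀ x ∉ ball x₀ δ, f i x = 0 := fun i x hx => by
    rw [hf]
    beta_reduce
    rw [hχ0 x hx, mul_zero]
  have hfc : ∀ i, HasCompactSupport (f i) := fun i => hcsR (hf0 i)
  have hpf : ∀ i j x, pd j (f i) x = (a x i + b x i) * pd j χ x
      + (pd j (fun y => a y i) x + pd j (fun y => b y i) x) * χ x := by
    intro i j x
    have h1 := pd_mul' (hW i) hχ j x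
    have h2 := Pool.Agent.W135.MD.pd_add' ((hai i).differentiable (by simp))
      ((hbi i).differentiable (by simp)) j x
    rw [h2] at h1
    exact h1
  have hpd0 : ∀ i j, ∀ x ∉ ball x₀ δ, pd j (f i) x = 0 := fun i j x hx =>
    pd_zero' (hfs i) hδ (hf0 i) hx j
  -- integrability
  have hpc : ∀ i j, Continuous (pd j (f i)) := fun i j => (sm_pd (hfs i) j).continuous
  have hUc : ∀ i, Continuous fun y => U y i := fun i => (hUi i).continuous
  have hadv : ∀ i, Continuous (adv U (f i)) := fun i => by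
    unfold adv
    exact continuous_finsetSum _ fun j _ => (hUc j).mul (hpc i j)
  have hadv0 : ∀ i, ∀ x ∉ ball x₀ δ, adv U (f i) x = 0 := fun i x hx => by
    unfold adv
    exact Finset.sum_eq_zero fun j _ => by rw [hpd0 i j x hx, mul_zero]
  have i1 := fun i => ibp_lap (hUi i) (hfs i) (hfc i)
  have i2 : ∀ i, Integrable fun x => U x i * adv U (f i) x := fun i =>
    int_csR ((hUc i).mul (hadv i)) (a := x₀) (R := δ) fun x hx => by
      rw [hadv0 i x hx, mul_zero]
  have i3 : ∀ i, Integrable fun x => P x * pd i (f i) x := fun i =>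
    int_csR (hP.continuous.mul (hpc i i)) (a := x₀) (R := δ) fun x hx => by
      rw [hpd0 i i x hx, mul_zero]
  set F : V → ℝ := fun x => ∑ i, (-(∑ j, pd j (fun y => U y i) x * pd j (f i) x)
    + U x i * adv U (f i) x + P x * pd i (f i) x) with hF
  have hsum : ∑ i, ∫ x, (U x i * lap (f i) x + U x i * adv U (f i) x + P x * pd i (f i) x)
      = ∫ x, F x := by
    have j1 : ∀ i, Integrable fun x => -(∑ j, pd j (fun y => U y i) x * pd j (f i) x) :=
      fun i => (i1 i).2.1.neg
    have j2 : ∀ i, Integrable fun x => -(∑ j, pd j (fun y => U y i) x * pd j (f i) x)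
        + U x i * adv U (f i) x := fun i => (j1 i).add (i2 i)
    have j3 : ∀ i, Integrable fun x => -(∑ j, pd j (fun y => U y i) x * pd j (f i) x)
        + U x i * adv U (f i) x + P x * pd i (f i) x := fun i => (j2 i).add (i3 i)
    have j4 : ∀ i, Integrable fun x => U x i * lap (f i) x + U x i * adv U (f i) x :=
      fun i => (i1 i).1.add (i2 i)
    have e0 : ∫ x, F x = ∑ i, ∫ x, (-(∑ j, pd j (fun y => U y i) x * pd j (f i) x)
        + U x i * adv U (f i) x + P x * pd i (f i) x) := integral_finsetSum _ fun i _ => j3 i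
    rw [e0]
    refine Finset.sum_congr rfl fun i _ => ?_
    have e1 : ∫ x, (U x i * lap (f i) x + U x i * adv U (f i) x + P x * pd i (f i) x)
        = (∫ x, U x i * lap (f i) x) + (∫ x, U x i * adv U (f i) x)
          + ∫ x, P x * pd i (f i) x := by
      rw [integral_add (j4 i) (i3 i), integral_add (i1 i).1 (i2 i)]
    have e2 : ∫ x, (-(∑ j, pd j (fun y => U y i) x * pd j (f i) x) + U x i * adv U (f i) x
        + P x * pd i (f i) x)
        = (∫ x, -(∑ j, pd j (fun y => U y i) x * pd j (f i) x))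
          + (∫ x, U x i * adv U (f i) x) + ∫ x, P x * pd i (f i) x := by
      rw [integral_add (j2 i) (i3 i), integral_add (j1 i) (i2 i)]
    rw [e1, e2, (i1 i).2.2, integral_neg]
  have hF0 : ∀ x ∉ ball x₀ δ, F x = 0 := by
    intro x hx
    rw [hF]
    refine Finset.sum_eq_zero fun i _ => ?_
    rw [hadv0 i x hx, hpd0 i i x hx, Finset.sum_eq_zero fun j _ => by rw [hpd0 i j x hx, mul_zero]]
    simp
  change |∑ i, ∫ x, (U x i * lap (f i) x + U x i * adv U (f i) x + P x * pd i (f i) x)| ≤ _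
  rw [hsum, ← ball_int_eq hF0, ← integral_const_mul]
  have hMMc : Continuous (MM U P) := MM_cont hU hP.continuous
  have hgc : Continuous fun x => (72 * (1 + B ^ 2) * (1 + B * M) ^ 2) *
      (MM U P x + gsq a x + gsq b x) :=
    continuous_const.mul ((hMMc.add (gsq_sm ha).continuous).add (gsq_sm hb).continuous)
  rw [← Real.norm_eq_abs]
  refine norm_integral_le_of_norm_le (ballint hgc _ _) ?_
  rw [ae_restrict_iff' measurableSet_ball]
  refine ae_of_all _ fun x hx => ?_
  rw [Real.norm_eq_abs]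
  -- the pointwise bound
  have hUx := hUB x hx
  have hax := haB x hx
  have hbx := hbB x hx
  have ui : ∀ i, |U x i| ≤ B := fun i => (norm_le_pi_norm (U x) i).trans hUx
  have ai : ∀ i, |a x i| ≤ B := fun i => (norm_le_pi_norm (a x) i).trans hax
  have bi : ∀ i, |b x i| ≤ B := fun i => (norm_le_pi_norm (b x) i).trans hbx
  set A' : Fin 3 → Fin 3 → ℝ := fun i j => pd j (fun y => a y i) x with hA'
  set B' : Fin 3 → Fin 3 → ℝ := fun i j => pd j (fun y => b y i) x with hB'
  set U' : Fin 3 → Fin 3 → ℝ := fun i j => pd j (fun y => U y i) x with hU'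
  have ga : gsq a x = ∑ i, ∑ j, A' i j ^ 2 := rfl
  have gb : gsq b x = ∑ i, ∑ j, B' i j ^ 2 := rfl
  have gu : gsq U x = ∑ i, ∑ j, U' i j ^ 2 := rfl
  set N : ℝ := B * M with hN
  have hN0 : 0 ≤ N := mul_nonneg hB hM
  have hχx := hχ1 x
  have pf : ∀ i j, |pd j (f i) x| ≤ 2 * N + (|A' i j| + |B' i j|) := by
    intro i j
    rw [hpf i j x]
    refine (abs_add_le _ _).trans ?_
    rw [abs_mul, abs_mul]
    have h1 : |a x i + b x i| ≤ 2 * B := (abs_add_le _ _).trans (by linarith [ai i, bi i])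
    have h2 : |a x i + b x i| * |pd j χ x| ≤ 2 * B * M :=
      mul_le_mul h1 (hχM x j) (abs_nonneg _) (by positivity)
    have h3 : |pd j (fun y => a y i) x + pd j (fun y => b y i) x| * |χ x|
        ≤ (|A' i j| + |B' i j|) * 1 :=
      mul_le_mul (abs_add_le _ _) hχx (abs_nonneg _) (by positivity)
    rw [hN]
    linarith
  have pf2 : ∀ i j, |pd j (f i) x| ^ 2 ≤ 8 * N ^ 2 + 4 * (A' i j ^ 2 + B' i j ^ 2) := by
    intro i j
    have h1 := pf i j
    have h2 := pow_le_pow_left₀ (abs_nonneg _) h1 2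
    have h3 := sq_abs (A' i j)
    have h4 := sq_abs (B' i j)
    nlinarith [sq_nonneg (2 * N - (|A' i j| + |B' i j|)), sq_nonneg (|A' i j| - |B' i j|)]
  set Q : ℝ := ∑ i, ∑ j, |pd j (f i) x| ^ 2 with hQ
  have hQ0 : 0 ≤ Q := Finset.sum_nonneg fun i _ => Finset.sum_nonneg fun j _ => sq_nonneg _
  have hQle : Q ≤ 72 * N ^ 2 + 4 * (gsq a x + gsq b x) := by
    rw [hQ, ga, gb]
    refine (Finset.sum_le_sum fun i _ => Finset.sum_le_sum fun j _ => pf2 i j).trans ?_
    simp only [Finset.sum_add_distrib, ← Finset.mul_sum, Finset.sum_const, Finset.card_univ,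
      Fintype.card_fin, nsmul_eq_mul]
    push_cast
    linarith
  have q1 : |∑ i, ∑ j, U' i j * pd j (f i) x| ≤ gsq U x + Q := by
    rw [gu, hQ, ← Finset.sum_add_distrib]
    refine (Finset.abs_sum_le_sum_abs _ _).trans (Finset.sum_le_sum fun i _ => ?_)
    rw [← Finset.sum_add_distrib]
    refine (Finset.abs_sum_le_sum_abs _ _).trans (Finset.sum_le_sum fun j _ => ?_)
    rw [abs_mul]
    have h1 := sq_abs (U' i j)
    nlinarith [sq_nonneg (|U' i j| - |pd j (f i) x|), sq_nonneg (|U' i j|),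
      sq_nonneg (|pd j (f i) x|)]
  have q2 : |∑ i, U x i * adv U (f i) x| ≤ B ^ 2 * (9 + Q) := by
    refine (Finset.abs_sum_le_sum_abs _ _).trans ?_
    have h1 : ∀ i ∈ Finset.univ, |U x i * adv U (f i) x|
        ≤ B ^ 2 * (3 + ∑ j, |pd j (f i) x| ^ 2) := by
      intro i _
      rw [abs_mul]
      have h2 : |adv U (f i) x| ≤ B * (3 + ∑ j, |pd j (f i) x| ^ 2) := by
        unfold adv
        refine (Finset.abs_sum_le_sum_abs _ _).trans ?_
        have h3 : ∀ j ∈ Finset.univ, |U x j * pd j (f i) x| ≤ B * (1 + |pd j (f i) x| ^ 2) := by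
          intro j _
          rw [abs_mul]
          refine mul_le_mul (ui j) ?_ (abs_nonneg _) hB
          nlinarith [sq_nonneg (|pd j (f i) x| - 1)]
        refine (Finset.sum_le_sum h3).trans ?_
        rw [← Finset.mul_sum, Finset.sum_add_distrib]
        simp
      calc |U x i| * |adv U (f i) x| ≤ B * (B * (3 + ∑ j, |pd j (f i) x| ^ 2)) :=
            mul_le_mul (ui i) h2 (abs_nonneg _) hB
        _ = _ := by ring
    refine (Finset.sum_le_sum h1).trans ?_
    rw [← Finset.mul_sum, Finset.sum_add_distrib, hQ]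
    simp only [Finset.sum_const, Finset.card_univ, Fintype.card_fin, nsmul_eq_mul]
    apply le_of_eq
    push_cast
    ring
  have q3 : |∑ i, P x * pd i (f i) x| ≤ 6 * N * |P x| := by
    have e1 : ∑ i, P x * pd i (f i) x = P x * ∑ i, (a x i + b x i) * pd i χ x := by
      rw [← Finset.mul_sum]
      congr 1
      have h1 : ∀ i, pd i (f i) x = (a x i + b x i) * pd i χ x
          + (pd i (fun y => a y i) x + pd i (fun y => b y i) x) * χ x := fun i => hpf i i x
      simp only [h1, Finset.sum_add_distrib, ← Finset.sum_mul, hda x, hdb x, add_zero, zero_mul]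
    rw [e1, abs_mul]
    have h2 : |∑ i, (a x i + b x i) * pd i χ x| ≤ 6 * N := by
      refine (Finset.abs_sum_le_sum_abs _ _).trans ?_
      have h3 : ∀ i ∈ Finset.univ, |(a x i + b x i) * pd i χ x| ≤ 2 * B * M := by
        intro i _
        rw [abs_mul]
        exact mul_le_mul ((abs_add_le _ _).trans (by linarith [ai i, bi i])) (hχM x i)
          (abs_nonneg _) (by positivity)
      refine (Finset.sum_le_sum h3).trans ?_
      simp only [Finset.sum_const, Finset.card_univ, Fintype.card_fin, nsmul_eq_mul]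
      rw [hN]
      apply le_of_eq
      push_cast
      ring
    calc |P x| * |∑ i, (a x i + b x i) * pd i χ x| ≤ |P x| * (6 * N) :=
          mul_le_mul_of_nonneg_left h2 (abs_nonneg _)
      _ = _ := by ring
  have hFx : F x = -(∑ i, ∑ j, U' i j * pd j (f i) x) + (∑ i, U x i * adv U (f i) x)
      + ∑ i, P x * pd i (f i) x := by
    rw [hF]
    simp only [Finset.sum_add_distrib, Finset.sum_neg_distrib]
    rfl
  have hFb : |F x| ≤ (gsq U x + Q) + B ^ 2 * (9 + Q) + 6 * N * |P x| := by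
    rw [hFx]
    refine (abs_add_le _ _).trans (add_le_add ((abs_add_le _ _).trans (add_le_add ?_ q2)) q3)
    rw [abs_neg]
    exact q1
  refine hFb.trans ?_
  have g1 := gsq_nn U x
  have g2 := gsq_nn a x
  have g3 := gsq_nn b x
  have hPn := abs_nonneg (P x)
  have hMMx : gsq U x + |P x| + 1 ≤ MM U P x := by
    unfold MM
    have := nsq_nn U x
    have h1 : 0 ≤ √(nsq U x) := Real.sqrt_nonneg _
    have h2 : 0 ≤ √(nsq U x) ^ 3 := by positivity
    have h3 : 0 ≤ |P x| * √(nsq U x) := by positivity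
    linarith
  have hB2 : 0 ≤ B ^ 2 := sq_nonneg _
  have hbig : (gsq U x + Q) + B ^ 2 * (9 + Q) + 6 * N * |P x|
      ≤ (72 * (1 + B ^ 2) * (1 + N) ^ 2) * (gsq U x + |P x| + 1 + gsq a x + gsq b x) := by
    have h1 : (gsq U x + Q) + B ^ 2 * (9 + Q) + 6 * N * |P x|
        ≤ gsq U x + (1 + B ^ 2) * (72 * N ^ 2 + 4 * (gsq a x + gsq b x)) + 9 * B ^ 2
          + 6 * N * |P x| := by nlinarith
    refine h1.trans ?_
    have k1 : 0 ≤ gsq a x + gsq b x := by positivity
    set s := gsq a x + gsq b x with hs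
    set g := gsq U x with hg
    set π' := |P x| with hπ'
    set y := B ^ 2 with hy
    have e : (72 * (1 + y) * (1 + N) ^ 2) * (g + π' + 1 + gsq a x + gsq b x)
        = (72 * (1 + y) * (1 + N) ^ 2) * (g + π' + 1 + s) := by
      rw [hs]
      ring
    rw [e]
    have hN2 : (1 + N) ^ 2 = 1 + 2 * N + N ^ 2 := by ring
    have p1 : 0 ≤ y * N := by positivity
    have p2 : 0 ≤ N ^ 2 := by positivity
    have p3 : 0 ≤ y * N ^ 2 := by positivity
    have c : (72 * (1 + y) * (1 + N) ^ 2) = 72 + 144 * N + 72 * N ^ 2 + 72 * y + 144 * (y * N)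
        + 72 * (y * N ^ 2) := by ring
    rw [c]
    have t1 : g ≤ (72 + 144 * N + 72 * N ^ 2 + 72 * y + 144 * (y * N)
        + 72 * (y * N ^ 2)) * g := by
      have : (1 : ℝ) ≤ 72 + 144 * N + 72 * N ^ 2 + 72 * y + 144 * (y * N) + 72 * (y * N ^ 2) := by
        linarith
      nlinarith
    have t2 : 6 * N * π' ≤ (72 + 144 * N + 72 * N ^ 2 + 72 * y + 144 * (y * N)
        + 72 * (y * N ^ 2)) * π' := by
      have : 6 * N ≤ 72 + 144 * N + 72 * N ^ 2 + 72 * y + 144 * (y * N) + 72 * (y * N ^ 2) := by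
        linarith
      nlinarith
    have t3 : (1 + y) * (4 * s) ≤ (72 + 144 * N + 72 * N ^ 2 + 72 * y + 144 * (y * N)
        + 72 * (y * N ^ 2)) * s := by
      have : (1 + y) * 4 ≤ 72 + 144 * N + 72 * N ^ 2 + 72 * y + 144 * (y * N)
          + 72 * (y * N ^ 2) := by linarith
      nlinarith
    nlinarith
  refine hbig.trans ?_
  rw [mul_le_mul_iff_right₀ (by positivity)]
  linarith

section

variable {T E D : ℝ} {G : Set ℝ} {u : ℝ → V → V} {p : ℝ → V → ℝ}

/-- The increment of the local energy where the velocity is bounded. -/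
theorem inc (h : Turb 1 T E D G u p) {x₀ : V} {δ B M : ℝ} (hδ : 0 < δ) (hB : 0 ≤ B)
    (hM : 0 ≤ M) {χ : V → ℝ} (hχ : ContDiff ℝ ∞ χ) (hχ0 : ∀ x ∉ ball x₀ δ, χ x = 0)
    (hχ1 : ∀ x, |χ x| ≤ 1) (hχM : ∀ x j, |pd j χ x| ≤ M) :
    ∃ C : ℝ, 0 < C ∧ ∀ s ∈ G, ∀ t ∈ G, s ≤ t →
      (∀ τ ∈ G, τ ∈ Icc s t → ∀ x ∈ ball x₀ δ, ‖u τ x‖ ≤ B) →
      |(∫ x, nsq (u t) x * χ x) - ∫ x, nsq (u s) x * χ x|
        ≤ C * ((∫ τ in Ioo s t, K1 G u p τ) + (t - s) * (kk u p s + kk u p t)) := by
  obtain ⟨C', hC', hmaj⟩ := maj E δ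
  obtain ⟨C2, hC2, hbl⟩ := ball_le δ
  set A : ℝ := 72 * (1 + B ^ 2) * (1 + B * M) ^ 2 with hA
  have hA0 : 0 < A := by positivity
  refine ⟨A * (C' + C2), by positivity, fun s hs t ht hst hbd => ?_⟩
  have hus := h.spv hs
  have hut := h.spv ht
  have hsi : ∀ i, ContDiff ℝ ∞ (fun y => u s y i) := fun i => contDiff_pi.1 hus.1 i
  have hti : ∀ i, ContDiff ℝ ∞ (fun y => u t y i) := fun i => contDiff_pi.1 hut.1 i
  have hcχ : HasCompactSupport χ := hcsR hχ0
  have hΦ : ∀ i, ContDiffOn ℝ ∞ (fun z : ℝ × V =>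
      (fun (_ : ℝ) x => (u t x i + u s x i) * χ x) z.1 z.2) (Ioo (s - 1) (t + 1) ×ˢ univ) :=
    fun i => ((((hti i).add (hsi i)).mul hχ).comp contDiff_snd).contDiffOn
  have hm := fun i => wmom Pool.Agent.Y494.NS.t_TCUT h i (α := s - 1) (β := t + 1)
    (Φ := fun (_ : ℝ) x => (u t x i + u s x i) * χ x) (hΦ i) (a := x₀) (R := δ) hδ
    (fun _ _ x hx => by beta_reduce; rw [hχ0 x hx, mul_zero]) hs ht (by linarith) hst (by linarith)
  -- the energy difference
  have ict : ∀ i, Integrable fun x => u t x i * ((u t x i + u s x i) * χ x) := fun i =>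
    int_cs ((hti i).continuous.mul (((hti i).add (hsi i)).mul hχ).continuous)
      ((hcχ.mul_left).mul_left)
  have ics : ∀ i, Integrable fun x => u s x i * ((u t x i + u s x i) * χ x) := fun i =>
    int_cs ((hsi i).continuous.mul (((hti i).add (hsi i)).mul hχ).continuous)
      ((hcχ.mul_left).mul_left)
  have it : Integrable fun x => nsq (u t) x * χ x :=
    int_cs ((nsq_sm hut.1).continuous.mul hχ.continuous) hcχ.mul_left
  have is : Integrable fun x => nsq (u s) x * χ x :=
    int_cs ((nsq_sm hus.1).continuous.mul hχ.continuous) hcχ.mul_left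
  have e1 : (∫ x, nsq (u t) x * χ x) - ∫ x, nsq (u s) x * χ x
      = ∑ i, ∫ τ in Ioo s t, DM 1 u p (fun _ x => (u t x i + u s x i) * χ x) i τ := by
    have e2 : ∀ i, ∫ τ in Ioo s t, DM 1 u p (fun _ x => (u t x i + u s x i) * χ x) i τ
        = ∫ x, (u t x i * ((u t x i + u s x i) * χ x) - u s x i * ((u t x i + u s x i) * χ x)) :=
      fun i => by rw [← (hm i).2, integral_sub (ict i) (ics i)]
    simp only [e2]
    have icd : ∀ i, Integrable fun x => u t x i * ((u t x i + u s x i) * χ x)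
        - u s x i * ((u t x i + u s x i) * χ x) := fun i => (ict i).sub (ics i)
    rw [← integral_finsetSum _ fun i _ => icd i, ← integral_sub it is]
    refine integral_congr_ae (ae_of_all _ fun x => ?_)
    beta_reduce
    unfold nsq
    rw [Finset.sum_mul, Finset.sum_mul, ← Finset.sum_sub_distrib]
    refine Finset.sum_congr rfl fun i _ => ?_
    ring
  rw [e1, ← integral_finsetSum _ fun i _ => (hm i).1]
  have hae : ∀ᵐ τ ∂(volume.restrict (Ioo s t)), τ ∈ G :=
    aeT h (h.subG hs).1.le (h.subG ht).2.le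
  have hkk0 : ∀ τ, 0 ≤ kk u p τ := fun τ => zero_le_one.trans (kk_pos u p τ)
  have key : ∀ᵐ τ ∂(volume.restrict (Ioo s t)),
      ‖∑ i, DM 1 u p (fun _ x => (u t x i + u s x i) * χ x) i τ‖
        ≤ A * (C' + C2) * (K1 G u p τ + (kk u p s + kk u p t)) := by
    filter_upwards [hae, ae_restrict_mem measurableSet_Ioo] with τ hτ hτI
    have huτ := h.spv hτ
    have hpτ := h.sp hτ
    have h1 := inc_at (U := u τ) (a := u t) (b := u s) (P := p τ) hδ hB hM hχ hχ0 hχ1 hχM
      huτ.1 hut.1 hus.1 hpτ.smooth (h.divfree t ht) (h.divfree s hs)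
      (hbd τ hτ ⟨hτI.1.le, hτI.2.le⟩) (hbd t ht ⟨hst, le_rfl⟩) (hbd s hs ⟨le_rfl, hst⟩)
    have e3 : ∀ i, DM 1 u p (fun _ x => (u t x i + u s x i) * χ x) i τ
        = ∫ x, (u τ x i * lap (fun y => (u t y i + u s y i) * χ y) x
          + u τ x i * adv (u τ) (fun y => (u t y i + u s y i) * χ y) x
          + p τ x * pd i (fun y => (u t y i + u s y i) * χ y) x) := by
      intro i
      unfold DM
      refine integral_congr_ae (ae_of_all _ fun x => ?_)
      beta_reduce
      rw [deriv_const, zero_add, one_mul]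
    rw [Real.norm_eq_abs]
    simp only [e3]
    refine h1.trans ?_
    have hMc := MM_cont huτ.1 hpτ.smooth.continuous
    have gtc := (gsq_sm hut.1).continuous
    have gsc := (gsq_sm hus.1).continuous
    have e4 : ∫ x in ball x₀ δ, (MM (u τ) (p τ) x + gsq (u t) x + gsq (u s) x)
        = (∫ x in ball x₀ δ, MM (u τ) (p τ) x) + (∫ x in ball x₀ δ, gsq (u t) x)
          + ∫ x in ball x₀ δ, gsq (u s) x := by
      have b1 : IntegrableOn (fun x => MM (u τ) (p τ) x) (ball x₀ δ) := ballint hMc _ _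
      have b2 : IntegrableOn (fun x => gsq (u t) x) (ball x₀ δ) := ballint gtc _ _
      have b3 : IntegrableOn (fun x => gsq (u s) x) (ball x₀ δ) := ballint gsc _ _
      have b4 : IntegrableOn (fun x => MM (u τ) (p τ) x + gsq (u t) x) (ball x₀ δ) := b1.add b2
      rw [integral_add b4 b3, integral_add b1 b2]
    have m1 : ∫ x in ball x₀ δ, MM (u τ) (p τ) x ≤ C' * kk u p τ :=
      hmaj _ _ huτ hpτ (h.energy_le τ hτ) x₀
    have m2 : ∫ x in ball x₀ δ, gsq (u t) x ≤ C2 * kk u p t := by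
      refine (hbl _ gtc (gsq_per hut.2) (gsq_nn _) x₀).trans ?_
      rw [← enst_eq hut.1]
      refine mul_le_mul_of_nonneg_left ?_ hC2.le
      unfold kk
      have : 0 ≤ ∫ y in cube, |p t y| ^ (3 / 2 : ℝ) := integral_nonneg fun y => by positivity
      linarith
    have m3 : ∫ x in ball x₀ δ, gsq (u s) x ≤ C2 * kk u p s := by
      refine (hbl _ gsc (gsq_per hus.2) (gsq_nn _) x₀).trans ?_
      rw [← enst_eq hus.1]
      refine mul_le_mul_of_nonneg_left ?_ hC2.le
      unfold kk
      have : 0 ≤ ∫ y in cube, |p s y| ^ (3 / 2 : ℝ) := integral_nonneg fun y => by positivity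
      linarith
    rw [e4, K1_in hτ]
    calc A * ((∫ x in ball x₀ δ, MM (u τ) (p τ) x) + (∫ x in ball x₀ δ, gsq (u t) x)
          + ∫ x in ball x₀ δ, gsq (u s) x)
        ≤ A * (C' * kk u p τ + C2 * kk u p t + C2 * kk u p s) :=
          mul_le_mul_of_nonneg_left (by linarith) hA0.le
      _ ≤ A * ((C' + C2) * (kk u p τ + (kk u p s + kk u p t))) := by
          refine mul_le_mul_of_nonneg_left ?_ hA0.le
          have := mul_nonneg hC'.le (hkk0 t)
          have := mul_nonneg hC'.le (hkk0 s)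
          have := mul_nonneg hC2.le (hkk0 τ)
          nlinarith
      _ = _ := by ring
  have hgi : Integrable (fun τ => A * (C' + C2) * (K1 G u p τ + (kk u p s + kk u p t)))
      (volume.restrict (Ioo s t)) :=
    ((K1_int h).integrableOn.add (integrableOn_const (by simp))).const_mul _
  rw [← Real.norm_eq_abs]
  refine (norm_integral_le_of_norm_le hgi key).trans (le_of_eq ?_)
  rw [integral_const_mul, integral_add (K1_int h).integrableOn (integrableOn_const (by simp)),
    setIntegral_const, smul_eq_mul]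
  congr 2
  simp [Measure.real, Real.volume_Ioo, ENNReal.toReal_ofReal (sub_nonneg.2 hst)]

end

end Pool.Agent.Q62.SD
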