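import Pool.Agent.Q62.SD.Vit

/-!
No energy is lost where the scale invariant quantity grows at most like a power less than one of the
logarithm (helper62).
-/

set_option autoImplicit false

open MeasureTheory Set Metric Filter Topology
open scoped ContDiff ENNReal

namespace Pool.Agent.Q62.SD

open H459R3.NS W221.NS Pool.Agent.Y8 Pool.Agent.Q193.NS

section

variable {T E D : ℝ} {G : Set ℝ} {u : ℝ → V → V} {p : ℝ → V → ℝ}

/-- The singular points with logarithmic growth. -/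
def Lg (T : ℝ) (G : Set ℝ) (u : ℝ → V → V) (p : ℝ → V → ℝ) (σ M d : ℝ) : Set (ℝ × V) :=
  {z | d < z.1 ∧ z.1 < T - d ∧ SingPt G u z.1 z.2 ∧
    ∀ r : ℝ, 0 < r → r < d → qq G u p z r ≤ ENNReal.ofReal (M * Real.log r⁻¹ ^ σ)}

theorem nul_log (h : Turb 1 T E D G u p) {σ M d : ℝ} (hσ0 : 0 ≤ σ) (hσ : σ < 1) (hM : 0 < M)
    (hd : 0 < d) (hd1 : d ≤ 1 / 16) : Nul T G u p (Lg T G u p σ M d) := by
  obtain ⟨K, hK, hbump⟩ := df_bump
  intro ε hε
  set hh : ℝ → ℝ := fun r => r * Real.log r⁻¹ ^ σ with hhd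
  have hnull : HNull hh {z | z.1 ∈ Ioo 0 T ∧ SingPt G u z.1 z.2} :=
    main3 one_pos h (gau_of (pow_gauge hσ))
  set c : ℝ := 4 * K * (1 + M) with hc
  have hc0 : 0 < c := by positivity
  obtain ⟨ι, hι, cen, rad, hrad, hcov, hsum⟩ := hnull (d / 8) (by positivity) (ε / c)
    (by positivity)
  classical
  -- the centres
  set I : Set ι := {i | (clc (cen i) (rad i) ∩ Lg T G u p σ M d).Nonempty} with hI
  have hch : ∀ i : I, ∃ z, z ∈ clc (cen i) (rad i) ∧ z ∈ Lg T G u p σ M d := fun i => i.2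
  choose z hz hzA using hch
  have hr0 : ∀ i : I, 0 < 4 * rad i := fun i => by
    have := (hrad i).1
    positivity
  have hrd : ∀ i : I, 4 * rad i < d := fun i => by
    have := (hrad i).2
    linarith
  have hrsq : ∀ i : I, (4 * rad i) ^ 2 < d := fun i => by
    have h1 := hr0 i
    have h2 := hrd i
    nlinarith
  refine ⟨I, inferInstance, fun i => bq (z i) (4 * rad i), fun i => ?_, fun i => bq_nn _ _,
    ?_, ?_⟩
  · have h1 := (hzA i).1
    have h2 := (hzA i).2.1
    have h3 := hrsq i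
    exact bq_test (hr0 i) (by linarith) (by linarith)
  · intro a ha
    have haS : a ∈ {z : ℝ × V | z.1 ∈ Ioo 0 T ∧ SingPt G u z.1 z.2} :=
      ⟨⟨by linarith [ha.1], by linarith [ha.2.1]⟩, ha.2.2.1⟩
    obtain ⟨i, hi⟩ := mem_iUnion.1 (hcov haS)
    set j : I := ⟨i, ⟨a, hi, ha⟩⟩ with hj
    refine ⟨j, ?_⟩
    have hr := (hrad i).1
    have hzj : z j ∈ clc (cen i) (rad i) := hz j
    have hmem : a ∈ {w : ℝ × V | |w.1 - (z j).1| < 3 / 4 * (4 * rad i) ^ 2 ∧
        ‖w.2 - (z j).2‖ < 3 / 4 * (4 * rad i)} := by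
      refine ⟨?_, ?_⟩
      · have g1 := abs_le.1 hi.1
        have g2 := abs_le.1 hzj.1
        have g3 : 0 < rad i ^ 2 := by positivity
        rw [abs_lt]
        constructor
        · nlinarith [g1.1, g1.2, g2.1, g2.2]
        · nlinarith [g1.1, g1.2, g2.1, g2.2]
      · have g1 := hi.2
        have g2 := hzj.2
        have g3 : ‖a.2 - (z j).2‖ ≤ ‖a.2 - (cen i).2‖ + ‖(z j).2 - (cen i).2‖ := by
          have := norm_sub_le (a.2 - (cen i).2) ((z j).2 - (cen i).2)
          rwa [sub_sub_sub_cancel_right] at this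
        linarith
    filter_upwards [(open_box (z j).1 (z j).2 (3 / 4 * (4 * rad i) ^ 2)
      (3 / 4 * (4 * rad i))).mem_nhds hmem] with v hv
    rw [bq_one (hr0 j) hv.1.le hv.2.le]
  · have h1 : ∀ i : I, ENNReal.ofReal (Df G u p (bq (z i) (4 * rad i)))
        ≤ ENNReal.ofReal c * ENNReal.ofReal (hh (rad i)) := by
      intro i
      have g1 := (hzA i).1
      have g2 := (hzA i).2.1
      have g3 := hrsq i
      have g4 := hr0 i
      have g5 := hrd i
      have g6 := (hrad i).1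
      refine (hbump T E D G u p h (z i) (4 * rad i) g4 (by linarith) (by linarith)).trans ?_
      have hq := (hzA i).2.2.2 _ g4 g5
      -- the logarithm
      have hlog1 : 1 ≤ Real.log (4 * (rad i : ℝ))⁻¹ := by
        rw [Real.le_log_iff_exp_le (by positivity)]
        have e1 : Real.exp 1 < 16 := by
          have := Real.exp_one_lt_d9
          linarith
        have e2 : (16 : ℝ) ≤ (4 * (rad i : ℝ))⁻¹ := by
          rw [le_inv_comm₀ (by norm_num) g4]
          linarith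
        linarith
      have hlog2 : Real.log (4 * (rad i : ℝ))⁻¹ ≤ Real.log (rad i)⁻¹ := by
        refine Real.log_le_log (by positivity) ?_
        exact inv_anti₀ g6 (by linarith)
      have hlog3 : Real.log (4 * (rad i : ℝ))⁻¹ ^ σ ≤ Real.log (rad i)⁻¹ ^ σ :=
        Real.rpow_le_rpow (by linarith) hlog2 hσ0
      have hlog4 : 1 ≤ Real.log (rad i)⁻¹ ^ σ :=
        (Real.one_le_rpow hlog1 hσ0).trans hlog3
      calc ENNReal.ofReal (K * (4 * rad i)) * (1 + qq G u p (z i) (4 * rad i))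
          ≤ ENNReal.ofReal (K * (4 * rad i)) *
              (1 + ENNReal.ofReal (M * Real.log (4 * (rad i : ℝ))⁻¹ ^ σ)) := by gcongr
        _ = ENNReal.ofReal (K * (4 * rad i) * (1 + M * Real.log (4 * (rad i : ℝ))⁻¹ ^ σ)) := by
            have : 0 ≤ M * Real.log (4 * (rad i : ℝ))⁻¹ ^ σ := by
              have : 0 ≤ Real.log (4 * (rad i : ℝ))⁻¹ ^ σ := Real.rpow_nonneg (by linarith) _
              positivity
            rw [← ENNReal.ofReal_one, ← ENNReal.ofReal_add zero_le_one this,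
              ← ENNReal.ofReal_mul (by positivity)]
        _ ≤ ENNReal.ofReal (c * hh (rad i)) := by
            refine ENNReal.ofReal_le_ofReal ?_
            rw [hc, hhd]
            beta_reduce
            have g7 : 1 + M * Real.log (4 * (rad i : ℝ))⁻¹ ^ σ
                ≤ (1 + M) * Real.log (rad i)⁻¹ ^ σ := by
              have := mul_le_mul_of_nonneg_left hlog3 hM.le
              linarith
            calc K * (4 * rad i) * (1 + M * Real.log (4 * (rad i : ℝ))⁻¹ ^ σ)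
                ≤ K * (4 * rad i) * ((1 + M) * Real.log (rad i)⁻¹ ^ σ) :=
                  mul_le_mul_of_nonneg_left g7 (by positivity)
              _ = _ := by ring
        _ = _ := ENNReal.ofReal_mul hc0.le
    refine (ENNReal.tsum_le_tsum h1).trans ?_
    rw [ENNReal.tsum_mul_left]
    have h2 : ∑' i : I, ENNReal.ofReal (hh (rad i)) ≤ ∑' i, ENNReal.ofReal (hh (rad i)) :=
      ENNReal.tsum_comp_le_tsum_of_injective (f := fun i : I => (i : ι))
        Subtype.val_injective (fun i => ENNReal.ofReal (hh (rad i)))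
    refine (mul_le_mul_right (h2.trans hsum) _).trans ?_
    rw [← ENNReal.ofReal_mul hc0.le]
    exact ENNReal.ofReal_le_ofReal (le_of_eq (by field_simp))

/-- No energy is lost outside the supercritical singular points. -/
theorem nul_good (h : Turb 1 T E D G u p) :
    Nul T G u p {z | z.1 ∈ Ioo 0 T ∧ z ∉ Bad T G u p} := by
  have h1 : Nul T G u p (⋃ m : ℕ × ℕ, {z | z.1 ∈ Ioo 0 T ∧ SingPt G u z.1 z.2 ∧ ‖z.2‖ < (m.2 : ℝ) ∧
      ∃ᶠ r in 𝓝[>] (0 : ℝ), qq G u p z r ≤ ENNReal.ofReal ((m.1 : ℝ) + 1)}) :=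
    Nul.iUnion fun m => nul_freq h _ _ (by
      have : (0 : ℝ) ≤ m.1 := Nat.cast_nonneg _
      linarith)
  have h2 : Nul T G u p (⋃ k : ℕ, Lg T G u p (1 - 1 / ((k : ℝ) + 1)) ((k : ℝ) + 1)
      (1 / ((k : ℝ) + 16))) := by
    refine Nul.iUnion fun k => ?_
    have hk : (0 : ℝ) ≤ k := Nat.cast_nonneg _
    refine nul_log h ?_ ?_ (by positivity) (by positivity) ?_
    · rw [sub_nonneg, div_le_one (by positivity)]
      linarith
    · have : 0 < 1 / ((k : ℝ) + 1) := by positivity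
      linarith
    · exact one_div_le_one_div_of_le (by norm_num) (by linarith)
  refine (((nul_nsing h).union h1).union h2).mono ?_
  rintro z ⟨hz, hzB⟩
  by_cases hs : SingPt G u z.1 z.2
  swap
  · exact Or.inl (Or.inl ⟨hz, hs⟩)
  by_cases ht : Tendsto (fun r => qq G u p z r) (𝓝[>] 0) (𝓝 ⊤)
  swap
  · left
    right
    rw [ENNReal.tendsto_nhds_top_iff_nat] at ht
    push Not at ht
    obtain ⟨m, hm⟩ := ht
    obtain ⟨n, hn⟩ := exists_nat_gt ‖z.2‖
    refine mem_iUnion.2 ⟨(m, n), hz, hs, hn, ?_⟩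
    have hm' : ∃ᶠ r in 𝓝[>] (0 : ℝ), qq G u p z r ≤ (m : ℝ≥0∞) := hm
    refine hm'.mono fun r hr => hr.trans ?_
    beta_reduce
    rw [← ENNReal.ofReal_natCast]
    exact ENNReal.ofReal_le_ofReal (by simp)
  right
  have hex : ∃ s : ℝ, s < 1 ∧ ∃ M : ℝ, ¬ ∃ᶠ r in 𝓝[>] (0 : ℝ),
      ENNReal.ofReal (M * Real.log r⁻¹ ^ s) < qq G u p z r := by
    by_contra hcon
    push Not at hcon
    exact hzB ⟨hz, hs, ht, fun s hs1 M => hcon s hs1 M⟩
  obtain ⟨s, hs1, M, hM⟩ := hex
  rw [not_frequently] at hM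
  obtain ⟨e, he, hball⟩ := mem_nhdsGT_iff_exists_Ioo_subset.1 hM
  have he : 0 < e := he
  obtain ⟨k, hk⟩ := exists_nat_gt (max (max (1 / (1 - s)) |M|) (max (1 / e)
    (max (1 / z.1) (1 / (T - z.1)))))
  have k0 : (0 : ℝ) ≤ k := Nat.cast_nonneg _
  have k1 : 1 / (1 - s) < k := ((le_max_left _ _).trans (le_max_left _ _)).trans_lt hk
  have k2 : |M| < k := ((le_max_right _ _).trans (le_max_left _ _)).trans_lt hk
  have k3 : 1 / e < k := ((le_max_left _ _).trans (le_max_right _ _)).trans_lt hk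
  have k4 : 1 / z.1 < k :=
    ((le_max_left _ _).trans ((le_max_right _ _).trans (le_max_right _ _))).trans_lt hk
  have k5 : 1 / (T - z.1) < k :=
    ((le_max_right _ _).trans ((le_max_right _ _).trans (le_max_right _ _))).trans_lt hk
  have hs' : 0 < 1 - s := by linarith
  have hTz : 0 < T - z.1 := by linarith [hz.2]
  have l1 : 1 / ((k : ℝ) + 1) ≤ 1 - s := by
    rw [div_le_iff₀ (by positivity)]
    rw [div_lt_iff₀ hs'] at k1
    nlinarith
  have l3 : 1 / ((k : ℝ) + 16) < e := by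
    rw [div_lt_iff₀ (by positivity)]
    rw [div_lt_iff₀ he] at k3
    nlinarith
  have l4 : 1 / ((k : ℝ) + 16) < z.1 := by
    rw [div_lt_iff₀ (by positivity)]
    rw [div_lt_iff₀ hz.1] at k4
    nlinarith [hz.1]
  have l5 : 1 / ((k : ℝ) + 16) < T - z.1 := by
    rw [div_lt_iff₀ (by positivity)]
    rw [div_lt_iff₀ hTz] at k5
    nlinarith
  refine mem_iUnion.2 ⟨k, l4, by linarith, hs, fun r hr0 hrd => ?_⟩
  have hr1 : r ∈ Ioo 0 e := ⟨hr0, hrd.trans l3⟩
  have h3 : ¬ ENNReal.ofReal (M * Real.log r⁻¹ ^ s) < qq G u p z r := hball hr1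
  refine (not_lt.1 h3).trans (ENNReal.ofReal_le_ofReal ?_)
  have hr16 : r < 1 / 16 := hrd.trans_le (one_div_le_one_div_of_le (by norm_num) (by linarith))
  have hlog1 : 1 ≤ Real.log r⁻¹ := by
    rw [Real.le_log_iff_exp_le (by positivity)]
    have e1 : Real.exp 1 < 16 := by
      have := Real.exp_one_lt_d9
      linarith
    have e2 : (16 : ℝ) ≤ r⁻¹ := by
      rw [le_inv_comm₀ (by norm_num) hr0]
      linarith
    linarith
  have g1 : Real.log r⁻¹ ^ s ≤ Real.log r⁻¹ ^ (1 - 1 / ((k : ℝ) + 1)) :=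
    Real.rpow_le_rpow_of_exponent_le hlog1 (by linarith)
  have g2 : 0 ≤ Real.log r⁻¹ ^ s := Real.rpow_nonneg (by linarith) _
  calc M * Real.log r⁻¹ ^ s ≤ |M| * Real.log r⁻¹ ^ s :=
        mul_le_mul_of_nonneg_right (le_abs_self M) g2
    _ ≤ (k + 1) * Real.log r⁻¹ ^ (1 - 1 / ((k : ℝ) + 1)) :=
        mul_le_mul (by linarith) g1 g2 (by positivity)

end

end Pool.Agent.Q62.SD
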