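import Pool.Agent.Q62.SD.Diss

/-!
No energy is lost where the scale invariant quantity does not tend to infinity (helper62).
-/

set_option autoImplicit false

open MeasureTheory Set Metric Filter Topology
open scoped ContDiff ENNReal

namespace Pool.Agent.Q62.SD

open H459R3.NS W221.NS Pool.Agent.Y8 Pool.Agent.Q193.NS

section

variable {T E D : ℝ} {G : Set ℝ} {u : ℝ → V → V} {p : ℝ → V → ℝ}

/-- The dissipation in `ℝ × ball 0 n` as a measure. -/
noncomputable def nu (G : Set ℝ) (u : ℝ → V → V) (n : ℝ) : Measure (ℝ × V) :=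
  (volume.restrict (univ ×ˢ ball (0 : V) n)).withDensity (gG G u)

lemma nu_cyl (h : Turb 1 T E D G u p) {n : ℝ} {I : Set ℝ} (hI : MeasurableSet I) {x : V} {ρ : ℝ}
    (hsub : ball x ρ ⊆ ball (0 : V) n) :
    nu G u n (I ×ˢ ball x ρ) = ∫⁻ t in I, ∫⁻ y in ball x ρ, gG G u (t, y) := by
  unfold nu
  have hm : MeasurableSet (I ×ˢ ball x ρ) := hI.prod measurableSet_ball
  rw [withDensity_apply _ hm, Measure.restrict_restrict hm, prod_inter_prod, inter_univ,
    inter_eq_self_of_subset_left hsub, Measure.volume_eq_prod, ← Measure.prod_restrict,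
    lintegral_prod _ (gG_meas h).aemeasurable]

lemma nu_fin (h : Turb 1 T E D G u p) (n : ℝ) : IsFiniteMeasure (nu G u n) := by
  obtain ⟨C, hC, hb⟩ := ball_le n
  refine ⟨?_⟩
  have h1 : nu G u n univ = ∫⁻ t, ∫⁻ y in ball (0 : V) n, gG G u (t, y) := by
    have e : nu G u n univ = nu G u n (univ ×ˢ ball (0 : V) n) := by
      unfold nu
      rw [withDensity_apply _ MeasurableSet.univ,
        withDensity_apply _ (MeasurableSet.univ.prod measurableSet_ball),
        Measure.restrict_univ, Measure.restrict_restrict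
          (MeasurableSet.univ.prod measurableSet_ball), inter_self]
    rw [e, nu_cyl h MeasurableSet.univ subset_rfl, Measure.restrict_univ]
  rw [h1]
  have h2 : ∀ t, ∫⁻ y in ball (0 : V) n, gG G u (t, y)
      ≤ G.indicator (fun t => ENNReal.ofReal C * ENNReal.ofReal (enstrophy (u t))) t := by
    intro t
    by_cases ht : t ∈ G
    · rw [indicator_of_mem ht]
      have hs := h.spv ht
      have hgc := (gsq_sm hs.1).continuous
      calc ∫⁻ y in ball (0 : V) n, gG G u (t, y)
          = ∫⁻ y in ball (0 : V) n, ENNReal.ofReal (gsq (u t) y) :=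
            lintegral_congr fun y => gG_eq ht y
        _ = ENNReal.ofReal (∫ y in ball (0 : V) n, gsq (u t) y) :=
            (ofReal_integral_eq_lintegral_ofReal (ballint hgc _ _)
              (Eventually.of_forall fun x => gsq_nn (u t) x)).symm
        _ ≤ ENNReal.ofReal (C * enstrophy (u t)) := by
            refine ENNReal.ofReal_le_ofReal ?_
            rw [enst_eq hs.1]
            exact hb _ hgc (gsq_per hs.2) (gsq_nn _) 0
        _ = _ := ENNReal.ofReal_mul hC.le
    · rw [indicator_of_notMem ht]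
      simp only [gG_eq0 ht, lintegral_zero, le_refl]
  refine (lintegral_mono h2).trans_lt ?_
  rw [lintegral_indicator h.openG.measurableSet, lintegral_const_mul' _ _ ENNReal.ofReal_ne_top,
    ← ofReal_integral_eq_lintegral_ofReal h.enst_int (Eventually.of_forall fun t => enst_nn _)]
  exact ENNReal.mul_lt_top ENNReal.ofReal_lt_top ENNReal.ofReal_lt_top

/-- Singular points are at singular times. -/
lemma sing_time (h : Turb 1 T E D G u p) {t : ℝ} {x : V} (hs : SingPt G u t x) : t ∉ G := by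
  intro ht
  have hop : IsOpen (G ×ˢ (univ : Set V)) := h.openG.prod isOpen_univ
  have hc : ContinuousAt (fun z : ℝ × V => u z.1 z.2) (t, x) :=
    (h.smooth_u.continuousOn).continuousAt (hop.mem_nhds ⟨ht, mem_univ _⟩)
  obtain ⟨δ, hδ, hb⟩ := Metric.continuousAt_iff.1 hc 1 one_pos
  obtain ⟨s, -, hst, y, hy, hB⟩ := hs δ hδ (‖u t x‖ + 1)
  have h1 : dist ((s, y) : ℝ × V) (t, x) < δ := by
    rw [Prod.dist_eq, max_lt_iff]
    exact ⟨by rwa [Real.dist_eq], hy⟩
  have h2 := hb h1
  simp only [dist_eq_norm] at h2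
  have h3 : ‖u s y‖ ≤ ‖u s y - u t x‖ + ‖u t x‖ := by
    have := norm_add_le (u s y - u t x) (u t x)
    rwa [sub_add_cancel] at this
  linarith

lemma nu_sing (h : Turb 1 T E D G u p) (n : ℝ) {A : Set (ℝ × V)} (hA : ∀ z ∈ A, z.1 ∉ G) :
    nu G u n A = 0 := by
  have hm : MeasurableSet (Gᶜ ×ˢ (univ : Set V)) :=
    h.openG.measurableSet.compl.prod MeasurableSet.univ
  refine measure_mono_null (t := Gᶜ ×ˢ (univ : Set V)) (fun z hz => ⟨hA z hz, mem_univ _⟩) ?_
  unfold nu
  rw [withDensity_apply _ hm, setLIntegral_congr_fun (g := fun _ => 0) hm fun z hz => ?_]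
  · simp
  · obtain ⟨t, x⟩ := z
    exact gG_eq0 hz.1 x

/-- No energy is lost at the singular points where the scale invariant quantity does not tend to
infinity. -/
theorem nul_freq (h : Turb 1 T E D G u p) (M n : ℝ) (hM : 1 ≤ M) :
    Nul T G u p {z | z.1 ∈ Ioo 0 T ∧ SingPt G u z.1 z.2 ∧ ‖z.2‖ < n ∧
      ∃ᶠ r in 𝓝[>] (0 : ℝ), qq G u p z r ≤ ENNReal.ofReal M} := by
  set A : Set (ℝ × V) := {z | z.1 ∈ Ioo 0 T ∧ SingPt G u z.1 z.2 ∧ ‖z.2‖ < n ∧
      ∃ᶠ r in 𝓝[>] (0 : ℝ), qq G u p z r ≤ ENNReal.ofReal M} with hA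
  obtain ⟨c, hc, hdiss⟩ := diss M hM
  obtain ⟨K, hK, hbump⟩ := df_bump
  have hM0 : 0 < M := zero_lt_one.trans_le hM
  intro ε hε
  have hfin := nu_fin h (n + 1)
  have hν0 : nu G u (n + 1) A = 0 := nu_sing h _ fun z hz => sing_time h hz.2.1
  set η : ℝ := ε * c / (K * (1 + M)) with hη
  have hη0 : 0 < η := by positivity
  obtain ⟨O, hAO, hO, hOν⟩ := A.exists_isOpen_lt_of_lt (μ := nu G u (n + 1)) (ENNReal.ofReal η)
    (by rw [hν0]; exact ENNReal.ofReal_pos.2 hη0)
  -- the radii
  have hex : ∀ z ∈ A, ∃ R : ℝ, 0 < R ∧ R ≤ 1 ∧ 0 < z.1 - R ^ 2 ∧ z.1 + R ^ 2 < T ∧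
      qq G u p z R ≤ ENNReal.ofReal M ∧
      Ioo (z.1 - (R / 10) ^ 2) (z.1 + (R / 10) ^ 2) ×ˢ ball z.2 (R / 10) ⊆ O := by
    intro z hz
    obtain ⟨⟨hz0, hzT⟩, hs, hn, hf⟩ := hz
    obtain ⟨e, he, hball⟩ := Metric.isOpen_iff.1 hO z (hAO ⟨⟨hz0, hzT⟩, hs, hn, hf⟩)
    set d : ℝ := min (min 1 e) (min z.1 (T - z.1)) with hd
    have hd0 : 0 < d := lt_min (lt_min one_pos he) (lt_min hz0 (by linarith))
    have hev : ∀ᶠ r in 𝓝[>] (0 : ℝ), 0 < r ∧ r < d := by
      filter_upwards [self_mem_nhdsWithin, mem_nhdsWithin_of_mem_nhds (Iio_mem_nhds hd0)]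
        with r a b
      exact ⟨a, b⟩
    obtain ⟨R, hqR, hR0, hRd⟩ := (hf.and_eventually hev).exists
    have h1 : R < 1 := hRd.trans_le ((min_le_left _ _).trans (min_le_left _ _))
    have h2 : R < e := hRd.trans_le ((min_le_left _ _).trans (min_le_right _ _))
    have h3 : R < z.1 := hRd.trans_le ((min_le_right _ _).trans (min_le_left _ _))
    have h4 : R < T - z.1 := hRd.trans_le ((min_le_right _ _).trans (min_le_right _ _))
    have h5 : R ^ 2 < R := by nlinarith
    refine ⟨R, hR0, h1.le, by linarith, by linarith, hqR, fun w hw => hball ?_⟩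
    rw [mem_ball, Prod.dist_eq, max_lt_iff, Real.dist_eq]
    have h6 : (R / 10) ^ 2 < R := by nlinarith
    refine ⟨?_, ?_⟩
    · rw [abs_lt]
      constructor
      · linarith [hw.1.1]
      · linarith [hw.1.2]
    · exact (mem_ball.1 hw.2).trans (by linarith)
  choose! R hR0 hR1 hRa hRb hRq hRO using hex
  set B : ℝ × V → Set (ℝ × V) := fun z =>
    Ioo (z.1 - (R z / 10) ^ 2) (z.1 + (R z / 10) ^ 2) ×ˢ ball z.2 (R z / 10) with hB
  have hBo : ∀ z, IsOpen (B z) := fun z => isOpen_Ioo.prod isOpen_ball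
  have hBne : ∀ z ∈ A, (B z).Nonempty := fun z hz => by
    have := hR0 z hz
    have h2 : 0 < (R z / 10) ^ 2 := by positivity
    exact ⟨z, ⟨by linarith, by linarith⟩, mem_ball_self (by positivity)⟩
  obtain ⟨w, hwA, hwd, hwc⟩ := Vitali.exists_disjoint_subfamily_covering_enlargement B A R (3 / 2)
    (by norm_num) (fun z hz => (hR0 z hz).le) 1 hR1 hBne
  have hwct : w.Countable := hwd.countable_of_isOpen (fun z _ => hBo z) fun z hz =>
    hBne z (hwA hz)
  have hsum : ∑' b : w, nu G u (n + 1) (B b) ≤ ENNReal.ofReal η := by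
    rw [← measure_biUnion hwct hwd fun z _ => (hBo z).measurableSet]
    exact (measure_mono (iUnion₂_subset fun z hz => hRO z (hwA hz))).trans hOν.le
  refine ⟨w, hwct.to_subtype, fun b => bq b (R b), fun b => ?_, fun b => bq_nn _ _, ?_, ?_⟩
  · have hb := hwA b.2
    exact bq_test (hR0 _ hb) (hRa _ hb) (hRb _ hb)
  · intro a ha
    obtain ⟨b, hbw, ⟨v, hva, hvb⟩, hab⟩ := hwc a ha
    have hb := hwA hbw
    refine ⟨⟨b, hbw⟩, ?_⟩
    have hRa0 := hR0 a ha
    have hRb0 := hR0 b hb
    have hmem : a ∈ {w : ℝ × V | |w.1 - b.1| < 3 / 4 * R b ^ 2 ∧ ‖w.2 - b.2‖ < 3 / 4 * R b} := by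
      have g1 := hva.1
      have g2 := hvb.1
      have g3 := mem_ball.1 hva.2
      have g4 := mem_ball.1 hvb.2
      have g5 : R a ^ 2 ≤ (3 / 2 * R b) ^ 2 := pow_le_pow_left₀ hRa0.le hab 2
      have g6 : 0 < R b ^ 2 := by positivity
      refine ⟨?_, ?_⟩
      · rw [abs_lt]
        constructor
        · nlinarith [g1.1, g1.2, g2.1, g2.2]
        · nlinarith [g1.1, g1.2, g2.1, g2.2]
      · rw [← dist_eq_norm]
        have g7 := dist_triangle_left a.2 b.2 v.2
        linarith
    filter_upwards [(open_box b.1 b.2 (3 / 4 * R b ^ 2) (3 / 4 * R b)).mem_nhds hmem] with v' hv'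
    rw [bq_one hRb0 hv'.1.le hv'.2.le]
  · have h1 : ∀ b : w, ENNReal.ofReal (Df G u p (bq b (R b)))
        ≤ ENNReal.ofReal (K * (1 + M) / c) * nu G u (n + 1) (B b) := by
      intro b
      have hb := hwA b.2
      have hRb0 := hR0 _ hb
      refine (hbump T E D G u p h b (R b) hRb0 (hRa _ hb) (hRb _ hb)).trans ?_
      have hsub : ball (b : ℝ × V).2 (R b / 10) ⊆ ball (0 : V) (n + 1) := by
        refine ball_subset_ball' ?_
        rw [dist_zero_right]
        have := hR1 _ hb
        have h2 := hb.2.2.1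
        linarith
      have h2 : ENNReal.ofReal (c * R b) ≤ nu G u (n + 1) (B b) := by
        rw [hB]
        beta_reduce
        rw [nu_cyl h measurableSet_Ioo hsub]
        exact hdiss T E D G u p h b (R b) hRb0 (hR1 _ hb) (hRa _ hb) (hRb _ hb) hb.2.1 (hRq _ hb)
      calc ENNReal.ofReal (K * R b) * (1 + qq G u p b (R b))
          ≤ ENNReal.ofReal (K * R b) * (1 + ENNReal.ofReal M) := by
            gcongr
            exact hRq _ hb
        _ = ENNReal.ofReal (K * (1 + M) / c) * ENNReal.ofReal (c * R b) := by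
            rw [← ENNReal.ofReal_one, ← ENNReal.ofReal_add zero_le_one hM0.le,
              ← ENNReal.ofReal_mul (by positivity), ← ENNReal.ofReal_mul (by positivity)]
            congr 1
            field_simp
        _ ≤ _ := by gcongr
    refine (ENNReal.tsum_le_tsum h1).trans ?_
    rw [ENNReal.tsum_mul_left]
    refine (mul_le_mul_right hsum _).trans ?_
    rw [← ENNReal.ofReal_mul (by positivity)]
    exact ENNReal.ofReal_le_ofReal (le_of_eq (by rw [hη]; field_simp))

end

end Pool.Agent.Q62.SD
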